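import Pool.Agent.QTW.Sa2

/-!
# QTW: basic semialgebraic sets and relatively clopen subsets of them
-/

set_option autoImplicit false

open MvPolynomial Set Topology Filter

namespace Pool.Agent.QTW

open Pool.Agent.MZ

/-- basic semialgebraic set -/
def Bsa {σ : Type} (B : Set (σ → ℝ)) : Prop :=
  ∃ (P : MvPolynomial σ ℝ) (ι : Type) (_ : Finite ι) (Q : ι → MvPolynomial σ ℝ),
    B = {x | eval x P = 0 ∧ ∀ j, 0 < eval x (Q j)}

private theorem eval_bind {σ τ : Type} (F : σ → MvPolynomial τ ℝ) (P : MvPolynomial σ ℝ)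
    (x : τ → ℝ) : eval x (bind₁ F P) = eval (fun i => eval x (F i)) P := by
  induction P using MvPolynomial.induction_on with
  | C a => simp
  | add p q hp hq => rw [map_add, map_add, map_add, hp, hq]
  | mul_X p i hp => rw [map_mul, map_mul, map_mul, hp, bind₁_X_right, eval_X]

theorem Bsa.fc {σ : Type} [Finite σ] {B : Set (σ → ℝ)} (h : Bsa B) : FC B := by
  classical
  obtain ⟨P, ι, hι, Q, rfl⟩ := h
  have := Fintype.ofFinite ι
  let R : MvPolynomial (σ ⊕ ι) ℝ := (rename Sum.inl P) ^ 2 +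
    ∑ j, (rename Sum.inl (Q j) * (X (Sum.inr j)) ^ 2 - 1) ^ 2
  have hR : ∀ y : σ ⊕ ι → ℝ, eval y R = (eval (fun i => y (Sum.inl i)) P) ^ 2 +
      ∑ j, (eval (fun i => y (Sum.inl i)) (Q j) * y (Sum.inr j) ^ 2 - 1) ^ 2 := by
    intro y
    simp only [R, map_add, map_pow, map_sum, map_sub, map_mul, map_one, eval_rename, eval_X]
    rfl
  have h0 : ∀ y : σ ⊕ ι → ℝ, eval y R = 0 ↔ eval (fun i => y (Sum.inl i)) P = 0 ∧
      ∀ j, eval (fun i => y (Sum.inl i)) (Q j) * y (Sum.inr j) ^ 2 = 1 := by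
    intro y
    rw [hR, add_eq_zero_iff_of_nonneg (sq_nonneg _) (Finset.sum_nonneg fun j _ => sq_nonneg _),
      Finset.sum_eq_zero_iff_of_nonneg (fun j _ => sq_nonneg _)]
    simp only [sq_eq_zero_iff, Finset.mem_univ, forall_const, sub_eq_zero]
  have h1 := fc_alg' R 1
  have hc : Continuous (fun y : σ ⊕ ι → ℝ => (fun i => y (Sum.inl i) : σ → ℝ)) :=
    continuous_pi fun i => continuous_apply _
  convert h1.image hc.continuousOn using 1
  ext x
  constructor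
  · rintro ⟨h2, h3⟩
    refine ⟨Sum.elim x fun j => (Real.sqrt (eval x (Q j)))⁻¹, ⟨?_, ?_⟩, rfl⟩
    · rw [h0]
      refine ⟨h2, fun j => ?_⟩
      show eval x (Q j) * ((Real.sqrt (eval x (Q j)))⁻¹) ^ 2 = 1
      rw [inv_pow, Real.sq_sqrt (h3 j).le]
      exact mul_inv_cancel₀ (h3 j).ne'
    · rw [map_one]; exact one_ne_zero
  · rintro ⟨y, ⟨h2, -⟩, rfl⟩
    obtain ⟨h3, h4⟩ := (h0 y).1 h2
    refine ⟨h3, fun j => ?_⟩
    have h5 := h4 j
    by_contra h6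
    have h7 : eval (fun i => y (Sum.inl i)) (Q j) ≤ 0 := not_lt.1 h6
    have h8 := mul_nonpos_of_nonpos_of_nonneg h7 (sq_nonneg (y (Sum.inr j)))
    rw [h5] at h8
    exact absurd h8 (by norm_num)

theorem Bsa.inter {σ : Type} {B B' : Set (σ → ℝ)} (h : Bsa B) (h' : Bsa B') : Bsa (B ∩ B') := by
  obtain ⟨P, ι, hι, Q, rfl⟩ := h
  obtain ⟨P', ι', hι', Q', rfl⟩ := h'
  refine ⟨P ^ 2 + P' ^ 2, ι ⊕ ι', inferInstance, Sum.elim Q Q', ?_⟩
  ext x
  have e : eval x (P ^ 2 + P' ^ 2) = 0 ↔ eval x P = 0 ∧ eval x P' = 0 := by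
    rw [map_add, map_pow, map_pow, add_eq_zero_iff_of_nonneg (sq_nonneg _) (sq_nonneg _)]
    simp only [sq_eq_zero_iff]
  simp only [mem_inter_iff, mem_ofPred_eq, e, Sum.forall, Sum.elim_inl, Sum.elim_inr]
  tauto

theorem Bsa.preimage {σ τ : Type} {B : Set (σ → ℝ)} (h : Bsa B) (F : σ → MvPolynomial τ ℝ) :
    Bsa {x : τ → ℝ | (fun i => eval x (F i)) ∈ B} := by
  obtain ⟨P, ι, hι, Q, rfl⟩ := h
  refine ⟨bind₁ F P, ι, hι, fun j => bind₁ F (Q j), ?_⟩
  ext x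
  simp only [mem_ofPred_eq, eval_bind]

theorem Bsa.zero {σ : Type} (P : MvPolynomial σ ℝ) : Bsa {x : σ → ℝ | eval x P = 0} :=
  ⟨P, Empty, inferInstance, Empty.elim, by ext x; simp⟩

theorem Bsa.pos {σ : Type} (Q : MvPolynomial σ ℝ) : Bsa {x : σ → ℝ | 0 < eval x Q} :=
  ⟨0, Unit, inferInstance, fun _ => Q, by ext x; simp⟩

theorem Bsa.univ {σ : Type} : Bsa (univ : Set (σ → ℝ)) :=
  ⟨0, Empty, inferInstance, Empty.elim, by ext x; simp⟩

/-- relatively clopen subset of a basic semialgebraic set -/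
def Sc {σ : Type} (E : Set (σ → ℝ)) : Prop :=
  ∃ B, Bsa B ∧ E ⊆ B ∧ (∀ x ∈ E, ∀ᶠ y in 𝓝 x, y ∈ B → y ∈ E) ∧
    ∀ x ∈ B, x ∈ closure E → x ∈ E

theorem Bsa.sc {σ : Type} {B : Set (σ → ℝ)} (h : Bsa B) : Sc B :=
  ⟨B, h, subset_rfl, fun _ _ => Eventually.of_forall fun _ hy => hy, fun _ hx _ => hx⟩

theorem Sc.fc {σ : Type} [Finite σ] {E : Set (σ → ℝ)} (h : Sc E) : FC E := by
  obtain ⟨B, hB, hs, ho, hc⟩ := h
  exact hB.fc.clopen hs ho hc

theorem Sc.inter {σ : Type} {E E' : Set (σ → ℝ)} (h : Sc E) (h' : Sc E') : Sc (E ∩ E') := by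
  obtain ⟨B, hB, hs, ho, hc⟩ := h
  obtain ⟨B', hB', hs', ho', hc'⟩ := h'
  refine ⟨B ∩ B', hB.inter hB', inter_subset_inter hs hs', fun x hx => ?_, fun x hx hx' => ?_⟩
  · filter_upwards [ho x hx.1, ho' x hx.2] with y h1 h2 h3
    exact ⟨h1 h3.1, h2 h3.2⟩
  · exact ⟨hc x hx.1 (closure_mono inter_subset_left hx'),
      hc' x hx.2 (closure_mono inter_subset_right hx')⟩

theorem Sc.preimage {σ τ : Type} {E : Set (σ → ℝ)} (h : Sc E)
    (F : σ → MvPolynomial τ ℝ) : Sc {x : τ → ℝ | (fun i => eval x (F i)) ∈ E} := by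
  obtain ⟨B, hB, hs, ho, hc⟩ := h
  have hcont : Continuous (fun x : τ → ℝ => (fun i => eval x (F i) : σ → ℝ)) :=
    continuous_pi fun i => MvPolynomial.continuous_eval (F i)
  refine ⟨_, hB.preimage F, fun x hx => hs hx, fun x hx => ?_, fun x hx hx' => ?_⟩
  · exact hcont.continuousAt.eventually (ho _ hx)
  · exact hc _ hx (map_mem_closure hcont hx' fun y hy => hy)

/-- finite union of sets `Sc` -/
def SC {σ : Type} (E : Set (σ → ℝ)) : Prop :=
  ∃ (ι : Type) (_ : Finite ι) (F : ι → Set (σ → ℝ)), (∀ i, Sc (F i)) ∧ E = ⋃ i, F i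

theorem Sc.toSC {σ : Type} {E : Set (σ → ℝ)} (h : Sc E) : SC E :=
  ⟨Unit, inferInstance, fun _ => E, fun _ => h, (Set.iUnion_const E).symm⟩

theorem SC.fc {σ : Type} [Finite σ] {E : Set (σ → ℝ)} (h : SC E) : FC E := by
  obtain ⟨ι, hι, F, hF, rfl⟩ := h
  exact FC.iUnion fun i => (hF i).fc

theorem SC.iUnion {σ ι : Type} [Finite ι] {E : ι → Set (σ → ℝ)} (h : ∀ i, SC (E i)) :
    SC (⋃ i, E i) := by
  choose κ hκ F hF hE using h
  refine ⟨Σ i, κ i, inferInstance, fun p => F p.1 p.2, fun p => hF _ _, ?_⟩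
  ext x
  simp only [mem_iUnion, hE, Sigma.exists]

theorem SC.empty {σ : Type} : SC (∅ : Set (σ → ℝ)) :=
  ⟨Empty, inferInstance, Empty.elim, fun i => i.elim, by simp⟩

theorem SC.union {σ : Type} {E E' : Set (σ → ℝ)} (h : SC E) (h' : SC E') : SC (E ∪ E') := by
  rw [Set.union_eq_iUnion]
  refine SC.iUnion fun b => ?_
  cases b
  · exact h'
  · exact h

theorem SC.inter {σ : Type} {E E' : Set (σ → ℝ)} (h : SC E) (h' : SC E') : SC (E ∩ E') := by
  obtain ⟨ι, hι, F, hF, rfl⟩ := h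
  obtain ⟨ι', hι', F', hF', rfl⟩ := h'
  refine ⟨ι × ι', inferInstance, fun p => F p.1 ∩ F' p.2, fun p => (hF _).inter (hF' _), ?_⟩
  ext x
  simp only [mem_inter_iff, mem_iUnion, Prod.exists]
  constructor
  · rintro ⟨⟨i, hi⟩, j, hj⟩; exact ⟨i, j, hi, hj⟩
  · rintro ⟨i, j, hi, hj⟩; exact ⟨⟨i, hi⟩, j, hj⟩

theorem SC.preimage {σ τ : Type} {E : Set (σ → ℝ)} (h : SC E)
    (F : σ → MvPolynomial τ ℝ) : SC {x : τ → ℝ | (fun i => eval x (F i)) ∈ E} := by
  obtain ⟨ι, hι, G, hG, rfl⟩ := h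
  refine ⟨ι, hι, fun i => {x : τ → ℝ | (fun j => eval x (F j)) ∈ G i},
    fun i => (hG i).preimage F, ?_⟩
  ext x
  simp only [mem_ofPred_eq, mem_iUnion]

theorem SC.iInter {σ ι : Type} [Finite ι] {E : ι → Set (σ → ℝ)} (h : ∀ i, SC (E i)) :
    SC (⋂ i, E i) := by
  have := Fintype.ofFinite ι
  classical
  have key : ∀ s : Finset ι, SC (⋂ i ∈ s, E i) := by
    intro s
    induction s using Finset.induction_on with
    | empty =>
      simp only [Finset.notMem_empty, iInter_of_empty, iInter_univ]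
      exact Bsa.univ.sc.toSC
    | insert a s ha ih =>
      rw [Finset.set_biInter_insert]
      exact (h a).inter ih
  have := key Finset.univ
  simpa using this

end Pool.Agent.QTW
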