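import Pool.Agent.QTW.Bqc

/-!
# Project QTW: forms with a double root

`degenerate`: `g0 ≠ 0`, `D = 0`. If some rational `z` has `g (z, 1) ∈ a (ℚˣ)²` then there are infinitely many of them.
PROOF. `exists_double`: there is a complex double root `z0`. Let `p = (r, 1)` be a root, `b0 = 0`, `x = (1, 0)`. If `b1 = 0` done. Otherwise
`0 = D = b1² D'` in the basis `(p, x)`; let `x' = x + ρ p` be a second root; in the basis `(p, x')`: `b0 = b4 = 0` and
`0 = D' = 4 b3² (9 b2² - 16 b1 b3)`: `x'` or `κ p + x'`, `κ = - 3 b2 / (4 b1)`, is a double root.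
Let `q` be the minimal polynomial of `z0`; `q²` divides `G`. If `z0` is rational, `G (z) = β² (6 b2 + 4 b3 β + g0 β²)`, `β = z - z0`, and the conic
`6 b2 + 4 b3 β + g0 β² = a ρ²` has a rational point, so infinitely many (`conic`). Otherwise `G = c q²` and `q` has no rational
root, so all rational `z` belong to the set.
-/

set_option autoImplicit false

open Polynomial

namespace Pool.Agent.QS

namespace BQ

section ring

variable {R : Type*} [CommRing R] (g : BQ R) (s t u v : R)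

theorem b1_self : g.b1 s t s t = g.b0 s t := by
  unfold b0 b1
  ring

theorem b1_lin (u' v' a b : R) :
    g.b1 s t (a * u + b * u') (a * v + b * v') = a * g.b1 s t u v + b * g.b1 s t u' v' := by
  unfold b1
  ring

theorem b1_left (r : R) : g.b1 (r * s) (r * t) u v = r ^ 3 * g.b1 s t u v := by
  unfold b1
  ring

/-- polar form at `a p + b x`, in the direction `p` -/
theorem b1_comb (a b : R) : g.b1 (a * s + b * u) (a * t + b * v) s t =
    g.b0 s t * a ^ 3 + 3 * g.b1 s t u v * a ^ 2 * b + 3 * g.b2 s t u v * a * b ^ 2 +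
      g.b1 u v s t * b ^ 3 := by
  unfold b0 b1 b2
  ring

end ring

/-- a double root in the direction `(s, t)` gives an affine double root -/
private theorem double_of {g : BQ ℂ} (h0 : g.g0 ≠ 0) {s t u v : ℂ} (hw : s * v - t * u ≠ 0)
    (h1 : g.b0 s t = 0) (h2 : g.b1 s t u v = 0) :
    ∃ z : ℂ, g.b0 z 1 = 0 ∧ g.b1 z 1 1 0 = 0 := by
  have ht : t ≠ 0 := by
    rintro rfl
    have h3 : g.b0 s 0 = g.g0 * s ^ 4 := by
      unfold b0
      ring
    rw [h3] at h1
    rcases mul_eq_zero.1 h1 with h4 | h4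
    · exact h0 h4
    · have h5 : s = 0 := pow_eq_zero_iff four_ne_zero |>.1 h4
      rw [h5] at hw
      simp at hw
  refine ⟨s / t, ?_, ?_⟩
  · have h3 := g.b0_scale s t t⁻¹
    rw [h1, mul_zero, inv_mul_cancel₀ ht] at h3
    rw [div_eq_inv_mul]
    exact h3
  · have h3 := g.b1_left s t 1 0 t⁻¹
    rw [inv_mul_cancel₀ ht] at h3
    rw [div_eq_inv_mul, h3]
    have h4 := g.b1_lin s t s t u v (v / (s * v - t * u)) (-t / (s * v - t * u))
    have e1 : v / (s * v - t * u) * s + -t / (s * v - t * u) * u = 1 := by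
      rw [div_mul_eq_mul_div, div_mul_eq_mul_div, ← add_div, div_eq_one_iff_eq hw]
      ring
    have e2 : v / (s * v - t * u) * t + -t / (s * v - t * u) * v = 0 := by
      rw [div_mul_eq_mul_div, div_mul_eq_mul_div, ← add_div, div_eq_zero_iff]
      left
      ring
    rw [e1, e2, g.b1_self, h1, h2] at h4
    rw [h4]
    ring

private theorem exists_root4 {c4 c3 c2 c1 c0 : ℂ} (h : c4 ≠ 0 ∨ (c4 = 0 ∧ c3 ≠ 0)) :
    ∃ z : ℂ, c4 * z ^ 4 + c3 * z ^ 3 + c2 * z ^ 2 + c1 * z + c0 = 0 := by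
  obtain ⟨P, hP⟩ : ∃ P : ℂ[X], P = C c4 * X ^ 4 + C c3 * X ^ 3 + C c2 * X ^ 2 + C c1 * X + C c0 :=
    ⟨_, rfl⟩
  have h4 : P.coeff 4 = c4 := by
    rw [hP]
    simp [coeff_X, coeff_C]
  have h3 : P.coeff 3 = c3 := by
    rw [hP]
    simp [coeff_X, coeff_C]
  have hdeg : 0 < P.degree := by
    by_contra hcon
    push Not at hcon
    have h5 : ∀ n : ℕ, 0 < n → P.coeff n = 0 := fun n hn =>
      coeff_eq_zero_of_degree_lt (lt_of_le_of_lt hcon (by exact_mod_cast hn))
    rcases h with h | h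
    · exact h (by rw [← h4]; exact h5 4 (by norm_num))
    · exact h.2 (by rw [← h3]; exact h5 3 (by norm_num))
  obtain ⟨z, hz⟩ := Complex.exists_root hdeg
  refine ⟨z, ?_⟩
  rw [hP] at hz
  simpa [IsRoot] using hz

private theorem exists_double (g : BQ ℂ) (h0 : g.g0 ≠ 0) (hD : g.D = 0) :
    ∃ z : ℂ, g.b0 z 1 = 0 ∧ g.b1 z 1 1 0 = 0 := by
  obtain ⟨r, hr⟩ : ∃ r : ℂ, g.b0 r 1 = 0 := by
    obtain ⟨z, hz⟩ := exists_root4 (c3 := 4 * g.g1) (c2 := 6 * g.g2) (c1 := 4 * g.g3) (c0 := g.g4)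
      (Or.inl h0)
    refine ⟨z, ?_⟩
    rw [← hz]
    unfold b0
    ring
  by_cases h1 : g.b1 r 1 1 0 = 0
  · exact ⟨r, hr, h1⟩
  -- a second root `x' = (1, 0) + ρ (r, 1)`
  obtain ⟨ρ, hρ⟩ : ∃ ρ : ℂ, g.b0 (1 + ρ * r) (0 + ρ * 1) = 0 := by
    obtain ⟨z, hz⟩ := exists_root4 (c4 := 0) (c3 := 4 * g.b1 r 1 1 0) (c2 := 6 * g.b2 r 1 1 0)
      (c1 := 4 * g.b1 1 0 r 1) (c0 := g.b0 1 0)
      (Or.inr ⟨rfl, mul_ne_zero (by norm_num) h1⟩)
    refine ⟨z, ?_⟩
    have h := g.b4_shift r 1 1 0 z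
    rw [h, hr]
    linear_combination hz
  obtain ⟨u, hu⟩ : ∃ u, u = 1 + ρ * r := ⟨_, rfl⟩
  obtain ⟨v, hv⟩ : ∃ v, v = 0 + ρ * 1 := ⟨_, rfl⟩
  have hw : r * v - 1 * u = -1 := by
    rw [hu, hv]
    ring
  have hb1 : g.b1 r 1 u v ≠ 0 := by
    rw [hu, hv, g.b1_shift, hr, mul_zero, add_zero]
    exact h1
  rw [← hu, ← hv] at hρ
  have h2 := g.qD_basis r 1 u v
  rw [hD, zero_mul, qD_split, hr, zero_mul, add_zero, hρ] at h2
  have h3 : qDa (g.b1 r 1 u v) (g.b2 r 1 u v) (g.b1 u v r 1) 0 = 0 :=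
    (mul_eq_zero.1 h2).resolve_left (pow_ne_zero 2 hb1)
  have h4 : g.b1 u v r 1 ^ 2 * (9 * g.b2 r 1 u v ^ 2 - 16 * g.b1 r 1 u v * g.b1 u v r 1) = 0 := by
    unfold qDa at h3
    linear_combination h3 / 4
  rcases mul_eq_zero.1 h4 with h5 | h5
  · have h6 : g.b1 u v r 1 = 0 := pow_eq_zero_iff two_ne_zero |>.1 h5
    refine double_of h0 (s := u) (t := v) (u := r) (v := 1) ?_ hρ h6
    have e : u * 1 - v * r = 1 := by linear_combination -hw
    rw [e]
    exact one_ne_zero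
  · obtain ⟨κ, hκ⟩ : ∃ κ, κ = -3 * g.b2 r 1 u v / (4 * g.b1 r 1 u v) := ⟨_, rfl⟩
    have hκ' : 4 * g.b1 r 1 u v * κ = -3 * g.b2 r 1 u v := by
      rw [hκ]
      field_simp
    have hexp := g.expand r 1 u v κ 1
    have hcomb := g.b1_comb r 1 u v κ 1
    rw [hr] at hexp hcomb
    rw [hρ] at hexp
    generalize g.b1 r 1 u v = B1 at *
    generalize g.b2 r 1 u v = B2 at *
    generalize g.b1 u v r 1 = B3 at *
    have hB2 : B2 = -4 * B1 * κ / 3 := by
      linear_combination (1 / 3 : ℂ) * hκ'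
    have hB3 : B3 = B1 * κ ^ 2 := by
      have h6 : B1 * (B3 - B1 * κ ^ 2) = 0 := by
        rw [hB2] at h5
        linear_combination (-1 / 16 : ℂ) * h5
      exact sub_eq_zero.1 ((mul_eq_zero.1 h6).resolve_left hb1)
    refine double_of h0 (s := κ * r + 1 * u) (t := κ * 1 + 1 * v) (u := r) (v := 1) ?_ ?_ ?_
    · have e : (κ * r + 1 * u) * 1 - (κ * 1 + 1 * v) * r = 1 := by linear_combination -hw
      rw [e]
      exact one_ne_zero
    · rw [hexp, hB2, hB3]
      ring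
    · rw [hcomb, hB2, hB3]
      ring

/-- rational points of a conic -/
private theorem conic {c0 c1 c2 a : ℚ} (ha : a ≠ 0) {β ρ : ℚ} (hρ : ρ ≠ 0)
    (h : c0 + c1 * β + c2 * β ^ 2 = a * ρ ^ 2) (E : Set ℚ) (hE : E.Finite) :
    {z : ℚ | z ∉ E ∧ ∃ s : ℚ, c0 + c1 * z + c2 * z ^ 2 = a * s ^ 2}.Infinite := by
  intro hfin
  -- the parametrization
  obtain ⟨k, hk⟩ : ∃ k, k = 2 * c2 * β + c1 := ⟨_, rfl⟩
  have hpar : ∀ l : ℚ, c2 - a * l ^ 2 ≠ 0 →
      c0 + c1 * (β + (2 * a * ρ * l - k) / (c2 - a * l ^ 2)) +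
        c2 * (β + (2 * a * ρ * l - k) / (c2 - a * l ^ 2)) ^ 2 =
        a * (ρ + l * ((2 * a * ρ * l - k) / (c2 - a * l ^ 2))) ^ 2 := by
    intro l hl
    obtain ⟨w, hw⟩ : ∃ w, w = (2 * a * ρ * l - k) / (c2 - a * l ^ 2) := ⟨_, rfl⟩
    rw [← hw]
    have hw' : (c2 - a * l ^ 2) * w = 2 * a * ρ * l - k := by
      rw [hw]
      field_simp
    linear_combination h + w * hw' - w * hk
  -- fibres are finite
  have hq : ∀ A B C : ℚ, B ≠ 0 → {l : ℚ | A * l ^ 2 + B * l + C = 0}.Finite := by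
    intro A B C hB
    obtain ⟨P, hP⟩ : ∃ P : ℚ[X], P = Polynomial.C A * X ^ 2 + Polynomial.C B * X +
      Polynomial.C C := ⟨_, rfl⟩
    have hP1 : P.coeff 1 = B := by
      rw [hP]
      simp [coeff_X, coeff_C]
    have hP0 : P ≠ 0 := by
      intro h0
      rw [h0, coeff_zero] at hP1
      exact hB hP1.symm
    refine (P.roots.toFinset.finite_toSet).subset ?_
    intro l hl
    have hl' : A * l ^ 2 + B * l + C = 0 := hl
    rw [Finset.mem_coe, Multiset.mem_toFinset, mem_roots hP0]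
    show eval l P = 0
    rw [hP]
    simpa using hl'
  have hbad : {l : ℚ | c2 - a * l ^ 2 = 0}.Finite := by
    obtain ⟨P, hP⟩ : ∃ P : ℚ[X], P = Polynomial.C (-a) * X ^ 2 + Polynomial.C c2 := ⟨_, rfl⟩
    have hP1 : P.coeff 2 = -a := by
      rw [hP]
      simp [coeff_X, coeff_C]
    have hP0 : P ≠ 0 := by
      intro h0
      rw [h0, coeff_zero] at hP1
      exact ha (neg_eq_zero.1 hP1.symm)
    refine (P.roots.toFinset.finite_toSet).subset ?_
    intro l hl
    have hl' : c2 - a * l ^ 2 = 0 := hl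
    rw [Finset.mem_coe, Multiset.mem_toFinset, mem_roots hP0]
    show eval l P = 0
    rw [hP]
    simp
    linarith
  have hcov : (Set.univ : Set ℚ) ⊆ {l : ℚ | c2 - a * l ^ 2 = 0} ∪
      ⋃ z ∈ ({z : ℚ | z ∉ E ∧ ∃ s : ℚ, c0 + c1 * z + c2 * z ^ 2 = a * s ^ 2} ∪ E),
        {l : ℚ | (z - β) * a * l ^ 2 + 2 * a * ρ * l + (-(k + (z - β) * c2)) = 0} := by
    intro l _
    by_cases hl : c2 - a * l ^ 2 = 0
    · exact Or.inl hl
    · right
      obtain ⟨w, hw⟩ : ∃ w, w = (2 * a * ρ * l - k) / (c2 - a * l ^ 2) := ⟨_, rfl⟩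
      have h1 := hpar l hl
      rw [← hw] at h1
      have hw' : (c2 - a * l ^ 2) * w = 2 * a * ρ * l - k := by
        rw [hw]
        field_simp
      rw [Set.mem_iUnion₂]
      refine ⟨β + w, ?_, ?_⟩
      · by_cases hz : β + w ∈ E
        · exact Or.inr hz
        · exact Or.inl ⟨hz, _, h1⟩
      · show (β + w - β) * a * l ^ 2 + 2 * a * ρ * l + (-(k + (β + w - β) * c2)) = 0
        linear_combination -hw'
  have hfin2 : ({l : ℚ | c2 - a * l ^ 2 = 0} ∪
      ⋃ z ∈ ({z : ℚ | z ∉ E ∧ ∃ s : ℚ, c0 + c1 * z + c2 * z ^ 2 = a * s ^ 2} ∪ E),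
        {l : ℚ | (z - β) * a * l ^ 2 + 2 * a * ρ * l + (-(k + (z - β) * c2)) = 0}).Finite :=
    hbad.union ((hfin.union hE).biUnion fun z _ =>
      hq _ _ _ (mul_ne_zero (mul_ne_zero two_ne_zero ha) hρ))
  exact Set.infinite_univ (hfin2.subset hcov)

/-- complex form -/
private def toC (g : BQ ℚ) : BQ ℂ := ⟨g.g0, g.g1, g.g2, g.g3, g.g4⟩

private noncomputable def pol (g : BQ ℚ) : ℚ[X] :=
  C g.g0 * X ^ 4 + C (4 * g.g1) * X ^ 3 + C (6 * g.g2) * X ^ 2 + C (4 * g.g3) * X + C g.g4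

private theorem pol_eval (g : BQ ℚ) (z : ℚ) : eval z g.pol = g.b0 z 1 := by
  unfold pol b0
  simp only [eval_add, eval_mul, eval_C, eval_pow, eval_X]
  ring

private theorem pol_aeval (g : BQ ℚ) (z : ℂ) : aeval z g.pol = g.toC.b0 z 1 := by
  unfold pol toC b0
  simp only [map_add, map_mul, aeval_C, map_pow, aeval_X, eq_ratCast]
  push_cast
  ring

private theorem pol_deriv (g : BQ ℚ) (z : ℂ) :
    aeval z (derivative g.pol) = 4 * g.toC.b1 z 1 1 0 := by
  unfold pol toC b1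
  simp only [derivative_add, derivative_mul, derivative_C, derivative_X_pow, derivative_X, map_add,
    map_mul, aeval_C, map_pow, aeval_X, eq_ratCast, map_natCast, map_zero, map_one]
  push_cast
  ring

private theorem pol_coeff (g : BQ ℚ) : g.pol.coeff 4 = g.g0 := by
  unfold pol
  simp only [coeff_add, coeff_C_mul, coeff_X_pow, coeff_X, coeff_C]
  norm_num

private theorem pol_natDegree (g : BQ ℚ) (h0 : g.g0 ≠ 0) : g.pol.natDegree = 4 := by
  refine le_antisymm ?_ (le_natDegree_of_ne_zero (by rw [pol_coeff]; exact h0))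
  unfold pol
  compute_degree

theorem degenerate (g : BQ ℚ) (h0 : g.g0 ≠ 0) (hD : g.D = 0) {a : ℚ} (ha : a ≠ 0)
    (hne : ∃ z r : ℚ, r ≠ 0 ∧ g.b0 z 1 = a * r ^ 2) :
    {z : ℚ | ∃ r : ℚ, r ≠ 0 ∧ g.b0 z 1 = a * r ^ 2}.Infinite := by
  have hDC : g.toC.D = 0 := by
    have h1 : g.toC.D = ((g.D : ℚ) : ℂ) := by
      unfold toC D qD qI qJ
      push_cast
      ring
    rw [h1, hD]
    norm_num
  have h0C : g.toC.g0 ≠ 0 := by
    show ((g.g0 : ℚ) : ℂ) ≠ 0
    exact_mod_cast h0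
  obtain ⟨z0, hz0, hz1⟩ := exists_double g.toC h0C hDC
  have hP0 : g.pol ≠ 0 := by
    intro h1
    have h2 := g.pol_coeff
    rw [h1, coeff_zero] at h2
    exact h0 h2.symm
  have hP : aeval z0 g.pol = 0 := by rw [pol_aeval, hz0]
  have hP' : aeval z0 (derivative g.pol) = 0 := by rw [pol_deriv, hz1, mul_zero]
  have hint : IsIntegral ℚ z0 := by
    rw [← isAlgebraic_iff_isIntegral]
    exact ⟨g.pol, hP0, hP⟩
  have hirr := minpoly.irreducible hint
  obtain ⟨z1, r1, hr1, hz1r⟩ := hne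
  by_cases hdeg : (minpoly ℚ z0).natDegree = 1
  · -- rational double root
    obtain ⟨e, he⟩ : z0 ∈ (algebraMap ℚ ℂ).range := minpoly.natDegree_eq_one_iff.1 hdeg
    have he' : z0 = (e : ℂ) := by rw [← he]; rfl
    have e0 : g.b0 e 1 = 0 := by
      have h1 := g.pol_eval e
      rw [← h1]
      have h2 : aeval z0 g.pol = ((eval e g.pol : ℚ) : ℂ) := by
        rw [← he, aeval_algebraMap_apply]
        simp
      rw [h2] at hP
      exact_mod_cast hP
    have e1 : g.b1 e 1 1 0 = 0 := by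
      have h1 : g.toC.b1 (e : ℂ) 1 1 0 = ((g.b1 e 1 1 0 : ℚ) : ℂ) := by
        unfold toC b1
        push_cast
        ring
      rw [he', h1] at hz1
      exact_mod_cast hz1
    have hval : ∀ z : ℚ, g.b0 z 1 = (z - e) ^ 2 * (6 * g.b2 e 1 1 0 +
        4 * g.b1 1 0 e 1 * (z - e) + g.g0 * (z - e) ^ 2) := by
      intro z
      have h1 := g.expand e 1 1 0 1 (z - e)
      have h2 : g.b0 1 0 = g.g0 := by
        unfold b0
        ring
      rw [e0, e1, h2] at h1
      have h3 : (1 : ℚ) * e + (z - e) * 1 = z := by ring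
      have h4 : (1 : ℚ) * 1 + (z - e) * 0 = 1 := by ring
      rw [h3, h4] at h1
      rw [h1]
      ring
    have hze : z1 - e ≠ 0 := by
      intro h1
      rw [hval, h1] at hz1r
      have h2 : a * r1 ^ 2 ≠ 0 := mul_ne_zero ha (pow_ne_zero 2 hr1)
      exact h2 (by rw [← hz1r]; ring)
    have hc := conic (c0 := 6 * g.b2 e 1 1 0) (c1 := 4 * g.b1 1 0 e 1) (c2 := g.g0) ha
      (β := z1 - e) (ρ := r1 / (z1 - e)) (div_ne_zero hr1 hze) (by
        rw [hval] at hz1r
        rw [div_pow, ← mul_div_assoc, ← hz1r, mul_div_cancel_left₀ _ (pow_ne_zero 2 hze)])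
      ({z : ℚ | z = 0} ∪ {z : ℚ | 6 * g.b2 e 1 1 0 + 4 * g.b1 1 0 e 1 * z + g.g0 * z ^ 2 = 0}) (by
        refine (Set.finite_singleton (0 : ℚ)).union ?_
        obtain ⟨P, hPd⟩ : ∃ P : ℚ[X], P = C g.g0 * X ^ 2 + C (4 * g.b1 1 0 e 1) * X +
          C (6 * g.b2 e 1 1 0) := ⟨_, rfl⟩
        have hP2 : P.coeff 2 = g.g0 := by
          rw [hPd]
          simp [coeff_X, coeff_C]
        have hPn : P ≠ 0 := by
          intro h1
          rw [h1, coeff_zero] at hP2
          exact h0 hP2.symm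
        refine (P.roots.toFinset.finite_toSet).subset ?_
        intro z hz
        have hz' : 6 * g.b2 e 1 1 0 + 4 * g.b1 1 0 e 1 * z + g.g0 * z ^ 2 = 0 := hz
        rw [Finset.mem_coe, Multiset.mem_toFinset, mem_roots hPn]
        show eval z P = 0
        rw [hPd]
        simp only [eval_add, eval_mul, eval_C, eval_pow, eval_X]
        linarith)
    refine Set.Infinite.mono ?_ (hc.image (f := fun z => z + e)
      (fun z _ z' _ h => by simpa using h))
    rintro _ ⟨z, ⟨hzE, s, hs⟩, rfl⟩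
    have hzE1 : z ≠ 0 := fun h => hzE (Or.inl h)
    have hzE2 : 6 * g.b2 e 1 1 0 + 4 * g.b1 1 0 e 1 * z + g.g0 * z ^ 2 ≠ 0 :=
      fun h => hzE (Or.inr h)
    have hs0 : s ≠ 0 := by
      rintro rfl
      rw [hs] at hzE2
      simp at hzE2
    refine ⟨z * s, mul_ne_zero hzE1 hs0, ?_⟩
    show g.b0 (z + e) 1 = a * (z * s) ^ 2
    rw [hval]
    have h1 : z + e - e = z := by ring
    rw [h1, hs]
    ring
  · -- the minimal polynomial has degree two
    have hqP : minpoly ℚ z0 ∣ g.pol := minpoly.dvd ℚ z0 hP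
    obtain ⟨k, hk⟩ := hqP
    have hk0 : aeval z0 k = 0 := by
      have h1 : derivative g.pol = derivative (minpoly ℚ z0) * k +
          minpoly ℚ z0 * derivative k := by
        conv_lhs => rw [hk]
        rw [derivative_mul]
      rw [h1, map_add, map_mul, map_mul, minpoly.aeval, zero_mul, add_zero] at hP'
      rcases mul_eq_zero.1 hP' with h2 | h2
      · exfalso
        have hsep := hirr.separable
        obtain ⟨A, B, hAB⟩ := hsep
        have h3 := congrArg (aeval z0) hAB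
        rw [map_add, map_mul, map_mul, minpoly.aeval, h2, mul_zero, mul_zero, add_zero,
          map_one] at h3
        exact zero_ne_one h3
      · exact h2
    obtain ⟨n, hn⟩ := minpoly.dvd ℚ z0 hk0
    have hfac : g.pol = minpoly ℚ z0 * minpoly ℚ z0 * n := by rw [hk, hn, mul_assoc]
    have hq0 : minpoly ℚ z0 ≠ 0 := minpoly.ne_zero hint
    have hn0 : n ≠ 0 := by
      rintro rfl
      rw [mul_zero] at hfac
      exact hP0 hfac
    have hdsum : 4 = (minpoly ℚ z0).natDegree + (minpoly ℚ z0).natDegree + n.natDegree := by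
      rw [← g.pol_natDegree h0]
      conv_lhs => rw [hfac]
      rw [natDegree_mul (mul_ne_zero hq0 hq0) hn0, natDegree_mul hq0 hq0]
    have hqpos : 0 < (minpoly ℚ z0).natDegree := minpoly.natDegree_pos hint
    have hnd : n.natDegree = 0 := by omega
    obtain ⟨c, hc⟩ : ∃ c, n = C c := ⟨_, eq_C_of_natDegree_eq_zero hnd⟩
    have hroot : ∀ z : ℚ, eval z (minpoly ℚ z0) ≠ 0 := by
      intro z hz
      have h1 := degree_eq_one_of_irreducible_of_root hirr hz
      exact hdeg (natDegree_eq_of_degree_eq_some h1)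
    have hval : ∀ z : ℚ, g.b0 z 1 = c * eval z (minpoly ℚ z0) ^ 2 := by
      intro z
      rw [← pol_eval, hfac, hc, eval_mul, eval_mul, eval_C]
      ring
    refine Set.infinite_univ.mono ?_
    intro z _
    have h1 := hroot z1
    have h2 := hroot z
    refine ⟨r1 * eval z (minpoly ℚ z0) / eval z1 (minpoly ℚ z0),
      div_ne_zero (mul_ne_zero hr1 h2) h1, ?_⟩
    show g.b0 z 1 = _
    rw [hval] at hz1r ⊢
    rw [div_pow, mul_pow, ← mul_div_assoc, ← mul_assoc, ← hz1r, eq_div_iff (pow_ne_zero 2 h1)]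
    ring

end BQ

end Pool.Agent.QS
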