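import Pool.Agent.QTW.Bqd
import Pool.Agent.QTW.Bqe

/-!
# Project QTW: for all but finitely many classes the set of square values of a binary quartic form is empty or infinite

`Aa g a = {z ∈ ℚ | g (z, 1) ∈ a (ℚˣ)²}`. THEOREM `classes`: `g0 ≠ 0`; there is a finite set `E` of nonzero rational numbers such that for
`a` outside the classes of `E` and every rational vector `(σ, τ)` with `g (σ, τ) ∈ a (ℚˣ)²` the set `Aa g a` is infinite.
PROOF. `E ∋ g0`. `D = 0`: `degenerate` (if `τ = 0` the class is that of `g0`). `D ≠ 0`: multiply by a square `N²` to get an integral form;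
`(σ, τ)` is a multiple of a primitive vector `p ∈ Pa a`. If `Aa g a` is finite then so is `Pa a` (coprime pairs with the same ratio
differ by a sign), so `|p|² ≤ B` (`height_bound`) and `a` is in the class of the value at `p`: `E` contains the values at the integral
vectors with `|p|² ≤ B`.
-/

set_option autoImplicit false

namespace Pool.Agent.QS

theorem cop_pm {p q : ℤ × ℤ} (hp : IsCoprime p.1 p.2) (hq : IsCoprime q.1 q.2)
    (h : p.1 * q.2 = p.2 * q.1) : q = p ∨ q = -p := by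
  obtain ⟨u, v, huv⟩ := hp
  obtain ⟨u', v', huv'⟩ := hq
  have h1 : (u * q.1 + v * q.2) * p.1 = q.1 := by linear_combination v * h + q.1 * huv
  have h2 : (u * q.1 + v * q.2) * p.2 = q.2 := by linear_combination (-u) * h + q.2 * huv
  have h3 : (u * q.1 + v * q.2) * (u' * p.1 + v' * p.2) = 1 := by
    linear_combination u' * h1 + v' * h2 + huv'
  rcases Int.eq_one_or_neg_one_of_mul_eq_one h3 with h4 | h4
  · left
    rw [h4] at h1 h2
    exact Prod.ext (by linarith) (by linarith)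
  · right
    rw [h4] at h1 h2
    exact Prod.ext (by rw [Prod.fst_neg]; linarith) (by rw [Prod.snd_neg]; linarith)

theorem exists_prim {σ τ : ℚ} (h : ¬ (σ = 0 ∧ τ = 0)) : ∃ (p : ℤ × ℤ) (c : ℚ),
    IsCoprime p.1 p.2 ∧ c ≠ 0 ∧ σ = c * p.1 ∧ τ = c * p.2 := by
  obtain ⟨A, hA⟩ : ∃ A : ℤ, A = σ.num * τ.den := ⟨_, rfl⟩
  obtain ⟨B, hB⟩ : ∃ B : ℤ, B = τ.num * σ.den := ⟨_, rfl⟩
  have hs : (σ.den : ℚ) ≠ 0 := by exact_mod_cast σ.den_ne_zero
  have ht : (τ.den : ℚ) ≠ 0 := by exact_mod_cast τ.den_ne_zero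
  have hA' : (A : ℚ) = σ * (σ.den * τ.den) := by
    rw [hA]
    push_cast
    rw [← mul_assoc, Rat.mul_den_eq_num]
  have hB' : (B : ℚ) = τ * (σ.den * τ.den) := by
    rw [hB]
    push_cast
    have := Rat.mul_den_eq_num τ
    linear_combination (-(σ.den : ℚ)) * this
  have hg : Int.gcd A B ≠ 0 := by
    intro h0
    obtain ⟨h1, h2⟩ := Int.gcd_eq_zero_iff.1 h0
    apply h
    rw [h1] at hA'
    rw [h2] at hB'
    have h3 : (σ.den : ℚ) * τ.den ≠ 0 := mul_ne_zero hs ht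
    constructor
    · have : σ * ((σ.den : ℚ) * τ.den) = 0 := by rw [← hA']; norm_num
      exact (mul_eq_zero.1 this).resolve_right h3
    · have : τ * ((σ.den : ℚ) * τ.den) = 0 := by rw [← hB']; norm_num
      exact (mul_eq_zero.1 this).resolve_right h3
  obtain ⟨d, hd⟩ : ∃ d : ℤ, d = (Int.gcd A B : ℤ) := ⟨_, rfl⟩
  have hd0 : d ≠ 0 := by
    rw [hd]
    exact_mod_cast hg
  obtain ⟨s', hs'⟩ : d ∣ A := by rw [hd]; exact Int.gcd_dvd_left _ _
  obtain ⟨t', ht'⟩ : d ∣ B := by rw [hd]; exact Int.gcd_dvd_right _ _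
  have hcop : IsCoprime s' t' := by
    rw [Int.isCoprime_iff_gcd_eq_one]
    have h3 : Int.gcd A B = d.natAbs * Int.gcd s' t' := by
      conv_lhs => rw [hs', ht']
      rw [Int.gcd_mul_left]
    have h4 : d.natAbs = Int.gcd A B := by
      rw [hd]
      exact Int.natAbs_natCast _
    rw [← h4] at h3
    have h5 : d.natAbs ≠ 0 := Int.natAbs_ne_zero.2 hd0
    have h6 : d.natAbs * 1 = d.natAbs * Int.gcd s' t' := by rw [mul_one]; exact h3
    exact (Nat.eq_of_mul_eq_mul_left (Nat.pos_of_ne_zero h5) h6).symm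
  have hdq : (d : ℚ) ≠ 0 := by exact_mod_cast hd0
  refine ⟨(s', t'), d / (σ.den * τ.den), hcop, div_ne_zero hdq (mul_ne_zero hs ht), ?_, ?_⟩
  · show σ = d / (σ.den * τ.den) * (s' : ℚ)
    rw [div_mul_eq_mul_div, eq_div_iff (mul_ne_zero hs ht), ← hA', hs']
    push_cast
    ring
  · show τ = d / (σ.den * τ.den) * (t' : ℚ)
    rw [div_mul_eq_mul_div, eq_div_iff (mul_ne_zero hs ht), ← hB', ht']
    push_cast
    ring

namespace BQ

/-- the affine square values -/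
def Aa (g : BQ ℚ) (a : ℚ) : Set ℚ := {z | ∃ r : ℚ, r ≠ 0 ∧ g.b0 z 1 = a * r ^ 2}

private theorem exists_int (g : BQ ℚ) : ∃ (N : ℤ) (G : BQ ℤ), N ≠ 0 ∧
    (∀ s t : ℤ, (G.b0 s t : ℚ) = (N : ℚ) ^ 2 * g.b0 s t) ∧ (G.g0 : ℚ) = (N : ℚ) ^ 2 * g.g0 ∧
    (G.D : ℚ) = ((N : ℚ) ^ 2) ^ 6 * g.D := by
  obtain ⟨N, hN⟩ : ∃ N : ℤ, N = g.g0.den * g.g1.den * g.g2.den * g.g3.den * g.g4.den := ⟨_, rfl⟩
  have hN0 : N ≠ 0 := by
    rw [hN]
    have h0 : (g.g0.den : ℤ) ≠ 0 := by exact_mod_cast g.g0.den_ne_zero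
    have h1 : (g.g1.den : ℤ) ≠ 0 := by exact_mod_cast g.g1.den_ne_zero
    have h2 : (g.g2.den : ℤ) ≠ 0 := by exact_mod_cast g.g2.den_ne_zero
    have h3 : (g.g3.den : ℤ) ≠ 0 := by exact_mod_cast g.g3.den_ne_zero
    have h4 : (g.g4.den : ℤ) ≠ 0 := by exact_mod_cast g.g4.den_ne_zero
    exact mul_ne_zero (mul_ne_zero (mul_ne_zero (mul_ne_zero h0 h1) h2) h3) h4
  have key : ∀ q : ℚ, (∃ M : ℤ, N = q.den * M) → ∃ k : ℤ, (k : ℚ) = (N : ℚ) ^ 2 * q := by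
    rintro q ⟨M, hM⟩
    refine ⟨N * (M * q.num), ?_⟩
    have h1 := Rat.mul_den_eq_num q
    have h2 : (N : ℚ) = q.den * M := by
      rw [hM]
      push_cast
      rfl
    push_cast
    rw [← h1]
    linear_combination (-(N : ℚ) * q) * h2
  obtain ⟨k0, e0⟩ := key g.g0 ⟨g.g1.den * g.g2.den * g.g3.den * g.g4.den, by rw [hN]; ring⟩
  obtain ⟨k1, e1⟩ := key g.g1 ⟨g.g0.den * g.g2.den * g.g3.den * g.g4.den, by rw [hN]; ring⟩
  obtain ⟨k2, e2⟩ := key g.g2 ⟨g.g0.den * g.g1.den * g.g3.den * g.g4.den, by rw [hN]; ring⟩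
  obtain ⟨k3, e3⟩ := key g.g3 ⟨g.g0.den * g.g1.den * g.g2.den * g.g4.den, by rw [hN]; ring⟩
  obtain ⟨k4, e4⟩ := key g.g4 ⟨g.g0.den * g.g1.den * g.g2.den * g.g3.den, by rw [hN]; ring⟩
  refine ⟨N, ⟨k0, k1, k2, k3, k4⟩, hN0, ?_, e0, ?_⟩
  · intro s t
    unfold b0
    push_cast
    rw [e0, e1, e2, e3, e4]
    ring
  · unfold D qD qI qJ
    push_cast
    rw [e0, e1, e2, e3, e4]
    ring

private theorem Pa_finite {g : BQ ℚ} {G : BQ ℤ} {N : ℤ} (hN : N ≠ 0)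
    (hb : ∀ s t : ℤ, (G.b0 s t : ℚ) = (N : ℚ) ^ 2 * g.b0 s t) {a : ℚ} (h : (g.Aa a).Finite) :
    (G.Pa a).Finite := by
  have hNq : (N : ℚ) ≠ 0 := by exact_mod_cast hN
  have hfib : ∀ z : ℚ, {p : ℤ × ℤ | IsCoprime p.1 p.2 ∧ p.2 ≠ 0 ∧ (p.1 : ℚ) = z * p.2}.Finite := by
    intro z
    by_cases hne : ∃ p : ℤ × ℤ, IsCoprime p.1 p.2 ∧ p.2 ≠ 0 ∧ (p.1 : ℚ) = z * p.2
    · obtain ⟨p, hp1, hp2, hp3⟩ := hne
      refine Set.Finite.subset (Set.toFinite {p, -p}) ?_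
      rintro q ⟨hq1, hq2, hq3⟩
      have h1 : p.1 * q.2 = p.2 * q.1 := by
        have h2 : (p.1 : ℚ) * q.2 = p.2 * q.1 := by rw [hp3, hq3]; ring
        exact_mod_cast h2
      rcases cop_pm hp1 hq1 h1 with h2 | h2
      · exact Or.inl h2
      · exact Or.inr h2
    · refine Set.Finite.subset Set.finite_empty ?_
      intro p hp
      exact hne ⟨p, hp⟩
  have hfib0 : {p : ℤ × ℤ | IsCoprime p.1 p.2 ∧ p.2 = 0}.Finite := by
    refine Set.Finite.subset (Set.toFinite {((1, 0) : ℤ × ℤ), -(1, 0)}) ?_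
    rintro q ⟨hq1, hq2⟩
    rcases cop_pm (p := ((1, 0) : ℤ × ℤ)) isCoprime_one_left hq1 (by
      show (1 : ℤ) * q.2 = 0 * q.1
      rw [hq2]
      ring) with h2 | h2
    · exact Or.inl h2
    · exact Or.inr h2
  refine (hfib0.union (h.biUnion fun z _ => hfib z)).subset ?_
  rintro p ⟨hp, r, hr, hpr⟩
  by_cases h0 : p.2 = 0
  · exact Or.inl ⟨hp, h0⟩
  · right
    have h0q : (p.2 : ℚ) ≠ 0 := by exact_mod_cast h0
    rw [Set.mem_iUnion₂]
    refine ⟨p.1 / p.2, ⟨r / (N * (p.2 : ℚ) ^ 2), div_ne_zero hr (mul_ne_zero hNq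
      (pow_ne_zero 2 h0q)), ?_⟩, hp, h0, ?_⟩
    · have h1 := g.b0_scale (p.1 : ℚ) (p.2 : ℚ) (p.2 : ℚ)⁻¹
      rw [inv_mul_cancel₀ h0q] at h1
      rw [div_eq_inv_mul, h1]
      rw [hb] at hpr
      rw [div_pow, ← mul_div_assoc, ← hpr]
      field_simp
    · rw [div_mul_cancel₀ _ h0q]

theorem classes (g : BQ ℚ) (h0 : g.g0 ≠ 0) : ∃ E : Finset ℚ, (∀ e ∈ E, e ≠ 0) ∧
    ∀ a : ℚ, a ≠ 0 → ∀ σ τ r : ℚ, r ≠ 0 → g.b0 σ τ = a * r ^ 2 →
      (∃ e ∈ E, ∃ r : ℚ, r ≠ 0 ∧ a = e * r ^ 2) ∨ (g.Aa a).Infinite := by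
  classical
  by_cases hD : g.D = 0
  · refine ⟨{g.g0}, fun e he => by rw [Finset.mem_singleton.1 he]; exact h0, ?_⟩
    intro a ha σ τ r hr h
    by_cases hτ : τ = 0
    · left
      refine ⟨g.g0, Finset.mem_singleton_self _, σ ^ 2 / r, ?_, ?_⟩
      · have h1 : g.b0 σ 0 = g.g0 * σ ^ 4 := by
          unfold b0
          ring
        rw [hτ, h1] at h
        have hσ : σ ≠ 0 := by
          rintro rfl
          have h2 : a * r ^ 2 ≠ 0 := mul_ne_zero ha (pow_ne_zero 2 hr)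
          exact h2 (by rw [← h]; ring)
        exact div_ne_zero (pow_ne_zero 2 hσ) hr
      · have h1 : g.b0 σ 0 = g.g0 * σ ^ 4 := by
          unfold b0
          ring
        rw [hτ, h1] at h
        rw [div_pow, ← mul_div_assoc, ← pow_mul, h, mul_div_cancel_right₀ _ (pow_ne_zero 2 hr)]
    · right
      refine g.degenerate h0 hD ha ⟨σ / τ, r / τ ^ 2, div_ne_zero hr (pow_ne_zero 2 hτ), ?_⟩
      have h1 := g.b0_scale σ τ τ⁻¹
      rw [inv_mul_cancel₀ hτ] at h1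
      rw [div_eq_inv_mul, h1, h]
      field_simp
  · obtain ⟨N, G, hN, hb, hG0, hGD⟩ := g.exists_int
    have hNq : (N : ℚ) ≠ 0 := by exact_mod_cast hN
    have hG0' : G.g0 ≠ 0 := by
      intro h1
      rw [h1] at hG0
      exact (mul_ne_zero (pow_ne_zero 2 hNq) h0) (by rw [← hG0]; norm_num)
    have hGD' : G.D ≠ 0 := by
      intro h1
      rw [h1] at hGD
      exact (mul_ne_zero (pow_ne_zero 6 (pow_ne_zero 2 hNq)) hD) (by rw [← hGD]; norm_num)
    obtain ⟨B, hB⟩ := G.height_bound hG0' hGD'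
    refine ⟨((Finset.Icc (-B) B ×ˢ Finset.Icc (-B) B).image
      fun p : ℤ × ℤ => (G.b0 p.1 p.2 : ℚ)).filter (· ≠ 0), fun e he => (Finset.mem_filter.1 he).2, ?_⟩
    intro a ha σ τ r hr h
    by_cases hinf : (g.Aa a).Infinite
    · exact Or.inr hinf
    left
    have hfin := Pa_finite hN hb (Set.not_infinite.1 hinf)
    have hne : ¬ (σ = 0 ∧ τ = 0) := by
      rintro ⟨rfl, rfl⟩
      have h2 : a * r ^ 2 ≠ 0 := mul_ne_zero ha (pow_ne_zero 2 hr)
      exact h2 (by rw [← h]; unfold b0; ring)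
    obtain ⟨p, c, hp, hc, hσ, hτ⟩ := exists_prim hne
    have hpv : (G.b0 p.1 p.2 : ℚ) = a * (N * r / c ^ 2) ^ 2 := by
      rw [hb]
      rw [hσ, hτ, g.b0_scale] at h
      have h3 : g.b0 (p.1 : ℚ) (p.2 : ℚ) = a * r ^ 2 / c ^ 4 := by
        rw [eq_div_iff (pow_ne_zero 4 hc), ← h]
        ring
      rw [h3]
      field_simp
    have hw : N * r / c ^ 2 ≠ 0 := div_ne_zero (mul_ne_zero hNq hr) (pow_ne_zero 2 hc)
    have hpa : p ∈ G.Pa a := ⟨hp, _, hw, hpv⟩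
    have hbd := hB a ha hfin p hpa
    have hb0 : (G.b0 p.1 p.2 : ℚ) ≠ 0 := by
      rw [hpv]
      exact mul_ne_zero ha (pow_ne_zero 2 hw)
    refine ⟨(G.b0 p.1 p.2 : ℚ), ?_, (N * r / c ^ 2)⁻¹, inv_ne_zero hw, ?_⟩
    · rw [Finset.mem_filter]
      refine ⟨Finset.mem_image.2 ⟨p, ?_, rfl⟩, hb0⟩
      have i1 : p.1 ^ 2 ≤ B := by nlinarith [sq_nonneg p.2]
      have i2 : p.2 ^ 2 ≤ B := by nlinarith [sq_nonneg p.1]
      have j1 : |p.1| ≤ B := by
        have h4 : |p.1| ≤ p.1 ^ 2 := by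
          rw [← sq_abs]
          rcases eq_or_ne p.1 0 with h5 | h5
          · rw [h5]; simp
          · have := Int.one_le_abs h5
            nlinarith
        exact h4.trans i1
      have j2 : |p.2| ≤ B := by
        have h4 : |p.2| ≤ p.2 ^ 2 := by
          rw [← sq_abs]
          rcases eq_or_ne p.2 0 with h5 | h5
          · rw [h5]; simp
          · have := Int.one_le_abs h5
            nlinarith
        exact h4.trans i2
      rw [Finset.mem_product, Finset.mem_Icc, Finset.mem_Icc]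
      exact ⟨abs_le.1 j1, abs_le.1 j2⟩
    · rw [hpv, inv_pow, mul_assoc, mul_inv_cancel₀ (pow_ne_zero 2 hw), mul_one]

end BQ

end Pool.Agent.QS
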