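import Pool.Agent.MZ.RatAlg
import Pool.Agent.MZ.RatD

/-!
# QTW: rational points on products of affine quadrics `∑ m k v k ^ 2 = m' q`
-/

set_option autoImplicit false

open Set Topology Filter

namespace Pool.Agent.QTW

open Pool.Agent.MZ

variable {s g : ℕ}

/-- the form of the block `q` -/
def qf (e : Fin s → Fin g) (m : Fin s → ℝ) (q : Fin g) (u v : Fin s → ℝ) : ℝ :=
  ∑ k, if e k = q then m k * u k * v k else 0

private theorem qf_lin (e : Fin s → Fin g) (m : Fin s → ℝ) (q : Fin g) (c d : ℝ)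
    (u v : Fin s → ℝ) (w : Fin s → ℝ) (hw : ∀ k, e k = q → w k = c * u k + d * v k) :
    qf e m q w w = c ^ 2 * qf e m q u u + 2 * c * d * qf e m q u v + d ^ 2 * qf e m q v v := by
  unfold qf
  rw [Finset.mul_sum, Finset.mul_sum, Finset.mul_sum, ← Finset.sum_add_distrib,
    ← Finset.sum_add_distrib]
  refine Finset.sum_congr rfl fun k _ => ?_
  split_ifs with h
  · rw [hw k h]; ring
  · ring

private theorem qf_lin2 (e : Fin s → Fin g) (m : Fin s → ℝ) (q : Fin g) (c d : ℝ)
    (p u v : Fin s → ℝ) (w : Fin s → ℝ) (hw : ∀ k, e k = q → w k = c * u k + d * v k) :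
    qf e m q p w = c * qf e m q p u + d * qf e m q p v := by
  unfold qf
  rw [Finset.mul_sum, Finset.mul_sum, ← Finset.sum_add_distrib]
  refine Finset.sum_congr rfl fun k _ => ?_
  split_ifs with h
  · rw [hw k h]; ring
  · ring

theorem qf_continuous (e : Fin s → Fin g) (m : Fin s → ℝ) (q : Fin g) (p : Fin s → ℝ) :
    Continuous (fun w => qf e m q p w) ∧ Continuous (fun w => qf e m q w w) := by
  constructor
  · refine continuous_finsetSum _ fun k _ => ?_
    split_ifs
    · exact continuous_const.mul (continuous_apply k)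
    · exact continuous_const
  · refine continuous_finsetSum _ fun k _ => ?_
    split_ifs
    · exact (continuous_const.mul (continuous_apply k)).mul (continuous_apply k)
    · exact continuous_const

theorem qf_isQ (e : Fin s → Fin g) {m : Fin s → ℚ} (q : Fin g) {u v : Fin s → ℝ}
    (hu : IsRat u) (hv : IsRat v) : IsQ (qf e (fun k => (m k : ℝ)) q u v) := by
  obtain ⟨u', rfl⟩ := hu
  obtain ⟨v', rfl⟩ := hv
  refine ⟨∑ k, if e k = q then m k * u' k * v' k else 0, ?_⟩
  unfold qf
  push_cast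
  refine Finset.sum_congr rfl fun k _ => ?_
  split_ifs
  · push_cast
    rfl
  · push_cast
    rfl

/-- one rational point: the rational points are dense -/
theorem dense_qf (e : Fin s → Fin g) (m : Fin s → ℚ) {m' : Fin g → ℝ} (hm : ∀ q, m' q ≠ 0)
    {p : Fin s → ℝ} (hpr : IsRat p) (hp : ∀ q, qf e (fun k => (m k : ℝ)) q p p = m' q)
    {v : Fin s → ℝ} (hv : ∀ q, qf e (fun k => (m k : ℝ)) q v v = m' q) :
    v ∈ closure {w : Fin s → ℝ | IsRat w ∧ ∀ q, qf e (fun k => (m k : ℝ)) q w w = m' q} := by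
  classical
  obtain ⟨M, hM⟩ : ∃ M : Fin s → ℝ, M = fun k => (m k : ℝ) := ⟨_, rfl⟩
  rw [← hM] at hp hv ⊢
  have hex : ∀ q, ∃ ε : ℝ, ε ^ 2 = 1 ∧ IsQ ε ∧
      qf e M q (fun k => p k - ε * v k) (fun k => p k - ε * v k) ≠ 0 := by
    intro q
    by_cases h : qf e M q (fun k => p k - 1 * v k) (fun k => p k - 1 * v k) = 0
    · refine ⟨-1, by norm_num, ⟨-1, by norm_num⟩, fun h2 => ?_⟩
      rw [qf_lin e M q 1 (-1) p v _ (fun k _ => by ring), hp, hv] at h
      rw [qf_lin e M q 1 1 p v _ (fun k _ => by ring), hp, hv] at h2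
      apply hm q
      linarith
    · exact ⟨1, by norm_num, ⟨1, by norm_num⟩, h⟩
  choose ε hε1 hεQ hε using hex
  obtain ⟨w0, hw0⟩ : ∃ w0 : Fin s → ℝ, w0 = fun k => p k - ε (e k) * v k := ⟨_, rfl⟩
  have hw0q : ∀ q, ∀ k, e k = q → w0 k = p k - ε q * v k := by
    intro q k hk
    rw [hw0, ← hk]
  have hQ0 : ∀ q, qf e M q w0 w0 ≠ 0 := by
    intro q
    rw [qf_lin e M q 1 (-ε q) p v w0 (fun k hk => by rw [hw0q q k hk]; ring)]
    have := hε q
    rw [qf_lin e M q 1 (-ε q) p v _ (fun k _ => by ring)] at this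
    exact this
  let R : (Fin s → ℝ) → (Fin s → ℝ) := fun w k =>
    ε (e k) * (p k - 2 * qf e M (e k) p w / qf e M (e k) w w * w k)
  have hR0 : R w0 = v := by
    funext k
    show ε (e k) * (p k - 2 * qf e M (e k) p w0 / qf e M (e k) w0 w0 * w0 k) = v k
    have h1 : qf e M (e k) w0 w0 = 2 * qf e M (e k) p w0 := by
      rw [qf_lin e M (e k) 1 (-ε (e k)) p v w0 (fun j hj => by rw [hw0q (e k) j hj]; ring),
        qf_lin2 e M (e k) 1 (-ε (e k)) p p v w0 (fun j hj => by rw [hw0q (e k) j hj]; ring),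
        hp, hv]
      have := hε1 (e k)
      linear_combination (m' (e k)) * this
    rw [← h1, div_self (hQ0 (e k)), hw0q (e k) k rfl]
    have := hε1 (e k)
    linear_combination (v k) * this
  have hRc : ContinuousAt R w0 := by
    refine continuousAt_pi.2 fun k => ?_
    refine ContinuousAt.mul continuousAt_const (ContinuousAt.sub continuousAt_const
      (ContinuousAt.mul (ContinuousAt.div ?_ ?_ (hQ0 (e k))) (continuous_apply k).continuousAt))
    · exact (continuous_const.mul (qf_continuous e M (e k) p).1).continuousAt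
    · exact (qf_continuous e M (e k) p).2.continuousAt
  have hopen : IsOpen {w : Fin s → ℝ | ∀ q, qf e M q w w ≠ 0} := by
    have : {w : Fin s → ℝ | ∀ q, qf e M q w w ≠ 0} = ⋂ q, {w | qf e M q w w ≠ 0} := by
      ext w; simp
    rw [this]
    exact isOpen_iInter_of_finite fun q =>
      isOpen_ne_fun (qf_continuous e M q p).2 continuous_const
  have h1 : w0 ∈ closure ({w : Fin s → ℝ | ∀ q, qf e M q w w ≠ 0} ∩ {w | IsRat w}) :=
    hopen.inter_closure ⟨hQ0, dense_isRat w0⟩
  have h2 := mem_closure_image hRc h1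
  rw [hR0] at h2
  refine closure_mono ?_ h2
  rintro _ ⟨w, ⟨hw1, hw2⟩, rfl⟩
  constructor
  · -- rationality
    have h3 : ∀ k, IsQ (R w k) := by
      intro k
      have a1 : IsQ (qf e M (e k) p w) := by rw [hM]; exact qf_isQ e (e k) hpr hw2
      have a2 : IsQ (qf e M (e k) w w) := by rw [hM]; exact qf_isQ e (e k) hw2 hw2
      obtain ⟨p', hp'⟩ := hpr
      obtain ⟨w', hw'⟩ := hw2
      have a3 : IsQ (p k) := ⟨p' k, by rw [hp']; rfl⟩
      have a4 : IsQ (w k) := ⟨w' k, by rw [hw']; rfl⟩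
      exact IsQ.mul (hεQ (e k)) (a3.sub ((((IsQ.natCast 2).mul a1).div a2).mul a4))
    choose c hc using h3
    exact ⟨c, funext hc⟩
  · intro q
    have hw1 : qf e M q w w ≠ 0 := hw1 q
    rw [qf_lin e M q (ε q) (-(ε q * (2 * qf e M q p w / qf e M q w w))) p w (R w)
      (fun k hk => by
        show ε (e k) * (p k - 2 * qf e M (e k) p w / qf e M (e k) w w * w k) = _
        rw [hk]; ring), hp]
    have h4 := hε1 q
    have h5 : ε q ^ 2 * m' q + 2 * ε q * (-(ε q * (2 * qf e M q p w / qf e M q w w))) *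
        qf e M q p w + (-(ε q * (2 * qf e M q p w / qf e M q w w))) ^ 2 * qf e M q w w =
        ε q ^ 2 * m' q := by
      field_simp
      ring
    rw [h5, h4, one_mul]

end Pool.Agent.QTW
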