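import Pool.Agent.QTW.Glu
import Pool.Agent.QTW.Qd

/-!
# QTW: rational points on quadric bundles over products of affine spaces

`X`: `∑_{k : e k = q} c k ∏_i f_i(x_i)^(al k i) u_k² = c' q ∏_i f_i(x_i)^(be q i)`, `f_i(x_i) ≠ 0`.
-/

set_option autoImplicit false

open Set Topology Filter MvPolynomial

namespace Pool.Agent.QTW

open Pool.Agent.MZ Pool.Agent.QS

variable {r s g : ℕ} {N : Fin r → ℕ}

/-- the data of a quadric bundle -/
structure Qb (r s g : ℕ) (N : Fin r → ℕ) where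
  f : ∀ i, MvPolynomial (Fin (N i)) ℚ
  deg : ∀ i, (f i).totalDegree ≤ 4
  e : Fin s → Fin g
  c : Fin s → ℚ
  c' : Fin g → ℚ
  ne : ∀ q, c' q ≠ 0
  al : Fin s → Fin r → ℕ
  be : Fin g → Fin r → ℕ

namespace Qb

variable (B : Qb r s g N)

/-- value of `f i` at the point with blocks `x` -/
noncomputable def F (x : (Σ i, Fin (N i)) → ℝ) (i : Fin r) : ℝ := aeval (blk x i) (B.f i)

/-- the equations -/
def Eq (x : (Σ i, Fin (N i)) → ℝ) (u : Fin s → ℝ) : Prop :=
  ∀ q, (∑ k, if B.e k = q then (B.c k : ℝ) * (∏ i, B.F x i ^ B.al k i) * u k ^ 2 else 0) =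
    (B.c' q : ℝ) * ∏ i, B.F x i ^ B.be q i

/-- the real points with all `f i` not zero -/
def XR : Set ((Σ i, Fin (N i)) ⊕ Fin s → ℝ) :=
  {z | (fun p => z (Sum.inl p)) ∈ Om B.f ∧ B.Eq (fun p => z (Sum.inl p)) fun k => z (Sum.inr k)}

/-- the rational points among them -/
def XQ : Set ((Σ i, Fin (N i)) ⊕ Fin s → ℝ) :=
  {z | z ∈ B.XR ∧ ∃ y : (Σ i, Fin (N i)) ⊕ Fin s → ℚ, z = fun p => (y p : ℝ)}

/-- classes for which the fibres have rational points -/
def Dg : Set (Fin r → ℚ) :=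
  {a | (∀ i, a i ≠ 0) ∧ ∃ p : Fin s → ℚ, ∀ q,
    (∑ k, if B.e k = q then B.c k * (∏ i, a i ^ B.al k i) * p k ^ 2 else 0) =
      B.c' q * ∏ i, a i ^ B.be q i}

theorem continuous_F (i : Fin r) : Continuous fun x => B.F x i :=
  (PolyR.of_aeval (B.f i)).continuous.comp (continuous_blk i)

theorem eq_closed : IsClosed {z : (Σ i, Fin (N i)) ⊕ Fin s → ℝ |
    B.Eq (fun p => z (Sum.inl p)) fun k => z (Sum.inr k)} := by
  have h : {z : (Σ i, Fin (N i)) ⊕ Fin s → ℝ |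
      B.Eq (fun p => z (Sum.inl p)) fun k => z (Sum.inr k)} = ⋂ q, {z |
      (∑ k, if B.e k = q then (B.c k : ℝ) * (∏ i, B.F (fun p => z (Sum.inl p)) i ^ B.al k i) *
        z (Sum.inr k) ^ 2 else 0) =
      (B.c' q : ℝ) * ∏ i, B.F (fun p => z (Sum.inl p)) i ^ B.be q i} := by
    ext z
    simp only [Eq, mem_ofPred_eq, mem_iInter]
  rw [h]
  have hF : ∀ i, Continuous fun z : (Σ i, Fin (N i)) ⊕ Fin s → ℝ =>
      B.F (fun p => z (Sum.inl p)) i := fun i =>
    (B.continuous_F i).comp (continuous_pi fun p => continuous_apply _)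
  refine isClosed_iInter fun q => isClosed_eq ?_ ?_
  · refine continuous_finsetSum _ fun k _ => ?_
    split_ifs
    · exact (continuous_const.mul (continuous_finsetProd _ fun i _ => (hF i).pow _)).mul
        ((continuous_apply _).pow 2)
    · exact continuous_const
  · exact continuous_const.mul (continuous_finsetProd _ fun i _ => (hF i).pow _)

/-- the base point of a rational point is in a good class -/
theorem XQ_base {z : (Σ i, Fin (N i)) ⊕ Fin s → ℝ} (hz : z ∈ B.XQ) :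
    (fun p => z (Sum.inl p)) ∈ ⋃ a ∈ B.Dg, TT B.f a := by
  obtain ⟨⟨h1, h2⟩, y, rfl⟩ := hz
  have hF : ∀ i, B.F (fun p => (y (Sum.inl p) : ℝ)) i =
      ((eval (fun j => y (Sum.inl ⟨i, j⟩)) (B.f i) : ℚ) : ℝ) := by
    intro i
    have : blk (fun p => (y (Sum.inl p) : ℝ)) i = rv fun j => y (Sum.inl ⟨i, j⟩) := rfl
    rw [F, this, aeval_rv]
  have h0 : ∀ i, eval (fun j => y (Sum.inl ⟨i, j⟩)) (B.f i) ≠ 0 := by
    intro i h
    apply h1 i
    show B.F (fun p => (y (Sum.inl p) : ℝ)) i = 0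
    rw [hF, h, Rat.cast_zero]
  refine mem_iUnion₂.2 ⟨fun i => eval (fun j => y (Sum.inl ⟨i, j⟩)) (B.f i), ⟨h0, ?_⟩, ?_⟩
  · refine ⟨fun k => y (Sum.inr k), fun q => ?_⟩
    have h3 := h2 q
    simp only [hF] at h3
    have h4 : (((∑ k, if B.e k = q then B.c k *
        (∏ i, eval (fun j => y (Sum.inl ⟨i, j⟩)) (B.f i) ^ B.al k i) * y (Sum.inr k) ^ 2
        else 0) : ℚ) : ℝ) = ((B.c' q *
        ∏ i, eval (fun j => y (Sum.inl ⟨i, j⟩)) (B.f i) ^ B.be q i : ℚ) : ℝ) := by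
      push_cast
      rw [← h3]
      refine Finset.sum_congr rfl fun k _ => ?_
      split_ifs
      · push_cast; rfl
      · push_cast; rfl
    exact_mod_cast h4
  · intro i
    exact ⟨1, fun j => y (Sum.inl ⟨i, j⟩), one_ne_zero, by ring, rfl⟩

/-- scaling factors -/
noncomputable def rho (a : Fin r → ℚ) (x : (Σ i, Fin (N i)) → ℝ) (i : Fin r) : ℝ :=
  Real.sqrt (B.F x i / a i)

noncomputable def mu (a : Fin r → ℚ) (x : (Σ i, Fin (N i)) → ℝ) (k : Fin s) : ℝ :=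
  (∏ i, B.rho a x i ^ B.be (B.e k) i) / ∏ i, B.rho a x i ^ B.al k i

variable {B}

/-- the equations after scaling -/
private theorem scale {a : Fin r → ℚ} {x : (Σ i, Fin (N i)) → ℝ}
    (h0 : ∀ i, B.rho a x i ≠ 0) (hF : ∀ i, B.F x i = a i * B.rho a x i ^ 2) (v : Fin s → ℝ) :
    B.Eq x (fun k => v k * B.mu a x k) ↔ ∀ q,
      qf B.e (fun k => ((B.c k * ∏ i, a i ^ B.al k i : ℚ) : ℝ)) q v v =
        ((B.c' q * ∏ i, a i ^ B.be q i : ℚ) : ℝ) := by
  refine forall_congr' fun q => ?_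
  have hne : ∀ (k : Fin s), ∏ i, B.rho a x i ^ B.al k i ≠ 0 := fun k =>
    Finset.prod_ne_zero_iff.2 fun i _ => pow_ne_zero _ (h0 i)
  have hne' : ∀ (q : Fin g), ∏ i, B.rho a x i ^ B.be q i ≠ 0 := fun k =>
    Finset.prod_ne_zero_iff.2 fun i _ => pow_ne_zero _ (h0 i)
  have hP : ∀ t : Fin r → ℕ, ∏ i, B.F x i ^ t i =
      ((∏ i, a i ^ t i : ℚ) : ℝ) * (∏ i, B.rho a x i ^ t i) ^ 2 := by
    intro t
    rw [← Finset.prod_pow]
    push_cast
    rw [← Finset.prod_mul_distrib]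
    refine Finset.prod_congr rfl fun i _ => ?_
    rw [hF i, mul_pow]
    ring
  have h1 : (∑ k, if B.e k = q then (B.c k : ℝ) * (∏ i, B.F x i ^ B.al k i) *
      (v k * B.mu a x k) ^ 2 else 0) =
      qf B.e (fun k => ((B.c k * ∏ i, a i ^ B.al k i : ℚ) : ℝ)) q v v *
        (∏ i, B.rho a x i ^ B.be q i) ^ 2 := by
    unfold qf
    rw [Finset.sum_mul]
    refine Finset.sum_congr rfl fun k _ => ?_
    split_ifs with hk
    · rw [hP, mu, hk]
      push_cast
      have := hne k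
      field_simp
    · rw [zero_mul]
  rw [h1, hP, ← mul_assoc, ← Rat.cast_mul]
  exact mul_left_inj' (pow_ne_zero 2 (hne' q))

private theorem rho_pos {a : Fin r → ℚ} (ha : ∀ i, a i ≠ 0) {x : (Σ i, Fin (N i)) → ℝ}
    (hx1 : x ∈ AT B.f a) (i : Fin r) : 0 < B.F x i / a i := by
  have h1 := (hx1 i).1
  have h2 := (hx1 i).2
  have ha' : (a i : ℝ) ≠ 0 := by exact_mod_cast ha i
  have hcl : IsClosed {y : Fin (N i) → ℝ | 0 ≤ (aeval y (B.f i) : ℝ) / a i} :=
    isClosed_le continuous_const ((PolyR.of_aeval (B.f i)).continuous.div_const _)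
  have h3 : 0 ≤ (aeval (blk x i) (B.f i) : ℝ) / a i := by
    refine closure_minimal (s := SQa (B.f i) (a i)) ?_ hcl h1
    rintro y ⟨t, q, ht, h, rfl⟩
    show 0 ≤ (aeval (rv q) (B.f i) : ℝ) / a i
    rw [aeval_rv, h]
    push_cast
    rw [mul_div_cancel_left₀ _ ha']
    positivity
  exact lt_of_le_of_ne h3 (Ne.symm (div_ne_zero h2 ha'))

private theorem rho_F {a : Fin r → ℚ} (ha : ∀ i, a i ≠ 0) {x : (Σ i, Fin (N i)) → ℝ}
    (hx1 : x ∈ AT B.f a) (i : Fin r) : B.F x i = a i * B.rho a x i ^ 2 := by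
  have ha' : (a i : ℝ) ≠ 0 := by exact_mod_cast ha i
  unfold rho
  rw [Real.sq_sqrt (rho_pos ha hx1 i).le]
  field_simp

private theorem rho_ne {a : Fin r → ℚ} (ha : ∀ i, a i ≠ 0) {x : (Σ i, Fin (N i)) → ℝ}
    (hx1 : x ∈ AT B.f a) (i : Fin r) : B.rho a x i ≠ 0 :=
  (Real.sqrt_pos.2 (rho_pos ha hx1 i)).ne'

/-- real points over `AT` of a good class are limits of rational points -/
theorem lift {a : Fin r → ℚ} (ha : a ∈ B.Dg) {x : (Σ i, Fin (N i)) → ℝ} (hx1 : x ∈ AT B.f a)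
    {u : Fin s → ℝ} (hu : B.Eq x u) : Sum.elim x u ∈ closure B.XQ := by
  obtain ⟨ha0, p, hp⟩ := ha
  have hr0 := rho_ne ha0 hx1
  have hmu : ∀ k, B.mu a x k ≠ 0 := fun k =>
    div_ne_zero (Finset.prod_ne_zero_iff.2 fun i _ => pow_ne_zero _ (hr0 i))
      (Finset.prod_ne_zero_iff.2 fun i _ => pow_ne_zero _ (hr0 i))
  obtain ⟨v, hv⟩ : ∃ v : Fin s → ℝ, v = fun k => u k / B.mu a x k := ⟨_, rfl⟩
  have huv : u = fun k => v k * B.mu a x k := by
    funext k
    rw [hv]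
    show u k = u k / B.mu a x k * B.mu a x k
    rw [div_mul_cancel₀ _ (hmu k)]
  have hvq := (scale hr0 (rho_F ha0 hx1) v).1 (by rw [← huv]; exact hu)
  have hm' : ∀ q, ((B.c' q * ∏ i, a i ^ B.be q i : ℚ) : ℝ) ≠ 0 := by
    intro q
    exact_mod_cast mul_ne_zero (B.ne q)
      (Finset.prod_ne_zero_iff.2 fun i _ => pow_ne_zero _ (ha0 i))
  have hpq : ∀ q, qf B.e (fun k => ((B.c k * ∏ i, a i ^ B.al k i : ℚ) : ℝ)) q (rv p) (rv p) =
      ((B.c' q * ∏ i, a i ^ B.be q i : ℚ) : ℝ) := by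
    intro q
    rw [← hp q]
    unfold qf
    push_cast
    refine Finset.sum_congr rfl fun k _ => ?_
    split_ifs
    · push_cast
      show _ * (p k : ℝ) * (p k : ℝ) = _
      ring
    · push_cast; rfl
  have hvc := dense_qf B.e (fun k => B.c k * ∏ i, a i ^ B.al k i) hm' ⟨p, rfl⟩ hpq hvq
  have hxc : x ∈ closure (TT B.f a) := AT_sub_closure B.f a hx1
  -- the scaling map
  let Φ : ((Σ i, Fin (N i)) → ℝ) × (Fin s → ℝ) → ((Σ i, Fin (N i)) ⊕ Fin s → ℝ) :=
    fun w => Sum.elim w.1 fun k => w.2 k * B.mu a w.1 k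
  have hrc : ∀ i, Continuous fun y : (Σ i, Fin (N i)) → ℝ => B.rho a y i := fun i =>
    Real.continuous_sqrt.comp ((B.continuous_F i).div_const _)
  have hmc : ∀ k, ContinuousAt (fun y : (Σ i, Fin (N i)) → ℝ => B.mu a y k) x := by
    intro k
    refine ContinuousAt.div ?_ ?_ (Finset.prod_ne_zero_iff.2 fun i _ => pow_ne_zero _ (hr0 i))
    · exact (continuous_finsetProd _ fun i _ => (hrc i).pow _).continuousAt
    · exact (continuous_finsetProd _ fun i _ => (hrc i).pow _).continuousAt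
  have hΦ : ContinuousAt Φ (x, v) := by
    refine continuousAt_pi.2 fun q => ?_
    rcases q with q | k
    · exact ((continuous_apply q).comp continuous_fst).continuousAt
    · exact ((continuous_apply k).comp continuous_snd).continuousAt.mul
        (ContinuousAt.comp (f := fun w : ((Σ i, Fin (N i)) → ℝ) × (Fin s → ℝ) => w.1)
          (g := fun y => B.mu a y k) (x := (x, v)) (hmc k) continuous_fst.continuousAt)
  have hcl : (x, v) ∈ closure (TT B.f a ×ˢ {w : Fin s → ℝ | IsRat w ∧ ∀ q,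
      qf B.e (fun k => ((B.c k * ∏ i, a i ^ B.al k i : ℚ) : ℝ)) q w w =
        ((B.c' q * ∏ i, a i ^ B.be q i : ℚ) : ℝ)}) := by
    rw [closure_prod_eq]
    exact ⟨hxc, hvc⟩
  have h2 := mem_closure_image hΦ hcl
  have h3 : Φ (x, v) = Sum.elim x u := by
    show Sum.elim x (fun k => v k * B.mu a x k) = Sum.elim x u
    rw [← huv]
  rw [h3] at h2
  refine closure_mono ?_ h2
  rintro _ ⟨⟨y, w⟩, ⟨hy, hw1, hw2⟩, rfl⟩
  have hy' : y ∈ AT B.f a := fun i => sqa_sub (B.f i) (ha0 i) (hy i)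
  have hyr := rho_ne ha0 hy'
  refine ⟨⟨AT_sub_Om B.f a hy', ?_⟩, ?_⟩
  · exact (scale hyr (rho_F ha0 hy') w).2 hw2
  · -- rationality
    have hyQ : ∀ p : (Σ i, Fin (N i)), IsQ (y p) := by
      rintro ⟨i, j⟩
      obtain ⟨t, q, -, -, h⟩ := hy i
      exact ⟨q j, congrFun h j⟩
    have hrQ : ∀ i, IsQ (B.rho a y i) := by
      intro i
      obtain ⟨t, q, ht, h, hb⟩ := hy i
      refine ⟨|t|, ?_⟩
      have ha' : (a i : ℝ) ≠ 0 := by exact_mod_cast ha0 i
      unfold rho F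
      rw [hb, aeval_rv, h]
      push_cast
      rw [mul_div_cancel_left₀ _ ha', Real.sqrt_sq_eq_abs]
    have hpQ : ∀ t : Fin r → ℕ, IsQ (∏ i, B.rho a y i ^ t i) := by
      intro t
      choose c hc using hrQ
      exact ⟨∏ i, c i ^ t i, by push_cast; simp only [hc]⟩
    have hwQ : ∀ k, IsQ (w k) := isRat_iff.1 hw1
    have hall : ∀ p, IsQ (Φ (y, w) p) := by
      rintro (p | k)
      · exact hyQ p
      · exact IsQ.mul (hwQ k) ((hpQ _).div (hpQ _))
    choose c hc using hall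
    exact ⟨c, funext hc⟩

variable (B)

/-- the closure of the rational points over the complement of the zeros of the `f i` -/
theorem closure_XQ : ∃ (ι : Type) (_ : Finite ι) (d : ι → (Fin r → ℚ)), (∀ j, d j ∈ B.Dg) ∧
    {z | z ∈ closure B.XQ ∧ (fun p => z (Sum.inl p)) ∈ Om B.f} =
      {z | B.Eq (fun p => z (Sum.inl p)) fun k => z (Sum.inr k)} ∩
        ⋃ j, {z | (fun p => z (Sum.inl p)) ∈ AT B.f (d j)} := by
  obtain ⟨ι, hι, d, hd, he⟩ := closure_union B.deg B.Dg (fun a ha => ha.1)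
  refine ⟨ι, hι, d, hd, Subset.antisymm ?_ ?_⟩
  · rintro z ⟨hz, hO⟩
    refine ⟨?_, ?_⟩
    · exact closure_minimal (fun w hw => hw.1.2) B.eq_closed hz
    · have hc : Continuous fun z : (Σ i, Fin (N i)) ⊕ Fin s → ℝ =>
          (fun p => z (Sum.inl p) : (Σ i, Fin (N i)) → ℝ) :=
        continuous_pi fun p => continuous_apply _
      have h1 : (fun p => z (Sum.inl p)) ∈ closure (⋃ a ∈ B.Dg, TT B.f a) :=
        map_mem_closure hc hz fun w hw => B.XQ_base hw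
      have h2 : (fun p => z (Sum.inl p)) ∈ {x | x ∈ closure (⋃ a ∈ B.Dg, TT B.f a) ∧
          x ∈ Om B.f} := ⟨h1, hO⟩
      rw [he] at h2
      obtain ⟨j, hj⟩ := mem_iUnion.1 h2
      exact mem_iUnion.2 ⟨j, hj⟩
  · rintro z ⟨hz, hA⟩
    obtain ⟨j, hj⟩ := mem_iUnion.1 hA
    refine ⟨?_, AT_sub_Om _ _ hj⟩
    have h1 := lift (hd j) hj hz
    have h2 : Sum.elim (fun p => z (Sum.inl p)) (fun k => z (Sum.inr k)) = z := by
      funext p
      rcases p with p | k <;> rfl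
    rwa [h2] at h1

/-- the equations are polynomial -/
theorem eq_bsa : SC {z : (Σ i, Fin (N i)) ⊕ Fin s → ℝ |
    B.Eq (fun p => z (Sum.inl p)) fun k => z (Sum.inr k)} := by
  let Fp : Fin r → MvPolynomial ((Σ i, Fin (N i)) ⊕ Fin s) ℝ := fun i =>
    map (algebraMap ℚ ℝ) (rename (fun j => Sum.inl ⟨i, j⟩) (B.f i))
  have hFp : ∀ i z, eval z (Fp i) = B.F (fun p => z (Sum.inl p)) i := by
    intro i z
    show eval z (map (algebraMap ℚ ℝ) (rename (fun j => Sum.inl ⟨i, j⟩) (B.f i))) = _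
    rw [eval_map, eval₂_rename]
    rfl
  let Eqp : Fin g → MvPolynomial ((Σ i, Fin (N i)) ⊕ Fin s) ℝ := fun q =>
    (∑ k, if B.e k = q then C (B.c k : ℝ) * (∏ i, Fp i ^ B.al k i) * (X (Sum.inr k)) ^ 2 else 0) -
      C (B.c' q : ℝ) * ∏ i, Fp i ^ B.be q i
  have hE : {z : (Σ i, Fin (N i)) ⊕ Fin s → ℝ |
      B.Eq (fun p => z (Sum.inl p)) fun k => z (Sum.inr k)} =
      ⋂ q, {z | eval z (Eqp q) = 0} := by
    ext z
    simp only [mem_ofPred_eq, mem_iInter]
    refine forall_congr' fun q => ?_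
    show _ ↔ eval z ((∑ k, if B.e k = q then C (B.c k : ℝ) * (∏ i, Fp i ^ B.al k i) *
      (X (Sum.inr k)) ^ 2 else 0) - C (B.c' q : ℝ) * ∏ i, Fp i ^ B.be q i) = 0
    rw [map_sub, sub_eq_zero, map_mul, map_prod, map_sum, eval_C]
    simp only [map_pow, hFp]
    have h1 : ∀ k, eval z (if B.e k = q then C (B.c k : ℝ) * (∏ i, Fp i ^ B.al k i) *
        (X (Sum.inr k)) ^ 2 else 0) = if B.e k = q then (B.c k : ℝ) *
        (∏ i, B.F (fun p => z (Sum.inl p)) i ^ B.al k i) * z (Sum.inr k) ^ 2 else 0 := by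
      intro k
      split_ifs
      · rw [map_mul, map_mul, map_prod, map_pow, eval_C, eval_X]
        simp only [map_pow, hFp]
      · rw [map_zero]
    simp only [h1]
  rw [hE]
  exact SC.iInter fun q => (Bsa.zero (Eqp q)).sc.toSC

/-- MAIN THEOREM of QTW -/
theorem fc_main {m : ℕ} (G : Fin m → MvPolynomial ((Σ i, Fin (N i)) ⊕ Fin s) ℝ) :
    FC {z | z ∈ closure B.XQ ∧ ∃ l, eval z (G l) ≠ 0} := by
  obtain ⟨ι, hι, d, hd, he⟩ := B.closure_XQ
  have h1 : SC {z | z ∈ closure B.XQ ∧ (fun p => z (Sum.inl p)) ∈ Om B.f} := by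
    rw [he]
    refine B.eq_bsa.inter (SC.iUnion fun j => ?_)
    have := (AT_SC B.deg (hd j).1).preimage
      (fun p : (Σ i, Fin (N i)) => (X (Sum.inl p) : MvPolynomial ((Σ i, Fin (N i)) ⊕ Fin s) ℝ))
    simpa only [eval_X] using this
  have h2 : SC {z : (Σ i, Fin (N i)) ⊕ Fin s → ℝ | ∃ l, eval z (G l) ≠ 0} := by
    have e : {z : (Σ i, Fin (N i)) ⊕ Fin s → ℝ | ∃ l, eval z (G l) ≠ 0} =
        ⋃ l, ({z | 0 < eval z (G l)} ∪ {z | 0 < eval z (-G l)}) := by
      ext z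
      simp only [mem_ofPred_eq, mem_iUnion, mem_union, map_neg]
      refine exists_congr fun l => ?_
      constructor
      · intro h
        rcases lt_or_gt_of_ne h with h | h
        · right; linarith
        · exact Or.inl h
      · rintro (h | h)
        · exact h.ne'
        · intro h0
          rw [h0] at h
          simp at h
    rw [e]
    exact SC.iUnion fun l => (Bsa.pos _).sc.toSC.union (Bsa.pos _).sc.toSC
  have h3 := (h1.inter h2).fc
  refine h3.sandwich ?_ ?_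
  · rintro z ⟨⟨hz, -⟩, hl⟩
    exact ⟨hz, hl⟩
  · rintro z ⟨hz, hl⟩
    have ho : IsOpen {z : (Σ i, Fin (N i)) ⊕ Fin s → ℝ | ∃ l, eval z (G l) ≠ 0} := by
      have e : {z : (Σ i, Fin (N i)) ⊕ Fin s → ℝ | ∃ l, eval z (G l) ≠ 0} =
          ⋃ l, {z | eval z (G l) ≠ 0} := by
        ext z; simp
      rw [e]
      exact isOpen_iUnion fun l => isOpen_ne_fun (MvPolynomial.continuous_eval _) continuous_const
    have h4 := ho.inter_closure ⟨hl, hz⟩
    refine closure_mono ?_ h4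
    rintro w ⟨hw1, hw2⟩
    exact ⟨⟨subset_closure hw2, hw2.1.1⟩, hw1⟩

end Qb

end Pool.Agent.QTW
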