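import Pool.Agent.QTW.Uni
import Pool.Agent.QTW.Sa3
import Pool.Agent.QS.Fin

/-!
# QTW: rational points at which `f` (degree at most 4) lies in a given square class

`SQa f a` is the set of the rational points `x` with `f x = a r²`, `r ≠ 0`; `Aa f a` its closure minus
the zeros of `f`.
-/

set_option autoImplicit false

open Set Topology Filter MvPolynomial

namespace Pool.Agent.QTW

open Pool.Agent.MZ Pool.Agent.QS Pool.Agent.QS.Qrt

variable {n : ℕ}

/-- rational points at which `f` is in the class `a` -/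
def SQa (f : MvPolynomial (Fin n) ℚ) (a : ℚ) : Set (Fin n → ℝ) :=
  {x | ∃ (r : ℚ) (q : Fin n → ℚ), r ≠ 0 ∧ eval q f = a * r ^ 2 ∧ x = rv q}

/-- closure minus the zeros of `f` -/
def Aa (f : MvPolynomial (Fin n) ℚ) (a : ℚ) : Set (Fin n → ℝ) :=
  {x | x ∈ closure (SQa f a) ∧ (aeval x f : ℝ) ≠ 0}

private theorem sqa_eq (f : MvPolynomial (Fin n) ℚ) {a : ℚ} (ha : a ≠ 0) :
    SQa f a = SQ (C a⁻¹ * f) := by
  ext x
  constructor
  · rintro ⟨r, q, hr, h, rfl⟩
    refine ⟨r, q, hr, ?_, rfl⟩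
    rw [map_mul, eval_C, h]
    field_simp
  · rintro ⟨r, q, hr, h, rfl⟩
    refine ⟨r, q, hr, ?_, rfl⟩
    rw [map_mul, eval_C] at h
    rw [h]
    field_simp

private theorem aeval_tw (f : MvPolynomial (Fin n) ℚ) (a : ℚ) (x : Fin n → ℝ) :
    (aeval x (C a⁻¹ * f) : ℝ) = (a : ℝ)⁻¹ * aeval x f := by
  rw [map_mul, aeval_C]
  simp

private theorem tw_C {f : MvPolynomial (Fin n) ℚ} {K : Qrt (n + 1)}
    (hK : ∀ x : Fin n → ℝ, (aeval x f : ℝ) = K.F (hx 1 x)) (a : ℚ) :
    ∀ x : Fin n → ℝ, (aeval x (C a⁻¹ * f) : ℝ) = (K.tw a).F (hx 1 x) := by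
  intro x
  rw [aeval_tw, tw_F, hK]

/-- a linear subspace is the zero set of one polynomial -/
private theorem sub_pol {m : ℕ} (W : Submodule ℝ (Fin m → ℝ)) :
    ∃ P : MvPolynomial (Fin m) ℝ, ∀ z, eval z P = 0 ↔ z ∈ W := by
  let b := Module.finBasis ℝ ((Fin m → ℝ) ⧸ W)
  have h : PolyR m fun z => ∑ j, (b.coord j).comp W.mkQ z * (b.coord j).comp W.mkQ z :=
    PolyR.sum _ fun j _ => (PolyR.lin _).mul (PolyR.lin _)
  obtain ⟨P, hP⟩ := h
  refine ⟨P, fun z => ?_⟩
  rw [hP, Finset.sum_eq_zero_iff_of_nonneg (fun j _ => mul_self_nonneg _)]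
  simp only [Finset.mem_univ, forall_const, mul_self_eq_zero]
  have h2 : z ∈ W ↔ W.mkQ z = 0 := by
    rw [Submodule.mkQ_apply, Submodule.Quotient.mk_eq_zero]
  rw [h2]
  constructor
  · intro h3
    refine b.ext_elem fun j => ?_
    have := h3 j
    simpa using this
  · intro h3 j
    show b.coord j (W.mkQ z) = 0
    rw [h3, map_zero]

private theorem ev_map (f : MvPolynomial (Fin n) ℚ) (x : Fin n → ℝ) :
    eval x (map (algebraMap ℚ ℝ) f) = aeval x f := by
  rw [eval_map]; rfl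

private theorem sc_ne (f : MvPolynomial (Fin n) ℚ) : SC {x : Fin n → ℝ | (aeval x f : ℝ) ≠ 0} := by
  have h1 := (Bsa.pos (map (algebraMap ℚ ℝ) f)).sc.toSC
  have h2 := (Bsa.pos (-(map (algebraMap ℚ ℝ) f))).sc.toSC
  convert h1.union h2 using 1
  ext x
  simp only [mem_union, mem_ofPred_eq, map_neg, ev_map]
  constructor
  · intro h
    rcases lt_or_gt_of_ne h with h | h
    · right; linarith
    · exact Or.inl h
  · rintro (h | h)
    · exact h.ne'
    · intro h0
      rw [h0] at h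
      simp at h

theorem Aa_opn {f : MvPolynomial (Fin n) ℚ} {K : Qrt (n + 1)}
    (hK : ∀ x : Fin n → ℝ, (aeval x f : ℝ) = K.F (hx 1 x)) {a : ℚ} (ha : a ≠ 0)
    (h : (K.tw a).Opn) : ∀ x ∈ Aa f a, closure (SQa f a) ∈ 𝓝 x := by
  intro x hx1
  have h1 := opn_affine (tw_C hK a) h x (by rw [← sqa_eq f ha]; exact hx1.1) (by
    have h2 := F_nonneg ((mem_closure_SQ (tw_C hK a)).1 (by
      rw [← sqa_eq f ha]; exact hx1.1))
    rw [← tw_C hK a] at h2
    refine lt_of_le_of_ne h2 (Ne.symm ?_)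
    rw [aeval_tw]
    exact mul_ne_zero (inv_ne_zero (by exact_mod_cast ha)) hx1.2)
  rwa [← sqa_eq f ha] at h1

/-- the sets `Aa f a` are finite unions of relatively clopen subsets of basic semialgebraic sets -/
theorem Aa_SC {f : MvPolynomial (Fin n) ℚ} (hf : f.totalDegree ≤ 4) {a : ℚ} (ha : a ≠ 0) :
    SC (Aa f a) := by
  obtain ⟨K, hK⟩ := exists_qrt hf
  have ha' : (a : ℝ) ≠ 0 := by exact_mod_cast ha
  rcases (K.tw a).dich with h | h
  · obtain ⟨k, Y, hY, hS⟩ := h
    have e : Aa f a = (⋃ i, {x : Fin n → ℝ | hx 1 x ∈ Submodule.span ℝ (Y i)}) ∩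
        {x : Fin n → ℝ | (aeval x f : ℝ) ≠ 0} := by
      ext x
      simp only [Aa, mem_inter_iff, mem_ofPred_eq, mem_iUnion]
      refine and_congr_left fun h0 => ?_
      rw [sqa_eq f ha, mem_closure_SQ (tw_C hK a)]
      exact Z_of_pieces hY hS (by
        rw [tw_F, ← hK]
        exact mul_ne_zero (inv_ne_zero ha') h0)
    rw [e]
    refine SC.inter (SC.iUnion fun i => ?_) (sc_ne f)
    obtain ⟨P, hP⟩ := sub_pol (Submodule.span ℝ (Y i))
    have h1 := ((Bsa.zero P).preimage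
      (Fin.cons 1 X : Fin (n + 1) → MvPolynomial (Fin n) ℝ)).sc.toSC
    convert h1 using 1
    ext x
    simp only [mem_ofPred_eq]
    have h2 : (fun i => eval x ((Fin.cons 1 X : Fin (n + 1) → MvPolynomial (Fin n) ℝ) i)) =
        hx 1 x := by
      funext j
      refine Fin.cases ?_ (fun j => ?_) j
      · simp [hx]
      · simp [hx]
    rw [h2, hP]
  · -- the open case
    have hcl : IsClosed (closure (SQa f a)) := isClosed_closure
    refine Sc.toSC ⟨{x | 0 < eval x (map (algebraMap ℚ ℝ) (C a⁻¹ * f))}, Bsa.pos _, ?_, ?_, ?_⟩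
    · intro x hx1
      show 0 < eval x (map (algebraMap ℚ ℝ) (C a⁻¹ * f))
      rw [ev_map]
      have h2 := F_nonneg ((mem_closure_SQ (tw_C hK a)).1 (by
        rw [← sqa_eq f ha]; exact hx1.1))
      rw [← tw_C hK a] at h2
      refine lt_of_le_of_ne h2 (Ne.symm ?_)
      rw [aeval_tw]
      exact mul_ne_zero (inv_ne_zero ha') hx1.2
    · intro x hx1
      filter_upwards [Aa_opn hK ha h x hx1] with y hy hy2
      refine ⟨hy, ?_⟩
      have hy3 : 0 < eval y (map (algebraMap ℚ ℝ) (C a⁻¹ * f)) := hy2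
      rw [ev_map, aeval_tw] at hy3
      intro h0
      rw [h0, mul_zero] at hy3
      exact lt_irrefl _ hy3
    · intro x hx1 hx2
      refine ⟨hcl.closure_subset (closure_mono (fun y hy => hy.1) hx2), ?_⟩
      have hx3 : 0 < eval x (map (algebraMap ℚ ℝ) (C a⁻¹ * f)) := hx1
      rw [ev_map, aeval_tw] at hx3
      intro h0
      rw [h0, mul_zero] at hx3
      exact lt_irrefl _ hx3

/-- an `FC` set has only finitely many relatively clopen subsets -/
private theorem clopen_fin {X : Type*} [TopologicalSpace X] {S : Set X} (h : FC S) :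
    {A : Set X | A ⊆ S ∧ (∀ x ∈ A, ∀ᶠ y in 𝓝 x, y ∈ S → y ∈ A) ∧
      ∀ x ∈ S, x ∈ closure A → x ∈ A}.Finite := by
  classical
  obtain ⟨k, D, hD, rfl⟩ := h
  refine (Set.finite_range (fun s : Finset (Fin k) => ⋃ i ∈ s, D i)).subset ?_
  rintro A ⟨hA, ho, hc⟩
  refine ⟨Finset.univ.filter fun i => D i ⊆ A, ?_⟩
  ext x
  simp only [Finset.mem_filter, Finset.mem_univ, true_and, mem_iUnion, exists_prop]
  constructor
  · rintro ⟨i, hi, hx1⟩
    exact hi hx1
  · intro hx1
    obtain ⟨i, hi⟩ := mem_iUnion.1 (hA hx1)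
    refine ⟨i, ?_, hi⟩
    have hDS : D i ⊆ ⋃ i, D i := subset_iUnion D i
    -- `A ∩ D i` is clopen in the preconnected `D i`
    have hps : PreconnectedSpace (D i) := Subtype.preconnectedSpace (hD i)
    have hcl : IsClopen ((fun y : D i => (y : X)) ⁻¹' A) := by
      constructor
      · rw [← closure_subset_iff_isClosed]
        intro y hy
        exact hc y (hDS y.2) (map_mem_closure continuous_subtype_val hy fun z hz => hz)
      · rw [isOpen_iff_mem_nhds]
        intro y hy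
        have h1 := continuous_subtype_val.continuousAt.eventually (ho y hy)
        filter_upwards [h1] with z hz
        exact hz (hDS z.2)
    have h2 := isClopen_iff.1 hcl
    rcases h2 with h2 | h2
    · exfalso
      have h3 : (⟨x, hi⟩ : D i) ∈ (fun y : D i => (y : X)) ⁻¹' A := hx1
      rw [h2] at h3
      exact h3
    · intro y hy
      have h3 : (⟨y, hy⟩ : D i) ∈ (fun y : D i => (y : X)) ⁻¹' A := by
        rw [h2]; trivial
      exact h3

private theorem sqa_sq (f : MvPolynomial (Fin n) ℚ) {e r : ℚ} (hr : r ≠ 0) :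
    SQa f (e * r ^ 2) = SQa f e := by
  ext x
  constructor
  · rintro ⟨s, q, hs, h, rfl⟩
    exact ⟨r * s, q, mul_ne_zero hr hs, by rw [h]; ring, rfl⟩
  · rintro ⟨s, q, hs, h, rfl⟩
    refine ⟨s / r, q, div_ne_zero hs hr, ?_, rfl⟩
    rw [h]
    field_simp

/-- there are only finitely many sets `Aa f a` -/
theorem Aa_finite {f : MvPolynomial (Fin n) ℚ} (hf : f.totalDegree ≤ 4) :
    {E : Set (Fin n → ℝ) | ∃ a : ℚ, a ≠ 0 ∧ E = Aa f a}.Finite := by
  classical
  obtain ⟨K, hK⟩ := exists_qrt hf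
  obtain ⟨E, hE0, hE⟩ := K.uni
  have hO := clopen_fin (sc_ne f).fc
  refine ((E.finite_toSet.image (fun e => Aa f e)).union ((Set.finite_singleton ∅).union
    hO)).subset ?_
  rintro _ ⟨a, ha, rfl⟩
  rcases hE a ha with ⟨e, he, r, hr, rfl⟩ | h | h
  · left
    refine ⟨e, he, ?_⟩
    show Aa f e = Aa f (e * r ^ 2)
    unfold Aa
    rw [sqa_sq f hr]
  · right; left
    show Aa f a = ∅
    rw [eq_empty_iff_forall_notMem]
    rintro x ⟨hx1, -⟩
    rw [sqa_eq f ha, mem_closure_SQ (tw_C hK a)] at hx1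
    have hZ : (K.tw a).Z = ∅ := by
      unfold Qrt.Z
      rw [h, closure_empty]
    rw [hZ] at hx1
    exact hx1
  · right; right
    refine ⟨fun x hx1 => hx1.2, fun x hx1 => ?_, fun x hx1 hx2 => ?_⟩
    · filter_upwards [Aa_opn hK ha h x hx1] with y hy hy2
      exact ⟨hy, hy2⟩
    · exact ⟨isClosed_closure.closure_subset (closure_mono (fun y hy => hy.1) hx2), hx1⟩

end Pool.Agent.QTW
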