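import Mathlib

/-!
# Project QTW: algebra of binary quartic forms

`a0 α⁴ + 4 a1 α³ β + 6 a2 α² β² + 4 a3 α β³ + a4 β⁴`, the seminvariants `qj` and `qL` at `(1, 0)`, the invariants `qI`, `qJ` and the
discriminant `qD = I³ - 27 J²`. The fourth intersection point with the osculating parabola at `(1, 0)` is `(qL, 4 a0 qj)`.
`bezout`: `4 D (4 D²)^7` is a combination of `L` and `4 a0 j`.
PROOF. `j² + 4 h³ = a0² (I h - a0 J)`, `h = a0 a2 - a1²`, `M = L + 4 a1 j = 12 h² - a0² I`, so `h M + 3 j² = a0² (2 I h - 3 a0 J)` and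
`a0⁶ D = - a0⁴ I² M + 3 (h M + 3 j²) (6 a0³ J + h M + 3 j²)`; `D = a1² D' + a0 D''`, `4 a1⁴ = L - a0 (..)`, so `4 D² = a0 α + L D'²`.
-/

set_option autoImplicit false

namespace Pool.Agent.QS

section ring

variable {R : Type*} [CommRing R]

/-- the leading coefficient of the sextic covariant -/
def qj (a0 a1 a2 a3 : R) : R := a0 ^ 2 * a3 - 3 * a0 * a1 * a2 + 2 * a1 ^ 3

/-- the invariant `I` -/
def qI (a0 a1 a2 a3 a4 : R) : R := a0 * a4 - 4 * a1 * a3 + 3 * a2 ^ 2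

/-- the invariant `J` -/
def qJ (a0 a1 a2 a3 a4 : R) : R :=
  a0 * a2 * a4 + 2 * a1 * a2 * a3 - a2 ^ 3 - a0 * a3 ^ 2 - a1 ^ 2 * a4

/-- the discriminant -/
def qD (a0 a1 a2 a3 a4 : R) : R := qI a0 a1 a2 a3 a4 ^ 3 - 27 * qJ a0 a1 a2 a3 a4 ^ 2

/-- first coordinate of the fourth point -/
def qL (a0 a1 a2 a4 : R) : R := (3 * a0 * a2 - 2 * a1 ^ 2) ^ 2 - a0 ^ 3 * a4

/-- `D'` -/
def qDa (a1 a2 a3 a4 : R) : R :=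
  -27 * a1 ^ 2 * a4 ^ 2 + 108 * a1 * a2 * a3 * a4 - 64 * a1 * a3 ^ 3 - 54 * a2 ^ 3 * a4 +
    36 * a2 ^ 2 * a3 ^ 2

/-- `D''` -/
def qDb (a0 a1 a2 a3 a4 : R) : R :=
  a0 ^ 2 * a4 ^ 3 - 12 * a0 * a1 * a3 * a4 ^ 2 - 18 * a0 * a2 ^ 2 * a4 ^ 2 +
    54 * a0 * a2 * a3 ^ 2 * a4 - 27 * a0 * a3 ^ 4 + 54 * a1 ^ 2 * a2 * a4 ^ 2 -
    6 * a1 ^ 2 * a3 ^ 2 * a4 - 180 * a1 * a2 ^ 2 * a3 * a4 + 108 * a1 * a2 * a3 ^ 3 +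
    81 * a2 ^ 4 * a4 - 54 * a2 ^ 3 * a3 ^ 2

theorem qD_split (a0 a1 a2 a3 a4 : R) :
    qD a0 a1 a2 a3 a4 = a1 ^ 2 * qDa a1 a2 a3 a4 + a0 * qDb a0 a1 a2 a3 a4 := by
  unfold qD qI qJ qDa qDb
  ring

theorem qD_one (a0 a1 a2 a3 a4 : R) : ∃ u v : R,
    a0 ^ 6 * qD a0 a1 a2 a3 a4 = u * qL a0 a1 a2 a4 + v * qj a0 a1 a2 a3 := by
  have h1 : qj a0 a1 a2 a3 ^ 2 + 4 * (a0 * a2 - a1 ^ 2) ^ 3 =
      a0 ^ 2 * (qI a0 a1 a2 a3 a4 * (a0 * a2 - a1 ^ 2) - a0 * qJ a0 a1 a2 a3 a4) := by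
    unfold qj qI qJ
    ring
  have h2 : qL a0 a1 a2 a4 + 4 * a1 * qj a0 a1 a2 a3 =
      12 * (a0 * a2 - a1 ^ 2) ^ 2 - a0 ^ 2 * qI a0 a1 a2 a3 a4 := by
    unfold qL qj qI
    ring
  unfold qD
  generalize qI a0 a1 a2 a3 a4 = I at *
  generalize qJ a0 a1 a2 a3 a4 = J at *
  generalize qj a0 a1 a2 a3 = j at *
  generalize qL a0 a1 a2 a4 = L at *
  generalize a0 * a2 - a1 ^ 2 = h at *
  have hL : L = 12 * h ^ 2 - a0 ^ 2 * I - 4 * a1 * j := by linear_combination h2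
  have h3 : a0 ^ 6 * (I ^ 3 - 27 * J ^ 2) =
      (-a0 ^ 4 * I ^ 2 + 3 * h * (6 * a0 ^ 3 * J + h * (L + 4 * a1 * j) + 3 * j ^ 2)) *
        (L + 4 * a1 * j) +
      9 * j * (6 * a0 ^ 3 * J + h * (L + 4 * a1 * j) + 3 * j ^ 2) * j := by
    have h4 : h * (L + 4 * a1 * j) + 3 * j ^ 2 = a0 ^ 2 * (2 * I * h - 3 * a0 * J) := by
      linear_combination h * h2 + 3 * h1
    have h5 : 12 * h ^ 2 = (L + 4 * a1 * j) + a0 ^ 2 * I := by linear_combination -h2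
    have h6 : 3 * (h * (L + 4 * a1 * j) + 3 * j ^ 2) *
        (6 * a0 ^ 3 * J + (h * (L + 4 * a1 * j) + 3 * j ^ 2)) =
        3 * (a0 ^ 2 * (2 * I * h - 3 * a0 * J)) * (6 * a0 ^ 3 * J +
          a0 ^ 2 * (2 * I * h - 3 * a0 * J)) := by rw [h4]
    have h7 : 3 * (a0 ^ 2 * (2 * I * h - 3 * a0 * J)) * (6 * a0 ^ 3 * J +
          a0 ^ 2 * (2 * I * h - 3 * a0 * J)) = a0 ^ 4 * (12 * h ^ 2) * I ^ 2 - 27 * a0 ^ 6 * J ^ 2 := by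
      ring
    rw [h7, h5] at h6
    linear_combination -h6
  refine ⟨-a0 ^ 4 * I ^ 2 + 3 * h * (6 * a0 ^ 3 * J + h * (L + 4 * a1 * j) + 3 * j ^ 2),
    4 * a1 * (-a0 ^ 4 * I ^ 2 + 3 * h * (6 * a0 ^ 3 * J + h * (L + 4 * a1 * j) + 3 * j ^ 2)) +
      9 * j * (6 * a0 ^ 3 * J + h * (L + 4 * a1 * j) + 3 * j ^ 2), ?_⟩
  rw [h3]
  ring

theorem qD_two (a0 a1 a2 a3 a4 : R) : ∃ α : R,
    4 * qD a0 a1 a2 a3 a4 ^ 2 = a0 * α + qL a0 a1 a2 a4 * qDa a1 a2 a3 a4 ^ 2 := by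
  have h1 := qD_split a0 a1 a2 a3 a4
  have h2 : qL a0 a1 a2 a4 = 4 * a1 ^ 4 +
      a0 * (9 * a0 * a2 ^ 2 - 12 * a1 ^ 2 * a2 - a0 ^ 2 * a4) := by
    unfold qL
    ring
  refine ⟨-(9 * a0 * a2 ^ 2 - 12 * a1 ^ 2 * a2 - a0 ^ 2 * a4) * qDa a1 a2 a3 a4 ^ 2 +
    8 * a1 ^ 2 * qDa a1 a2 a3 a4 * qDb a0 a1 a2 a3 a4 + 4 * a0 * qDb a0 a1 a2 a3 a4 ^ 2, ?_⟩
  rw [h1, h2]
  ring

/-- the resultant identity -/
theorem bezout (a0 a1 a2 a3 a4 : R) : ∃ A B : R,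
    4 * qD a0 a1 a2 a3 a4 * (4 * qD a0 a1 a2 a3 a4 ^ 2) ^ 7 =
      A * qL a0 a1 a2 a4 + B * (4 * a0 * qj a0 a1 a2 a3) := by
  obtain ⟨u, v, h1⟩ := qD_one a0 a1 a2 a3 a4
  obtain ⟨α, h2⟩ := qD_two a0 a1 a2 a3 a4
  obtain ⟨c, hc⟩ := sub_dvd_pow_sub_pow (4 * qD a0 a1 a2 a3 a4 ^ 2) (a0 * α) 7
  have h3 : (4 * qD a0 a1 a2 a3 a4 ^ 2) ^ 7 =
      (a0 * α) ^ 7 + qL a0 a1 a2 a4 * qDa a1 a2 a3 a4 ^ 2 * c := by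
    have h4 : 4 * qD a0 a1 a2 a3 a4 ^ 2 - a0 * α = qL a0 a1 a2 a4 * qDa a1 a2 a3 a4 ^ 2 := by
      rw [h2]
      ring
    rw [h4] at hc
    linear_combination hc
  refine ⟨4 * qD a0 a1 a2 a3 a4 * qDa a1 a2 a3 a4 ^ 2 * c + 4 * a0 * u * α ^ 7, v * α ^ 7, ?_⟩
  rw [h3]
  linear_combination 4 * a0 * α ^ 7 * h1

end ring

/-- real forms: no common zero if `D ≠ 0` -/
theorem qL_or_qj {a0 a1 a2 a3 a4 : ℝ} (hD : qD a0 a1 a2 a3 a4 ≠ 0) :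
    0 < qL a0 a1 a2 a4 ^ 2 + (4 * a0 * qj a0 a1 a2 a3) ^ 2 := by
  by_contra hcon
  push Not at hcon
  have h1 : qL a0 a1 a2 a4 = 0 := by
    have := sq_nonneg (4 * a0 * qj a0 a1 a2 a3)
    have h2 := sq_nonneg (qL a0 a1 a2 a4)
    exact pow_eq_zero_iff two_ne_zero |>.1 (by linarith)
  have h2 : 4 * a0 * qj a0 a1 a2 a3 = 0 := by
    have := sq_nonneg (4 * a0 * qj a0 a1 a2 a3)
    have h2 := sq_nonneg (qL a0 a1 a2 a4)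
    exact pow_eq_zero_iff two_ne_zero |>.1 (by linarith)
  obtain ⟨A, B, h⟩ := bezout a0 a1 a2 a3 a4
  rw [h1, h2, mul_zero, mul_zero, add_zero] at h
  have h3 : 4 * qD a0 a1 a2 a3 a4 * (4 * qD a0 a1 a2 a3 a4 ^ 2) ^ 7 ≠ 0 :=
    mul_ne_zero (mul_ne_zero four_ne_zero hD)
      (pow_ne_zero _ (mul_ne_zero four_ne_zero (pow_ne_zero _ hD)))
  exact h3 h

/-- integral forms: a common divisor divides a constant -/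
theorem dvd_of_dvd {a0 a1 a2 a3 a4 g : ℤ} (h1 : g ∣ qL a0 a1 a2 a4)
    (h2 : g ∣ 4 * a0 * qj a0 a1 a2 a3) :
    g ∣ 4 * qD a0 a1 a2 a3 a4 * (4 * qD a0 a1 a2 a3 a4 ^ 2) ^ 7 := by
  obtain ⟨A, B, h⟩ := bezout a0 a1 a2 a3 a4
  rw [h]
  exact dvd_add (h1.mul_left A) (h2.mul_left B)

end Pool.Agent.QS
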