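import Pool.Agent.QTW.Bqa

/-!
# Project QTW: binary quartic forms in a basis `(p, x)`

`bG g p` is the form with the coefficients `g` (binomial coefficients split off), `b1 g p x`, `b2`, `b3` its polar forms, `p`, `x` vectors
with two coordinates. `bF p x` is the fourth intersection point `L p + 4 a0 j x` for the basis `(p, x)`.
-/

set_option autoImplicit false

namespace Pool.Agent.QS

section ring

variable {R : Type*} [CommRing R]

/-- coefficients of a binary quartic form -/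
structure BQ (R : Type*) where
  /-- coefficient of `s⁴` -/
  g0 : R
  /-- a quarter of the coefficient of `s³ t` -/
  g1 : R
  /-- a sixth of the coefficient of `s² t²` -/
  g2 : R
  /-- a quarter of the coefficient of `s t³` -/
  g3 : R
  /-- coefficient of `t⁴` -/
  g4 : R

variable (g : BQ R) (s t u v : R)

/-- the form -/
def BQ.b0 : R :=
  g.g0 * s ^ 4 + 4 * g.g1 * s ^ 3 * t + 6 * g.g2 * s ^ 2 * t ^ 2 + 4 * g.g3 * s * t ^ 3 + g.g4 * t ^ 4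

/-- polar form of type `(3, 1)` -/
def BQ.b1 : R :=
  g.g0 * s ^ 3 * u + g.g1 * (s ^ 3 * v + 3 * s ^ 2 * t * u) +
    3 * g.g2 * (s ^ 2 * t * v + s * t ^ 2 * u) + g.g3 * (3 * s * t ^ 2 * v + t ^ 3 * u) +
    g.g4 * t ^ 3 * v

/-- polar form of type `(2, 2)` -/
def BQ.b2 : R :=
  g.g0 * s ^ 2 * u ^ 2 + 2 * g.g1 * (s ^ 2 * u * v + s * t * u ^ 2) +
    g.g2 * (s ^ 2 * v ^ 2 + 4 * s * t * u * v + t ^ 2 * u ^ 2) +
    2 * g.g3 * (s * t * v ^ 2 + t ^ 2 * u * v) + g.g4 * t ^ 2 * v ^ 2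

/-- the discriminant -/
def BQ.D : R := qD g.g0 g.g1 g.g2 g.g3 g.g4

/-- `L` in the basis `(p, x)` -/
def BQ.L : R := qL (g.b0 s t) (g.b1 s t u v) (g.b2 s t u v) (g.b0 u v)

/-- `4 a0 j` in the basis `(p, x)` -/
def BQ.K : R := 4 * g.b0 s t * qj (g.b0 s t) (g.b1 s t u v) (g.b2 s t u v) (g.b1 u v s t)

theorem BQ.expand (a b : R) : g.b0 (a * s + b * u) (a * t + b * v) =
    g.b0 s t * a ^ 4 + 4 * g.b1 s t u v * a ^ 3 * b + 6 * g.b2 s t u v * a ^ 2 * b ^ 2 +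
      4 * g.b1 u v s t * a * b ^ 3 + g.b0 u v * b ^ 4 := by
  unfold BQ.b0 BQ.b1 BQ.b2
  ring

theorem BQ.qI_basis : qI (g.b0 s t) (g.b1 s t u v) (g.b2 s t u v) (g.b1 u v s t) (g.b0 u v) =
    qI g.g0 g.g1 g.g2 g.g3 g.g4 * (s * v - t * u) ^ 4 := by
  unfold qI BQ.b0 BQ.b1 BQ.b2
  ring

theorem BQ.qJ_basis : qJ (g.b0 s t) (g.b1 s t u v) (g.b2 s t u v) (g.b1 u v s t) (g.b0 u v) =
    qJ g.g0 g.g1 g.g2 g.g3 g.g4 * (s * v - t * u) ^ 6 := by
  unfold qJ BQ.b0 BQ.b1 BQ.b2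
  ring

theorem BQ.qD_basis : qD (g.b0 s t) (g.b1 s t u v) (g.b2 s t u v) (g.b1 u v s t) (g.b0 u v) =
    g.D * (s * v - t * u) ^ 12 := by
  unfold BQ.D qD
  rw [g.qI_basis, g.qJ_basis]
  ring

theorem BQ.b1_shift (l : R) : g.b1 s t (u + l * s) (v + l * t) = g.b1 s t u v + l * g.b0 s t := by
  unfold BQ.b0 BQ.b1
  ring

theorem BQ.b2_shift (l : R) : g.b2 s t (u + l * s) (v + l * t) =
    g.b2 s t u v + 2 * l * g.b1 s t u v + l ^ 2 * g.b0 s t := by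
  unfold BQ.b0 BQ.b1 BQ.b2
  ring

theorem BQ.b3_shift (l : R) : g.b1 (u + l * s) (v + l * t) s t =
    g.b1 u v s t + 3 * l * g.b2 s t u v + 3 * l ^ 2 * g.b1 s t u v + l ^ 3 * g.b0 s t := by
  unfold BQ.b0 BQ.b1 BQ.b2
  ring

theorem BQ.b4_shift (l : R) : g.b0 (u + l * s) (v + l * t) =
    g.b0 u v + 4 * l * g.b1 u v s t + 6 * l ^ 2 * g.b2 s t u v + 4 * l ^ 3 * g.b1 s t u v +
      l ^ 4 * g.b0 s t := by
  unfold BQ.b0 BQ.b1 BQ.b2
  ring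

theorem BQ.K_shift (l : R) : g.K s t (u + l * s) (v + l * t) = g.K s t u v := by
  unfold BQ.K
  rw [g.b1_shift, g.b2_shift, g.b3_shift]
  unfold qj
  ring

theorem BQ.L_shift (l : R) : g.L s t (u + l * s) (v + l * t) = g.L s t u v - l * g.K s t u v := by
  unfold BQ.K BQ.L
  rw [g.b1_shift, g.b2_shift, g.b4_shift]
  unfold qj qL
  ring

/-- the value at the fourth point is a square times the value at `p` -/
theorem BQ.value : g.b0 s t ^ 3 *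
    g.b0 (g.L s t u v * s + g.K s t u v * u) (g.L s t u v * t + g.K s t u v * v) =
    (g.b0 s t ^ 2 * g.L s t u v ^ 2 + 2 * g.b0 s t * g.b1 s t u v * g.L s t u v * g.K s t u v +
      (3 * g.b0 s t * g.b2 s t u v - 2 * g.b1 s t u v ^ 2) * g.K s t u v ^ 2) ^ 2 := by
  rw [g.expand]
  have h1 : ∀ a0 a1 a2 a3 a4 α β : R,
      a0 ^ 3 * (a0 * α ^ 4 + 4 * a1 * α ^ 3 * β + 6 * a2 * α ^ 2 * β ^ 2 + 4 * a3 * α * β ^ 3 +
        a4 * β ^ 4) = (a0 ^ 2 * α ^ 2 + 2 * a0 * a1 * α * β + (3 * a0 * a2 - 2 * a1 ^ 2) * β ^ 2) ^ 2 +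
        β ^ 3 * (4 * a0 * qj a0 a1 a2 a3 * α - qL a0 a1 a2 a4 * β) := by
    intro a0 a1 a2 a3 a4 α β
    unfold qj qL
    ring
  rw [h1]
  unfold BQ.K BQ.L
  ring

end ring

end Pool.Agent.QS
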