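import Pool.Agent.QTW.Bqb

/-!
# Project QTW: the fourth point grows like the ninth power

`growth`: `c |p|^18 ≤ |bF p x|²` for all real bases `(p, x)` with determinant `1`.
PROOF. `n = s² + t²`, `λ = (u s + v t) / n`, so `x = p' / n + λ p`, `p' = (-t, s)`. By `L_shift`, `K_shift` the fourth point is
`L0 p + K0 p' / n`, `L0 = L(p, p') / n⁴`, `K0 = K(p, p') / n³`; its square is `(L(p, p')² + K(p, p')²) / n⁷`. The numerator is a
homogeneous polynomial of degree `32` which is positive on the circle (`qL_or_qj`).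
-/

set_option autoImplicit false

namespace Pool.Agent.QS

section ring

variable {R : Type*} [CommRing R] (g : BQ R) (s t u v : R)

theorem BQ.b1_scale (r : R) : g.b1 s t (r * u) (r * v) = r * g.b1 s t u v := by
  unfold BQ.b1
  ring

theorem BQ.b2_scale (r : R) : g.b2 s t (r * u) (r * v) = r ^ 2 * g.b2 s t u v := by
  unfold BQ.b2
  ring

theorem BQ.b3_scale (r : R) : g.b1 (r * u) (r * v) s t = r ^ 3 * g.b1 u v s t := by
  unfold BQ.b1
  ring

theorem BQ.b0_scale (r : R) : g.b0 (r * u) (r * v) = r ^ 4 * g.b0 u v := by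
  unfold BQ.b0
  ring

theorem BQ.L_scale (r : R) : g.L s t (r * u) (r * v) = r ^ 4 * g.L s t u v := by
  unfold BQ.L
  rw [g.b1_scale, g.b2_scale, g.b0_scale]
  unfold qL
  ring

theorem BQ.K_scale (r : R) : g.K s t (r * u) (r * v) = r ^ 3 * g.K s t u v := by
  unfold BQ.K
  rw [g.b1_scale, g.b2_scale, g.b3_scale]
  unfold qj
  ring

theorem BQ.b1_hom (r : R) : g.b1 (r * s) (r * t) (r * u) (r * v) = r ^ 4 * g.b1 s t u v := by
  unfold BQ.b1
  ring

theorem BQ.b2_hom (r : R) : g.b2 (r * s) (r * t) (r * u) (r * v) = r ^ 4 * g.b2 s t u v := by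
  unfold BQ.b2
  ring

theorem BQ.L_hom (r : R) : g.L (r * s) (r * t) (r * u) (r * v) = r ^ 16 * g.L s t u v := by
  unfold BQ.L
  rw [g.b1_hom, g.b2_hom, g.b0_scale, g.b0_scale]
  unfold qL
  ring

theorem BQ.K_hom (r : R) : g.K (r * s) (r * t) (r * u) (r * v) = r ^ 16 * g.K s t u v := by
  unfold BQ.K
  rw [g.b1_hom, g.b2_hom, g.b0_scale, g.b1_hom]
  unfold qj
  ring

end ring

/-- the homogeneous polynomial of degree `32` -/
def BQ.N (g : BQ ℝ) (s t : ℝ) : ℝ := g.L s t (-t) s ^ 2 + g.K s t (-t) s ^ 2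

theorem BQ.N_hom (g : BQ ℝ) (r s t : ℝ) : g.N (r * s) (r * t) = r ^ 32 * g.N s t := by
  unfold BQ.N
  have e : -(r * t) = r * (-t) := by ring
  rw [e, g.L_hom, g.K_hom]
  ring

theorem BQ.N_pos (g : BQ ℝ) (hD : g.D ≠ 0) {s t : ℝ} (h : s ^ 2 + t ^ 2 = 1) : 0 < g.N s t := by
  have h1 : qD (g.b0 s t) (g.b1 s t (-t) s) (g.b2 s t (-t) s) (g.b1 (-t) s s t)
      (g.b0 (-t) s) ≠ 0 := by
    rw [g.qD_basis]
    have e : s * s - t * -t = 1 := by linarith
    rw [e, one_pow, mul_one]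
    exact hD
  exact qL_or_qj h1

theorem BQ.N_cont (g : BQ ℝ) : Continuous fun θ : ℝ => g.N (Real.cos θ) (Real.sin θ) := by
  unfold BQ.N BQ.L BQ.K qL qj BQ.b0 BQ.b1 BQ.b2
  fun_prop

theorem BQ.N_low (g : BQ ℝ) (hD : g.D ≠ 0) : ∃ c : ℝ, 0 < c ∧ ∀ s t : ℝ,
    c * (s ^ 2 + t ^ 2) ^ 16 ≤ g.N s t := by
  obtain ⟨θ0, -, hθ0⟩ := isCompact_Icc.exists_isMinOn (s := Set.Icc (-Real.pi) Real.pi)
    ⟨0, by constructor <;> linarith [Real.pi_pos]⟩ g.N_cont.continuousOn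
  have hc : 0 < g.N (Real.cos θ0) (Real.sin θ0) := g.N_pos hD (Real.cos_sq_add_sin_sq θ0)
  refine ⟨_, hc, fun s t => ?_⟩
  by_cases h0 : s = 0 ∧ t = 0
  · obtain ⟨rfl, rfl⟩ := h0
    have h1 := g.N_hom 0 0 0
    simp only [mul_zero] at h1
    rw [h1]
    norm_num
  · set z : ℂ := ⟨s, t⟩ with hz
    have hre := Complex.norm_mul_cos_arg z
    have him := Complex.norm_mul_sin_arg z
    have hre' : s = ‖z‖ * Real.cos z.arg := hre.symm
    have him' : t = ‖z‖ * Real.sin z.arg := him.symm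
    have hmem : z.arg ∈ Set.Icc (-Real.pi) Real.pi :=
      ⟨(Complex.neg_pi_lt_arg z).le, Complex.arg_le_pi z⟩
    have h1 : g.N (Real.cos θ0) (Real.sin θ0) ≤ g.N (Real.cos z.arg) (Real.sin z.arg) :=
      hθ0 hmem
    have h2 : s ^ 2 + t ^ 2 = ‖z‖ ^ 2 := by
      rw [hre', him', mul_pow, mul_pow, ← mul_add, Real.cos_sq_add_sin_sq, mul_one]
    have h3 : g.N s t = ‖z‖ ^ 32 * g.N (Real.cos z.arg) (Real.sin z.arg) := by
      rw [← g.N_hom, ← hre', ← him']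
    rw [h3, h2, ← pow_mul, mul_comm]
    exact mul_le_mul_of_nonneg_left h1 (by positivity)

theorem BQ.growth (g : BQ ℝ) (hD : g.D ≠ 0) : ∃ c : ℝ, 0 < c ∧ ∀ s t u v : ℝ,
    s * v - t * u = 1 → c * (s ^ 2 + t ^ 2) ^ 9 ≤
      (g.L s t u v * s + g.K s t u v * u) ^ 2 + (g.L s t u v * t + g.K s t u v * v) ^ 2 := by
  obtain ⟨c, hc, h⟩ := g.N_low hD
  refine ⟨c, hc, fun s t u v hw => ?_⟩
  have hn : 0 < s ^ 2 + t ^ 2 := by
    by_contra hcon
    push Not at hcon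
    have h1 := sq_nonneg s
    have h2 := sq_nonneg t
    have h3 : s = 0 := pow_eq_zero_iff two_ne_zero |>.1 (by linarith)
    have h4 : t = 0 := pow_eq_zero_iff two_ne_zero |>.1 (by linarith)
    rw [h3, h4] at hw
    norm_num at hw
  obtain ⟨n, hn'⟩ : ∃ n, n = s ^ 2 + t ^ 2 := ⟨_, rfl⟩
  rw [← hn'] at hn
  have hn0 : n ≠ 0 := hn.ne'
  obtain ⟨l, hl⟩ : ∃ l, l = (u * s + v * t) / n := ⟨_, rfl⟩
  have hu : u = n⁻¹ * (-t) + l * s := by
    rw [hl]
    field_simp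
    linear_combination (-t) * hw + u * hn'
  have hv : v = n⁻¹ * s + l * t := by
    rw [hl]
    field_simp
    linear_combination s * hw + v * hn'
  have hL : g.L s t u v = n⁻¹ ^ 4 * g.L s t (-t) s - l * (n⁻¹ ^ 3 * g.K s t (-t) s) := by
    conv_lhs => rw [hu, hv]
    rw [g.L_shift, g.L_scale, g.K_scale]
  have hK : g.K s t u v = n⁻¹ ^ 3 * g.K s t (-t) s := by
    conv_lhs => rw [hu, hv]
    rw [g.K_shift, g.K_scale]
  have h1 : (g.L s t u v * s + g.K s t u v * u) ^ 2 + (g.L s t u v * t + g.K s t u v * v) ^ 2 =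
      g.N s t / n ^ 7 := by
    rw [hL, hK]
    unfold BQ.N
    generalize g.L s t (-t) s = L
    generalize g.K s t (-t) s = K
    rw [hu, hv]
    field_simp
    rw [hn']
    ring
  rw [h1, le_div_iff₀ (by positivity)]
  have h2 := h s t
  rw [← hn'] at h2 ⊢
  calc c * n ^ 9 * n ^ 7 = c * n ^ 16 := by ring
    _ ≤ _ := h2

end Pool.Agent.QS
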