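import Pool.Agent.QS.Bas
import Pool.Agent.QS.Alg

/-!
# Project QTW (MP_4d3b00_ag): quadratic twists of a quartic form

`C.tw a` is the form `F / a`, `a` a nonzero rational number. `x ∈ (C.tw a).S` iff `x` is rational and `F x ∈ a (ℚˣ)²`
(`mem_S_tw`). For `a > 0` the sheets `(p, y)` of `C.tw a` correspond to the sheets `(p, √a y)` of `C`, and `q`, `c3`, `c4`, `xp`
are multiplied by constants, so good sheets correspond to good sheets (`good_tw`).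
-/

set_option autoImplicit false

open Set Topology Filter MvPolynomial
open Pool.Agent.MZ

namespace Pool.Agent.QS

namespace Qrt

variable {m : ℕ} (C : Qrt m)

/-- the form `F / a` -/
noncomputable def tw (a : ℚ) : Qrt m where
  T := ((a : ℝ)⁻¹) • C.T
  s₁ x y z w := by
    simp only [LinearMap.smul_apply, smul_eq_mul]
    rw [C.s₁]
  s₂ x y z w := by
    simp only [LinearMap.smul_apply, smul_eq_mul]
    rw [C.s₂]
  s₃ x y z w := by
    simp only [LinearMap.smul_apply, smul_eq_mul]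
    rw [C.s₃]
  rat x y z w hx hy hz hw := by
    simp only [LinearMap.smul_apply, smul_eq_mul]
    exact (IsQ.inv ⟨a, rfl⟩).mul (C.rat x y z w hx hy hz hw)

theorem tw_T (a : ℚ) (x y z w : V m) : (C.tw a).T x y z w = (a : ℝ)⁻¹ * C.T x y z w := by
  simp only [tw, LinearMap.smul_apply, smul_eq_mul]

theorem tw_F (a : ℚ) (x : V m) : (C.tw a).F x = (a : ℝ)⁻¹ * C.F x := C.tw_T a x x x x

theorem tw_tw (a b : ℚ) : (C.tw a).tw b = C.tw (a * b) := by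
  unfold tw
  congr 1
  rw [smul_smul]
  push_cast
  rw [mul_inv, mul_comm]

variable {C}

theorem mem_S_tw {a : ℚ} (ha : a ≠ 0) {x : V m} :
    x ∈ (C.tw a).S ↔ IsRat x ∧ ∃ r : ℝ, IsQ r ∧ r ≠ 0 ∧ C.F x = a * r ^ 2 := by
  have ha' : (a : ℝ) ≠ 0 := by exact_mod_cast ha
  unfold S
  simp only [mem_ofPred_eq, C.tw_F]
  refine and_congr Iff.rfl (exists_congr fun r => and_congr Iff.rfl (and_congr Iff.rfl ?_))
  rw [inv_mul_eq_iff_eq_mul₀ ha']

/-- the class of `F x` -/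
theorem mem_S_tw' {a : ℚ} (ha : a ≠ 0) {x : V m} :
    x ∈ (C.tw a).S ↔ IsRat x ∧ ∃ r : ℚ, r ≠ 0 ∧ C.F x = a * (r : ℝ) ^ 2 := by
  rw [mem_S_tw ha]
  constructor
  · rintro ⟨h1, r, ⟨r', rfl⟩, h2, h3⟩
    exact ⟨h1, r', by exact_mod_cast h2, h3⟩
  · rintro ⟨h1, r, h2, h3⟩
    exact ⟨h1, r, ⟨r, rfl⟩, by exact_mod_cast h2, h3⟩

theorem S_tw_sq {a r : ℚ} (ha : a ≠ 0) (hr : r ≠ 0) : (C.tw (a * r ^ 2)).S = (C.tw a).S := by
  ext x
  rw [mem_S_tw' ha, mem_S_tw' (mul_ne_zero ha (pow_ne_zero 2 hr))]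
  refine and_congr Iff.rfl ?_
  constructor
  · rintro ⟨s, hs, h⟩
    refine ⟨r * s, mul_ne_zero hr hs, ?_⟩
    rw [h]
    push_cast
    ring
  · rintro ⟨s, hs, h⟩
    refine ⟨s / r, div_ne_zero hs hr, ?_⟩
    rw [h]
    have hr' : (r : ℝ) ≠ 0 := by exact_mod_cast hr
    push_cast
    field_simp

/-- every rational point with `F ≠ 0` belongs to the class of `F x` -/
theorem mem_S_self {x : V m} (hx : IsRat x) {a : ℚ} (ha : a ≠ 0) (h : C.F x = a) :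
    x ∈ (C.tw a).S :=
  (mem_S_tw' ha).2 ⟨hx, 1, one_ne_zero, by rw [h]; push_cast; ring⟩

/-- two classes with a common point agree -/
theorem class_eq {a b : ℚ} (ha : a ≠ 0) (hb : b ≠ 0) {x : V m} (h1 : x ∈ (C.tw a).S)
    (h2 : x ∈ (C.tw b).S) : ∃ r : ℚ, r ≠ 0 ∧ a = b * r ^ 2 := by
  obtain ⟨-, r, hr, h⟩ := (mem_S_tw' ha).1 h1
  obtain ⟨-, s, hs, h'⟩ := (mem_S_tw' hb).1 h2
  refine ⟨s / r, div_ne_zero hs hr, ?_⟩
  have h3 : (a : ℝ) * (r : ℝ) ^ 2 = b * (s : ℝ) ^ 2 := by rw [← h, ← h']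
  have h4 : a * r ^ 2 = b * s ^ 2 := by exact_mod_cast h3
  rw [div_pow, ← mul_div_assoc, ← h4, mul_div_assoc, div_self (pow_ne_zero 2 hr), mul_one]

section pos

variable {a : ℚ} {c : ℝ}

theorem Sh_tw (ha : a ≠ 0) (hc : c ^ 2 = a) {p : V m} {y : ℝ} :
    (C.tw a).Sh p y ↔ C.Sh p (c * y) := by
  have ha' : (a : ℝ) ≠ 0 := by exact_mod_cast ha
  have hc0 : c ≠ 0 := by
    rintro rfl
    apply ha'
    rw [← hc]
    norm_num
  unfold Sh
  rw [C.tw_F, inv_mul_eq_iff_eq_mul₀ ha', mul_pow, hc]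
  exact and_congr ⟨fun h => mul_ne_zero hc0 h, fun h => (mul_ne_zero_iff.1 h).2⟩ Iff.rfl

theorem q_tw (ha : a ≠ 0) (hc : c ^ 2 = a) (p : V m) (y : ℝ) (u v : V m) :
    (C.tw a).q p y u v = c⁻¹ * C.q p (c * y) u v := by
  have ha' : (a : ℝ) ≠ 0 := by exact_mod_cast ha
  have hc0 : c ≠ 0 := by
    rintro rfl
    apply ha'
    rw [← hc]
    norm_num
  unfold q
  rw [C.tw_T, C.tw_T, C.tw_T, ← hc]
  by_cases hy : y = 0
  · subst hy
    simp
  · field_simp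

theorem c3_tw (ha : a ≠ 0) (hc : c ^ 2 = a) (p : V m) (y : ℝ) (x : V m) :
    (C.tw a).c3 p y x = (a : ℝ)⁻¹ * C.c3 p (c * y) x := by
  have ha' : (a : ℝ) ≠ 0 := by exact_mod_cast ha
  have hc0 : c ≠ 0 := by
    rintro rfl
    apply ha'
    rw [← hc]
    norm_num
  unfold c3
  rw [q_tw ha hc, C.tw_T, C.tw_T]
  by_cases hy : y = 0
  · subst hy
    simp
  · field_simp

theorem c4_tw (ha : a ≠ 0) (hc : c ^ 2 = a) (p : V m) (y : ℝ) (x : V m) :
    (C.tw a).c4 p y x = (a : ℝ)⁻¹ * C.c4 p (c * y) x := by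
  unfold c4
  rw [q_tw ha hc, C.tw_F, ← hc, mul_pow, inv_pow]
  ring

theorem xp_tw (ha : a ≠ 0) (hc : c ^ 2 = a) (p : V m) (y : ℝ) (x : V m) :
    (C.tw a).xp p y x = (a : ℝ)⁻¹ • C.xp p (c * y) x := by
  unfold xp
  rw [c3_tw ha hc, c4_tw ha hc, smul_sub, smul_smul, smul_smul]
  congr 1
  congr 1
  ring

theorem good_tw (ha : a ≠ 0) (hc : c ^ 2 = a) {p : V m} {y : ℝ} :
    (C.tw a).Good p y ↔ C.Good p (c * y) := by
  have ha' : (a : ℝ)⁻¹ ≠ 0 := inv_ne_zero (by exact_mod_cast ha)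
  have hc0 : c⁻¹ ≠ 0 := by
    refine inv_ne_zero ?_
    rintro rfl
    apply ha'
    rw [← hc]
    norm_num
  unfold Good
  refine exists_congr fun x => ?_
  rw [c3_tw ha hc, q_tw ha hc, xp_tw ha hc, q_smul, q_symm, q_smul]
  constructor
  · rintro ⟨h1, h2⟩
    exact ⟨(mul_ne_zero_iff.1 h1).2,
      (mul_ne_zero_iff.1 (mul_ne_zero_iff.1 (mul_ne_zero_iff.1 h2).2).2).2⟩
  · rintro ⟨h1, h2⟩
    exact ⟨mul_ne_zero ha' h1, mul_ne_zero hc0 (mul_ne_zero ha' (mul_ne_zero ha' h2))⟩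

end pos

theorem bin_tw {a : ℚ} (ha : a ≠ 0) : (C.tw a).Bin ↔ C.Bin := by
  have ha' : (a : ℝ)⁻¹ ≠ 0 := inv_ne_zero (by exact_mod_cast ha)
  unfold Bin
  refine exists_congr fun l => exists_congr fun n => forall_congr' fun v => forall_congr' fun _ =>
    forall_congr' fun _ => forall_congr' fun x => ?_
  rw [C.tw_F, C.tw_F]
  exact ⟨fun h => mul_left_cancel₀ ha' h, fun h => by rw [h]⟩

theorem q_neg_y (p : V m) (y : ℝ) (u v : V m) : C.q p (-y) u v = -C.q p y u v := by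
  unfold q
  rw [show (-y) ^ 3 = -(y ^ 3) by ring, show (-y) ^ 2 = y ^ 2 by ring, div_neg]

theorem c3_neg_y (p : V m) (y : ℝ) (x : V m) : C.c3 p (-y) x = C.c3 p y x := by
  unfold c3
  rw [q_neg_y, div_neg, neg_mul_neg]

theorem c4_neg_y (p : V m) (y : ℝ) (x : V m) : C.c4 p (-y) x = C.c4 p y x := by
  unfold c4
  rw [q_neg_y, neg_sq]

theorem good_neg_y {p : V m} {y : ℝ} : C.Good p (-y) ↔ C.Good p y := by
  unfold Good xp
  refine exists_congr fun x => ?_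
  rw [c3_neg_y, c4_neg_y, q_neg_y, neg_ne_zero]

end Qrt

end Pool.Agent.QS
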