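import Pool.Agent.QS.Rr
import Pool.Agent.QTW.Tw
import Pool.Agent.QTW.Bqf

/-!
# Project QTW: the twists of a quartic form which depends on two linear forms

`bin_uni`: `F` depends on two linear forms, `F p₀ = a₀ ≠ 0`, `F / a₀` is not the square of a real quadratic form: for all rational
numbers `a ≠ 0` outside finitely many square classes either `F / a` has no nonzero rational square value or the closure of the set
of the rational points where it has one contains an interior point with `F / a > 0`.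
PROOF. `F x = F (l x • p₀ + n x • e)` (`bin_coord` for `F / a₀`), `g (s, t) = F (s p₀ + t e)` is a rational binary quartic form with
`g0 = a₀ ≠ 0`. By `BQ.classes` we may assume that `Aa g a` is infinite. `of_bin` for `F / a`: if `S` were a finite union of pieces then
one of them would contain `z p₀ + e`, `z' p₀ + e` for some `z ≠ z'`, hence `p₀` and `e`, and `S` would be the set of all rational
points with `F ≠ 0`, which is dense.
-/

set_option autoImplicit false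

open Set Topology Filter MvPolynomial
open Pool.Agent.MZ

namespace Pool.Agent.QS

namespace Qrt

variable {m : ℕ} {C : Qrt m}

theorem sq_tw_of {a a₀ : ℚ} (ha : a ≠ 0) (ha₀ : a₀ ≠ 0) {p₀ : V m} (hF : C.F p₀ = a₀)
    (h : (C.tw a).Sq) : (C.tw a₀).Sq := by
  obtain ⟨r, hr, hrF⟩ := h
  have haR : (a : ℝ) ≠ 0 := by exact_mod_cast ha
  have ha₀R : (a₀ : ℝ) ≠ 0 := by exact_mod_cast ha₀
  have h1 : 0 ≤ (a : ℝ)⁻¹ * a₀ := by
    rw [← hF, ← C.tw_F, hrF]
    exact sq_nonneg _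
  have h2 : 0 ≤ (a : ℝ) / a₀ := by
    have h3 : (a : ℝ) / a₀ = ((a : ℝ)⁻¹ * a₀) * ((a : ℝ) / a₀) ^ 2 := by
      field_simp
    rw [h3]
    exact mul_nonneg h1 (sq_nonneg _)
  refine ⟨Real.sqrt (a / a₀) • r, ?_, ?_⟩
  · intro x y
    simp only [LinearMap.smul_apply, smul_eq_mul]
    rw [hr]
  · intro x
    simp only [LinearMap.smul_apply, smul_eq_mul]
    rw [mul_pow, Real.sq_sqrt h2, ← hrF, C.tw_F, C.tw_F]
    field_simp

private theorem bqg_dense {a : ℚ} (h : (C.tw a).S.Nonempty)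
    (hS : ∀ x, IsRat x → C.F x ≠ 0 → x ∈ (C.tw a).S) :
    ∃ o, 0 < (C.tw a).F o ∧ (C.tw a).Z ∈ 𝓝 o := by
  obtain ⟨o, ho⟩ := h
  have hoS := ho
  obtain ⟨hor, r, hr, hr0, hFo⟩ := ho
  have hpos : 0 < (C.tw a).F o := by
    rw [hFo]
    positivity
  refine ⟨o, hpos, ?_⟩
  have h1 : IsOpen {x : V m | 0 < (C.tw a).F x} := isOpen_lt continuous_const (C.tw a).continuous_F
  refine Filter.mem_of_superset (h1.mem_nhds hpos) ?_
  intro x hx
  have h2 := dense_isRat.open_subset_closure_inter h1 hx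
  refine closure_mono ?_ h2
  rintro y ⟨hy1, hy2⟩
  refine hS y hy2 ?_
  intro h0
  have hy1' : 0 < (C.tw a).F y := hy1
  rw [C.tw_F, h0, mul_zero] at hy1'
  exact lt_irrefl _ hy1'

theorem bin_uni (hb : C.Bin) {p₀ : V m} (hp : IsRat p₀) {a₀ : ℚ} (ha₀ : a₀ ≠ 0)
    (hF : C.F p₀ = a₀) (hns : ¬ (C.tw a₀).Sq) : ∃ E : Finset ℚ, (∀ e ∈ E, e ≠ 0) ∧
    ∀ a : ℚ, a ≠ 0 → (∃ e ∈ E, ∃ r : ℚ, r ≠ 0 ∧ a = e * r ^ 2) ∨ (C.tw a).S = ∅ ∨
      ∃ o, 0 < (C.tw a).F o ∧ (C.tw a).Z ∈ 𝓝 o := by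
  obtain ⟨l, n, e, hl, hn, he, hlp, hnp, hle, hne, hx⟩ :=
    bin_coord ((bin_tw ha₀).2 hb) hns (mem_S_self hp ha₀ hF)
  have ha₀R : (a₀ : ℝ) ≠ 0 := by exact_mod_cast ha₀
  have hFx : ∀ x, C.F x = C.F (l x • p₀ + n x • e) := by
    intro x
    have h1 := hx x
    rw [C.tw_F, C.tw_F] at h1
    exact mul_left_cancel₀ (inv_ne_zero ha₀R) h1
  obtain ⟨g1, h1⟩ := C.rat p₀ p₀ p₀ e hp hp hp he
  obtain ⟨g2, h2⟩ := C.rat p₀ p₀ e e hp hp he he
  obtain ⟨g3, h3⟩ := C.rat p₀ e e e hp he he he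
  obtain ⟨g4, h4⟩ := isQ_F (C := C) he
  let g : BQ ℚ := ⟨a₀, g1, g2, g3, g4⟩
  have hg : ∀ s t : ℝ, C.F (s • p₀ + t • e) = a₀ * s ^ 4 + 4 * g1 * s ^ 3 * t +
      6 * g2 * s ^ 2 * t ^ 2 + 4 * g3 * s * t ^ 3 + g4 * t ^ 4 := by
    intro s t
    rw [rra_expand]
    have e1 : C.T (s • p₀) (s • p₀) (s • p₀) e = s ^ 3 * g1 := by
      simp only [map_smul, LinearMap.smul_apply, smul_eq_mul]
      rw [h1]
      ring
    have e2 : C.T (s • p₀) (s • p₀) e e = s ^ 2 * g2 := by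
      simp only [map_smul, LinearMap.smul_apply, smul_eq_mul]
      rw [h2]
      ring
    have e3 : C.T (s • p₀) e e e = s * g3 := by
      simp only [map_smul, LinearMap.smul_apply, smul_eq_mul]
      rw [h3]
    rw [e1, e2, e3, F_smul, hF, h4]
    ring
  have hgq : ∀ s t : ℚ, C.F ((s : ℝ) • p₀ + (t : ℝ) • e) = (g.b0 s t : ℚ) := by
    intro s t
    rw [hg]
    unfold BQ.b0
    push_cast
    ring
  obtain ⟨E, hE0, hE⟩ := g.classes ha₀
  refine ⟨E, hE0, fun a ha => ?_⟩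
  have haR : (a : ℝ) ≠ 0 := by exact_mod_cast ha
  rcases (C.tw a).S.eq_empty_or_nonempty with hS | hS
  · exact Or.inr (Or.inl hS)
  have hSn := hS
  obtain ⟨z, hz⟩ := hS
  obtain ⟨hzr, r, hr, hFz⟩ := (mem_S_tw' ha).1 hz
  obtain ⟨σ, hσ⟩ := hl z hzr
  obtain ⟨τ, hτ⟩ := hn z hzr
  have hgz : g.b0 σ τ = a * r ^ 2 := by
    have h5 := hFx z
    rw [hσ, hτ, hgq, hFz] at h5
    exact_mod_cast h5.symm
  rcases hE a ha σ τ r hr hgz with h5 | hinf
  · exact Or.inl h5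
  right; right
  have hnsa : ¬ (C.tw a).Sq := fun h => hns (sq_tw_of ha ha₀ hF h)
  rcases of_bin ((bin_tw ha).2 hb) hnsa with hP | hI
  · obtain ⟨k, Y, hYr, hY⟩ := hP
    have hmem : ∀ z ∈ g.Aa a, ((z : ℝ) • p₀ + (1 : ℝ) • e) ∈ (C.tw a).S := by
      rintro z ⟨r', hr', hz'⟩
      refine (mem_S_tw' ha).2 ⟨?_, r', hr', ?_⟩
      · exact (IsRat.smul (IsQ.cast z) hp).add (by rw [one_smul]; exact he)
      · have h6 := hgq z 1
        rw [Rat.cast_one] at h6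
        rw [h6, hz']
        push_cast
        rfl
    have hidx : ∀ z : ℚ, ∃ i : Option (Fin k), z ∈ g.Aa a → ∃ i', i = some i' ∧
        ((z : ℝ) • p₀ + (1 : ℝ) • e) ∈ Submodule.span ℝ (Y i') := by
      intro z
      by_cases h6 : z ∈ g.Aa a
      · have h7 := hmem z h6
        rw [hY] at h7
        obtain ⟨-, -, i, hi⟩ := h7
        exact ⟨some i, fun _ => ⟨i, rfl, hi⟩⟩
      · exact ⟨none, fun h => absurd h h6⟩
    choose f hf using hidx
    obtain ⟨z₁, hz₁, z₂, hz₂, hne12, heq⟩ := hinf.exists_ne_map_eq_of_mapsTo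
      (f := f) (t := Set.univ) (fun _ _ => mem_univ _) Set.finite_univ
    obtain ⟨i, hi, hi1⟩ := hf z₁ hz₁
    obtain ⟨i', hi', hi2⟩ := hf z₂ hz₂
    have hii : i' = i := by
      rw [hi, hi'] at heq
      exact (Option.some.inj heq).symm
    rw [hii] at hi2
    have hsub := Submodule.sub_mem _ hi1 hi2
    have h8 : (z₁ : ℝ) - z₂ ≠ 0 := by
      rw [sub_ne_zero]
      exact_mod_cast hne12
    have hp1 : p₀ ∈ Submodule.span ℝ (Y i) := by
      have h9 : (z₁ : ℝ) • p₀ + (1 : ℝ) • e - ((z₂ : ℝ) • p₀ + (1 : ℝ) • e) =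
          ((z₁ : ℝ) - z₂) • p₀ := by
        rw [sub_smul]
        abel
      rw [h9] at hsub
      have h10 := Submodule.smul_mem _ ((z₁ : ℝ) - z₂)⁻¹ hsub
      rwa [smul_smul, inv_mul_cancel₀ h8, one_smul] at h10
    have he1 : e ∈ Submodule.span ℝ (Y i) := by
      have h9 := Submodule.sub_mem _ hi1 (Submodule.smul_mem _ (z₁ : ℝ) hp1)
      rwa [add_sub_cancel_left, one_smul] at h9
    refine bqg_dense hSn fun x hxr hx0 => ?_
    have h11 : l x • p₀ + n x • e ∈ (C.tw a).S := by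
      rw [hY]
      refine ⟨(IsRat.smul (hl x hxr) hp).add (IsRat.smul (hn x hxr) he), ?_, i, ?_⟩
      · rw [C.tw_F, ← hFx]
        exact mul_ne_zero (inv_ne_zero haR) hx0
      · exact Submodule.add_mem _ (Submodule.smul_mem _ _ hp1) (Submodule.smul_mem _ _ he1)
    obtain ⟨-, r', hr', h12⟩ := (mem_S_tw' ha).1 h11
    exact (mem_S_tw' ha).2 ⟨hxr, r', hr', by rw [hFx, h12]⟩
  · exact hI

end Qrt

end Pool.Agent.QS
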