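import Pool.Agent.QTW.Af

/-!
# QTW: several quartic polynomials in disjoint sets of variables
-/

set_option autoImplicit false

open Set Topology Filter MvPolynomial

namespace Pool.Agent.QTW

open Pool.Agent.MZ Pool.Agent.QS

variable {r : ℕ} {N : Fin r → ℕ}

/-- the block `i` of the coordinates -/
def blk (x : (Σ i, Fin (N i)) → ℝ) (i : Fin r) : Fin (N i) → ℝ := fun j => x ⟨i, j⟩

/-- points whose `i`-th block is in `SQa (f i) (a i)` -/
def TT (f : ∀ i, MvPolynomial (Fin (N i)) ℚ) (a : Fin r → ℚ) : Set ((Σ i, Fin (N i)) → ℝ) :=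
  {x | ∀ i, blk x i ∈ SQa (f i) (a i)}

/-- points whose `i`-th block is in `Aa (f i) (a i)` -/
def AT (f : ∀ i, MvPolynomial (Fin (N i)) ℚ) (a : Fin r → ℚ) : Set ((Σ i, Fin (N i)) → ℝ) :=
  {x | ∀ i, blk x i ∈ Aa (f i) (a i)}

/-- all `f i` are not zero -/
def Om (f : ∀ i, MvPolynomial (Fin (N i)) ℚ) : Set ((Σ i, Fin (N i)) → ℝ) :=
  {x | ∀ i, (aeval (blk x i) (f i) : ℝ) ≠ 0}

theorem continuous_blk (i : Fin r) :
    Continuous fun x : (Σ i, Fin (N i)) → ℝ => blk x i :=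
  continuous_pi fun _ => continuous_apply _

theorem closure_TT (f : ∀ i, MvPolynomial (Fin (N i)) ℚ) (a : Fin r → ℚ) :
    closure (TT f a) = {x | ∀ i, blk x i ∈ closure (SQa (f i) (a i))} := by
  refine Subset.antisymm ?_ ?_
  · intro x hx1 i
    exact map_mem_closure (continuous_blk i) hx1 fun y hy => hy i
  · intro x hx1
    have h1 : (fun i => blk x i) ∈ closure (Set.pi univ fun i => SQa (f i) (a i)) := by
      rw [closure_pi_set]
      intro i _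
      exact hx1 i
    have hc : Continuous fun y : (∀ i, Fin (N i) → ℝ) => (fun p => y p.1 p.2 :
        (Σ i, Fin (N i)) → ℝ) :=
      continuous_pi fun p => (continuous_apply p.2).comp (continuous_apply p.1)
    have h2 := map_mem_closure hc h1 (t := TT f a) fun y hy i => hy i (mem_univ i)
    exact h2

theorem sqa_sub {n : ℕ} (f : MvPolynomial (Fin n) ℚ) {a : ℚ} (ha : a ≠ 0) :
    SQa f a ⊆ Aa f a := by
  intro x hx1
  refine ⟨subset_closure hx1, ?_⟩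
  obtain ⟨s, q, hs, h, rfl⟩ := hx1
  rw [aeval_rv, h]
  exact_mod_cast mul_ne_zero ha (pow_ne_zero 2 hs)

theorem AT_sub_closure (f : ∀ i, MvPolynomial (Fin (N i)) ℚ) (a : Fin r → ℚ) :
    AT f a ⊆ closure (TT f a) := by
  rw [closure_TT]
  exact fun x hx1 i => (hx1 i).1

theorem AT_sub_Om (f : ∀ i, MvPolynomial (Fin (N i)) ℚ) (a : Fin r → ℚ) :
    AT f a ⊆ Om f := fun _ hx1 i => (hx1 i).2

theorem AT_SC {f : ∀ i, MvPolynomial (Fin (N i)) ℚ} (hf : ∀ i, (f i).totalDegree ≤ 4)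
    {a : Fin r → ℚ} (ha : ∀ i, a i ≠ 0) : SC (AT f a) := by
  have e : AT f a = ⋂ i, {x : (Σ i, Fin (N i)) → ℝ |
      (fun j : Fin (N i) => eval x (X (⟨i, j⟩ : Σ i, Fin (N i)))) ∈ Aa (f i) (a i)} := by
    ext x
    simp only [AT, mem_ofPred_eq, mem_iInter, eval_X]
    exact Iff.rfl
  rw [e]
  exact SC.iInter fun i => (Aa_SC (hf i) (ha i)).preimage
    (fun j : Fin (N i) => (X (⟨i, j⟩ : Σ i, Fin (N i)) : MvPolynomial (Σ i, Fin (N i)) ℝ))

theorem AT_finite {f : ∀ i, MvPolynomial (Fin (N i)) ℚ} (hf : ∀ i, (f i).totalDegree ≤ 4) :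
    {E : Set ((Σ i, Fin (N i)) → ℝ) | ∃ a : Fin r → ℚ, (∀ i, a i ≠ 0) ∧ E = AT f a}.Finite := by
  have h := Set.Finite.pi' (fun i => Aa_finite (hf i))
  refine (h.image (fun F => {x : (Σ i, Fin (N i)) → ℝ | ∀ i, blk x i ∈ F i})).subset ?_
  rintro _ ⟨a, ha, rfl⟩
  exact ⟨fun i => Aa (f i) (a i), fun i => ⟨a i, ha i, rfl⟩, rfl⟩

/-- closure of a union of sets `TT f a` away from the zeros of the `f i` -/
theorem closure_union {f : ∀ i, MvPolynomial (Fin (N i)) ℚ} (hf : ∀ i, (f i).totalDegree ≤ 4)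
    (D : Set (Fin r → ℚ)) (hD : ∀ a ∈ D, ∀ i, a i ≠ 0) :
    ∃ (ι : Type) (_ : Finite ι) (d : ι → (Fin r → ℚ)), (∀ j, d j ∈ D) ∧
      {x | x ∈ closure (⋃ a ∈ D, TT f a) ∧ x ∈ Om f} = ⋃ j, AT f (d j) := by
  classical
  have hfin : {E : Set ((Σ i, Fin (N i)) → ℝ) | ∃ a ∈ D, E = AT f a}.Finite := by
    refine (AT_finite hf).subset ?_
    rintro _ ⟨a, ha, rfl⟩
    exact ⟨a, hD a ha, rfl⟩
  have hex : ∀ E : {E : Set ((Σ i, Fin (N i)) → ℝ) | ∃ a ∈ D, E = AT f a},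
      ∃ a, a ∈ D ∧ (E : Set ((Σ i, Fin (N i)) → ℝ)) = AT f a := fun E => by
    obtain ⟨a, h1, h2⟩ := E.2
    exact ⟨a, h1, h2⟩
  choose d hdD hdE using hex
  have hft : Finite {E : Set ((Σ i, Fin (N i)) → ℝ) | ∃ a ∈ D, E = AT f a} := hfin.to_subtype
  obtain ⟨m, ⟨e⟩⟩ := Finite.exists_equiv_fin
    {E : Set ((Σ i, Fin (N i)) → ℝ) | ∃ a ∈ D, E = AT f a}
  refine ⟨Fin m, inferInstance, fun j => d (e.symm j), fun j => hdD _, ?_⟩
  refine Subset.antisymm ?_ ?_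
  · rintro x ⟨hx1, hx2⟩
    have h1 : (⋃ a ∈ D, TT f a) ⊆ ⋃ j, AT f (d (e.symm j)) := by
      intro y hy
      simp only [mem_iUnion] at hy ⊢
      obtain ⟨a, ha, hy⟩ := hy
      refine ⟨e ⟨AT f a, a, ha, rfl⟩, ?_⟩
      rw [e.symm_apply_apply, ← hdE]
      exact fun i => sqa_sub (f i) (hD a ha i) (hy i)
    have h2 := closure_mono h1 hx1
    rw [closure_iUnion_of_finite] at h2
    obtain ⟨j, hj⟩ := mem_iUnion.1 h2
    refine mem_iUnion.2 ⟨j, ?_⟩
    have h3 : x ∈ closure (TT f (d (e.symm j))) :=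
      isClosed_closure.closure_subset (closure_mono (AT_sub_closure f _) hj)
    rw [closure_TT] at h3
    exact fun i => ⟨h3 i, hx2 i⟩
  · intro x hx1
    obtain ⟨j, hj⟩ := mem_iUnion.1 hx1
    refine ⟨closure_mono ?_ (AT_sub_closure f _ hj), AT_sub_Om f _ hj⟩
    exact subset_biUnion_of_mem (u := fun a => TT f a) (hdD _)

end Pool.Agent.QTW
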