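import Mathlib

/-!
# QTW: generically squarefree polynomials over a domain, with a coprimality condition
-/

set_option autoImplicit false

open Polynomial

namespace Pool.Agent.QTW

private theorem sa_clr {A : Type*} [CommRing A] [IsDomain A] (q : (FractionRing A)[X]) :
    ∃ (d : A) (Q : A[X]), d ≠ 0 ∧
      Q.map (algebraMap A (FractionRing A)) = C (algebraMap A (FractionRing A) d) * q := by
  obtain ⟨b, hb0, hb⟩ := IsLocalization.integerNormalization_spec (nonZeroDivisors A) q
  refine ⟨b, IsLocalization.integerNormalization (nonZeroDivisors A) q,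
    nonZeroDivisors.ne_zero hb0, ?_⟩
  rw [hb, ← Polynomial.smul_eq_C_mul, algebraMap_smul]

private theorem sa_sf {K : Type*} [Field K] {g q : K[X]} (hg : g ≠ 0) (hq : q ≠ 0) :
    ∃ (s : K[X]) (N : ℕ), Squarefree s ∧ s ∣ g ∧ IsCoprime s q ∧ g ∣ (s * q) ^ N := by
  classical
  obtain ⟨N, hN⟩ := UniqueFactorizationMonoid.exists_dvd_radical_self_pow hg
  set r := UniqueFactorizationMonoid.radical g with hr
  have hr1 : Squarefree r := UniqueFactorizationMonoid.squarefree_radical
  have hr2 : r ∣ g := UniqueFactorizationMonoid.radical_dvd_self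
  obtain ⟨s, hs⟩ := EuclideanDomain.gcd_dvd_left r q
  have hsr : s ∣ r := ⟨EuclideanDomain.gcd r q, by rw [mul_comm]; exact hs⟩
  have hs1 : Squarefree s := hr1.squarefree_of_dvd hsr
  refine ⟨s, N, hs1, hsr.trans hr2, ?_, ?_⟩
  · refine isCoprime_of_prime_dvd (fun h => hq h.2) fun p hp h1 h2 => ?_
    have h3 : p ∣ EuclideanDomain.gcd r q := EuclideanDomain.dvd_gcd (h1.trans hsr) h2
    have h4 : p * p ∣ r := by rw [hs]; exact mul_dvd_mul h3 h1
    exact hp.not_isUnit (hr1 p h4)
  · refine hN.trans (pow_dvd_pow_of_dvd ?_ N)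
    rw [mul_comm s q]
    conv_lhs => rw [hs]
    exact mul_dvd_mul_right (EuclideanDomain.gcd_dvd_right r q) s

theorem exists_radq {A : Type*} [CommRing A] [IsDomain A] [CharZero A] {G Q : A[X]}
    (hG : G ≠ 0) (hQ : Q ≠ 0) :
    ∃ (S : A[X]) (D : A), D ≠ 0 ∧ ∀ φ : A →+* ℝ, φ D ≠ 0 →
      (S.map φ).natDegree = S.natDegree ∧ S.map φ ≠ 0 ∧
      (∀ t : ℝ, ((G.map φ).IsRoot t ∧ ¬ (Q.map φ).IsRoot t) ↔ (S.map φ).IsRoot t) ∧
      ∀ t : ℝ, (S.map φ).IsRoot t → ¬ (derivative (S.map φ)).IsRoot t := by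
  classical
  obtain ⟨ι, hι⟩ : ∃ ι : A →+* FractionRing A, ι = algebraMap _ _ := ⟨_, rfl⟩
  have hinj : Function.Injective ι := by
    rw [hι]
    exact IsFractionRing.injective _ _
  have : CharZero (FractionRing A) := charZero_of_injective_ringHom hinj
  have hinjP : Function.Injective (Polynomial.map ι) := Polynomial.map_injective ι hinj
  have hg : G.map ι ≠ 0 := by
    intro h
    apply hG
    apply hinjP
    rw [h, Polynomial.map_zero]
  have hq : Q.map ι ≠ 0 := by
    intro h
    apply hQ
    apply hinjP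
    rw [h, Polynomial.map_zero]
  obtain ⟨s, N, hs, ⟨e, he⟩, ⟨u, v, huv⟩, ⟨m, hm⟩⟩ := sa_sf hg hq
  have hsep : s.Separable := PerfectField.separable_iff_squarefree.2 hs
  obtain ⟨a, b, hab⟩ := hsep
  obtain ⟨ds, S, hds, hS⟩ := sa_clr s
  obtain ⟨da, A0, hda, hA⟩ := sa_clr a
  obtain ⟨db, B, hdb, hB⟩ := sa_clr b
  obtain ⟨de, E, hde, hE⟩ := sa_clr e
  obtain ⟨dm, M, hdm, hM⟩ := sa_clr m
  obtain ⟨du, U, hdu, hU⟩ := sa_clr u
  obtain ⟨dv, V, hdv, hV⟩ := sa_clr v
  rw [← hι] at hS hA hB hE hM hU hV
  have hs0 : s ≠ 0 := hs.ne_zero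
  have hS0 : S ≠ 0 := by
    intro h
    rw [h, Polynomial.map_zero] at hS
    have h1 : C (ι ds) ≠ 0 := by
      rw [Ne, Polynomial.C_eq_zero]
      intro h2
      apply hds
      apply hinj
      rw [h2, map_zero]
    exact mul_ne_zero h1 hs0 hS.symm
  -- the identities
  have i1 : C db * A0 * S + C da * B * derivative S = C (da * db * ds) := by
    apply hinjP
    rw [Polynomial.map_add, Polynomial.map_mul, Polynomial.map_mul, Polynomial.map_mul,
      Polynomial.map_mul, ← Polynomial.derivative_map, Polynomial.map_C, Polynomial.map_C,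
      Polynomial.map_C, hA, hB, hS, Polynomial.derivative_C_mul, map_mul ι, map_mul ι,
      Polynomial.C_mul, Polynomial.C_mul]
    linear_combination (C (ι da) * C (ι db) * C (ι ds)) * hab
  have i2 : S * E = C (ds * de) * G := by
    apply hinjP
    rw [Polynomial.map_mul, Polynomial.map_mul, Polynomial.map_C, hS, hE, he, map_mul ι,
      Polynomial.C_mul]
    ring
  have i3 : C dm * (S * Q) ^ N = C (ds ^ N) * G * M := by
    apply hinjP
    rw [Polynomial.map_mul, Polynomial.map_mul, Polynomial.map_mul, Polynomial.map_pow,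
      Polynomial.map_mul, Polynomial.map_C, Polynomial.map_C, hS, hM, mul_assoc (C (ι ds)) s,
      mul_pow (C (ι ds)), hm, map_pow ι, Polynomial.C_pow]
    ring
  have i4 : C dv * U * S + C (du * ds) * V * Q = C (du * dv * ds) := by
    apply hinjP
    rw [Polynomial.map_add, Polynomial.map_mul, Polynomial.map_mul, Polynomial.map_mul,
      Polynomial.map_mul, Polynomial.map_C, Polynomial.map_C, Polynomial.map_C, hU, hS, hV,
      map_mul ι, map_mul ι, map_mul ι, Polynomial.C_mul, Polynomial.C_mul, Polynomial.C_mul]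
    linear_combination (C (ι du) * C (ι dv) * C (ι ds)) * huv
  refine ⟨S, ds * da * db * de * dm * du * dv * S.leadingCoeff, ?_, ?_⟩
  · exact mul_ne_zero (mul_ne_zero (mul_ne_zero (mul_ne_zero (mul_ne_zero (mul_ne_zero
      (mul_ne_zero hds hda) hdb) hde) hdm) hdu) hdv) (Polynomial.leadingCoeff_ne_zero.2 hS0)
  · intro φ hx
    simp only [map_mul, mul_ne_zero_iff] at hx
    obtain ⟨⟨⟨⟨⟨⟨⟨x1, x2⟩, x3⟩, x4⟩, x5⟩, x6⟩, x7⟩, x8⟩ := hx
    have hdeg : (S.map φ).natDegree = S.natDegree :=
      Polynomial.natDegree_map_of_leadingCoeff_ne_zero _ x8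
    have j1 : ∀ t : ℝ, φ db * (A0.map φ).eval t * (S.map φ).eval t +
        φ da * (B.map φ).eval t * (derivative (S.map φ)).eval t = φ da * φ db * φ ds := by
      intro t
      have := congrArg (fun p => (Polynomial.map φ p).eval t) i1
      simpa [Polynomial.derivative_map] using this
    have j2 : ∀ t : ℝ, (S.map φ).eval t * (E.map φ).eval t = φ ds * φ de * (G.map φ).eval t := by
      intro t
      have := congrArg (fun p => (Polynomial.map φ p).eval t) i2
      simpa using this
    have j3 : ∀ t : ℝ, φ dm * ((S.map φ).eval t * (Q.map φ).eval t) ^ N =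
        φ ds ^ N * (G.map φ).eval t * (M.map φ).eval t := by
      intro t
      have := congrArg (fun p => (Polynomial.map φ p).eval t) i3
      simpa using this
    have j4 : ∀ t : ℝ, φ dv * (U.map φ).eval t * (S.map φ).eval t +
        φ du * φ ds * (V.map φ).eval t * (Q.map φ).eval t = φ du * φ dv * φ ds := by
      intro t
      have := congrArg (fun p => (Polynomial.map φ p).eval t) i4
      simpa using this
    refine ⟨hdeg, ?_, fun t => ⟨?_, ?_⟩, ?_⟩
    · intro h
      have h1 : (S.map φ).coeff S.natDegree = 0 := by rw [h, Polynomial.coeff_zero]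
      rw [Polynomial.coeff_map] at h1
      exact x8 h1
    · rintro ⟨h1, h2⟩
      have h3 := j3 t
      rw [h1.eq_zero, mul_zero, zero_mul] at h3
      have h4 := eq_zero_of_pow_eq_zero ((mul_eq_zero.1 h3).resolve_left x5)
      exact (mul_eq_zero.1 h4).resolve_right h2
    · intro h
      have h' : (S.map φ).eval t = 0 := h
      constructor
      · have h3 := j2 t
        rw [h', zero_mul] at h3
        exact (mul_eq_zero.1 h3.symm).resolve_left (mul_ne_zero x1 x4)
      · intro h2
        have h2' : (Q.map φ).eval t = 0 := h2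
        have h3 := j4 t
        rw [h', h2', mul_zero, mul_zero, add_zero] at h3
        exact mul_ne_zero (mul_ne_zero x6 x7) x1 h3.symm
    · intro t h h2
      have h' : (S.map φ).eval t = 0 := h
      have h2' : (derivative (S.map φ)).eval t = 0 := h2
      have h3 := j1 t
      rw [h', h2', mul_zero, mul_zero, add_zero] at h3
      exact mul_ne_zero (mul_ne_zero x2 x3) x1 h3.symm

end Pool.Agent.QTW
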