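import Pool.Agent.MZ.Compl
import Pool.Agent.QTW.Sa1

/-!
# QTW: the sets `P = 0, Q ≠ 0` in real affine space are finite unions of preconnected sets
-/

set_option autoImplicit false

open MvPolynomial Set Topology Filter

namespace Pool.Agent.QTW

open Pool.Agent.MZ

private def VJ {n : ℕ} (J : Ideal (MvPolynomial (Fin n) ℝ)) : Set (Fin n → ℝ) :=
  {x | ∀ f ∈ J, eval x f = 0}

/-- every algebraic set is the zero set of one polynomial -/
private theorem one_pol {n : ℕ} (J : Ideal (MvPolynomial (Fin n) ℝ)) :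
    ∃ P : MvPolynomial (Fin n) ℝ, ∀ x, eval x P = 0 ↔ x ∈ VJ J := by
  classical
  obtain ⟨F, hF⟩ := IsNoetherian.noetherian J
  refine ⟨∑ f ∈ F, f ^ 2, fun x => ?_⟩
  rw [map_sum, Finset.sum_eq_zero_iff_of_nonneg (fun f _ => by rw [map_pow]; positivity)]
  constructor
  · intro h f hf
    rw [← hF] at hf
    induction hf using Submodule.span_induction with
    | mem g hg =>
      have := h g hg
      rw [map_pow] at this
      exact eq_zero_of_pow_eq_zero this
    | zero => exact map_zero _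
    | add a b _ _ ha hb => rw [map_add, ha, hb, add_zero]
    | smul a b _ hb => rw [smul_eq_mul, map_mul, hb, mul_zero]
  · intro h f hf
    rw [map_pow, h f (by rw [← hF]; exact Submodule.subset_span hf)]
    exact zero_pow two_ne_zero

private theorem mem_VJ_sup {n : ℕ} {J : Ideal (MvPolynomial (Fin n) ℝ)}
    {a : MvPolynomial (Fin n) ℝ} {x : Fin n → ℝ} :
    x ∈ VJ (J ⊔ Ideal.span {a}) ↔ x ∈ VJ J ∧ eval x a = 0 := by
  constructor
  · intro h
    exact ⟨fun f hf => h f (Ideal.mem_sup_left hf),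
      h a (Ideal.mem_sup_right (Ideal.mem_span_singleton_self a))⟩
  · rintro ⟨h1, h2⟩ f hf
    obtain ⟨g, hg, k, hk, rfl⟩ := Submodule.mem_sup.1 hf
    obtain ⟨c, rfl⟩ := Ideal.mem_span_singleton'.1 hk
    rw [map_add, h1 g hg, map_mul, h2, mul_zero, add_zero]

private theorem lt_sup_of {n : ℕ} {J : Ideal (MvPolynomial (Fin n) ℝ)}
    {a : MvPolynomial (Fin n) ℝ} (ha : a ∉ J) : J < J ⊔ Ideal.span {a} := by
  refine lt_of_le_of_ne le_sup_left fun h => ha ?_
  rw [h]
  exact Ideal.mem_sup_right (Ideal.mem_span_singleton_self a)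

private theorem map_ev {n : ℕ} {J : Ideal (MvPolynomial (Fin n) ℝ)} {x : Fin n → ℝ}
    (hx : x ∈ VJ J) : ∃ φ : (MvPolynomial (Fin n) ℝ ⧸ J) →+* ℝ,
      (∀ f, φ (Ideal.Quotient.mk J f) = eval x f) ∧
      ∀ p : Polynomial (MvPolynomial (Fin n) ℝ),
        (p.map (Ideal.Quotient.mk J)).map φ = p.map (eval x) := by
  refine ⟨Ideal.Quotient.lift J (eval x) hx, fun f => Ideal.Quotient.lift_mk _ _ _, fun p => ?_⟩
  rw [Polynomial.map_map]
  congr 1

private theorem quo_rad {n : ℕ} {J : Ideal (MvPolynomial (Fin n) ℝ)} (hJ : J.IsPrime)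
    {p q : Polynomial (MvPolynomial (Fin n) ℝ)} (hp : p.map (Ideal.Quotient.mk J) ≠ 0)
    (hq : q.map (Ideal.Quotient.mk J) ≠ 0) :
    ∃ (S : Polynomial (MvPolynomial (Fin n) ℝ)) (D : MvPolynomial (Fin n) ℝ) (d : ℕ), D ∉ J ∧
      ∀ x ∈ VJ J, eval x D ≠ 0 →
        (S.map (eval x)).natDegree = d ∧ S.map (eval x) ≠ 0 ∧
        (∀ t : ℝ, ((p.map (eval x)).IsRoot t ∧ ¬ (q.map (eval x)).IsRoot t) ↔
          (S.map (eval x)).IsRoot t) ∧
        ∀ t : ℝ, (S.map (eval x)).IsRoot t →
          ¬ (Polynomial.derivative (S.map (eval x))).IsRoot t := by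
  have hdom : IsDomain (MvPolynomial (Fin n) ℝ ⧸ J) := Ideal.Quotient.isDomain J
  have hch : CharZero (MvPolynomial (Fin n) ℝ ⧸ J) :=
    charZero_of_injective_algebraMap (R := ℝ) (algebraMap ℝ _).injective
  obtain ⟨S, D, hD, h⟩ := exists_radq hp hq
  obtain ⟨S', rfl⟩ := Polynomial.map_surjective _ Ideal.Quotient.mk_surjective S
  obtain ⟨D', rfl⟩ := Ideal.Quotient.mk_surjective D
  refine ⟨S', D', (S'.map (Ideal.Quotient.mk J)).natDegree,
    fun h0 => hD (Ideal.Quotient.eq_zero_iff_mem.2 h0), fun x hx hDx => ?_⟩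
  obtain ⟨φ, h1, h2⟩ := map_ev hx
  have := h φ (by rw [h1]; exact hDx)
  rw [h2, h2, h2] at this
  exact this

private theorem step {n : ℕ}
    (ih : ∀ P Q : MvPolynomial (Fin n) ℝ, FC {x : Fin n → ℝ | eval x P = 0 ∧ eval x Q ≠ 0})
    (p q : Polynomial (MvPolynomial (Fin n) ℝ)) (J : Ideal (MvPolynomial (Fin n) ℝ)) :
    FC {z : (Fin n → ℝ) × ℝ | z.1 ∈ VJ J ∧ (p.map (eval z.1)).eval z.2 = 0 ∧
      (q.map (eval z.1)).eval z.2 ≠ 0} := by
  refine IsNoetherian.induction (P := fun J => FC {z : (Fin n → ℝ) × ℝ | z.1 ∈ VJ J ∧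
    (p.map (eval z.1)).eval z.2 = 0 ∧ (q.map (eval z.1)).eval z.2 ≠ 0}) ?_ J
  intro (J : Ideal (MvPolynomial (Fin n) ℝ)) hJ
  by_cases h1 : J = ⊤
  · convert FC.empty using 1
    ext z
    simp only [mem_ofPred_eq, mem_empty_iff_false, iff_false, not_and]
    intro h2
    exfalso
    have := h2 1 (by rw [h1]; trivial)
    rw [map_one] at this
    exact one_ne_zero this
  by_cases h2 : J.IsPrime
  · -- the open part over `D ≠ 0`
    have key : ∀ (S : Polynomial (MvPolynomial (Fin n) ℝ)) (D : MvPolynomial (Fin n) ℝ) (d : ℕ),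
        (∀ x ∈ VJ J, eval x D ≠ 0 → (S.map (eval x)).natDegree = d ∧ S.map (eval x) ≠ 0 ∧
          ∀ t : ℝ, (S.map (eval x)).IsRoot t →
            ¬ (Polynomial.derivative (S.map (eval x))).IsRoot t) →
        FC {z : (Fin n → ℝ) × ℝ | z.1 ∈ {x | x ∈ VJ J ∧ eval x D ≠ 0} ∧
          (S.map (eval z.1)).eval z.2 ≠ 0} ∧
        FC {z : (Fin n → ℝ) × ℝ | z.1 ∈ {x | x ∈ VJ J ∧ eval x D ≠ 0} ∧
          (S.map (eval z.1)).eval z.2 = 0} := by
      intro S D d h
      obtain ⟨P, hP⟩ := one_pol J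
      have hU : FC {x : Fin n → ℝ | x ∈ VJ J ∧ eval x D ≠ 0} := by
        have := ih P D
        simpa only [hP] using this
      exact bands hU (p := fun x => S.map (eval x)) (d := d)
        (fun i => by
          simp only [Polynomial.coeff_map]
          exact (MvPolynomial.continuous_eval _).continuousOn)
        (fun x hx => (h x hx.1 hx.2).1) (fun x hx => (h x hx.1 hx.2).2.1)
        (fun x hx => (h x hx.1 hx.2).2.2)
    have split : ∀ D : MvPolynomial (Fin n) ℝ, D ∉ J →
        FC {z : (Fin n → ℝ) × ℝ | z.1 ∈ {x | x ∈ VJ J ∧ eval x D ≠ 0} ∧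
          (p.map (eval z.1)).eval z.2 = 0 ∧ (q.map (eval z.1)).eval z.2 ≠ 0} →
        FC {z : (Fin n → ℝ) × ℝ | z.1 ∈ VJ J ∧ (p.map (eval z.1)).eval z.2 = 0 ∧
          (q.map (eval z.1)).eval z.2 ≠ 0} := by
      intro D hD h
      convert h.union (hJ _ (lt_sup_of hD)) using 1
      ext z
      simp only [mem_union, mem_ofPred_eq, mem_VJ_sup]
      tauto
    by_cases hq : q.map (Ideal.Quotient.mk J) = 0
    · convert FC.empty using 1
      ext z
      simp only [mem_ofPred_eq, mem_empty_iff_false, iff_false]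
      rintro ⟨h3, -, h4⟩
      obtain ⟨φ, -, h5⟩ := map_ev h3
      rw [← h5, hq, Polynomial.map_zero, Polynomial.eval_zero] at h4
      exact h4 rfl
    by_cases hp : p.map (Ideal.Quotient.mk J) = 0
    · have h10 : (1 : Polynomial (MvPolynomial (Fin n) ℝ)).map (Ideal.Quotient.mk J) ≠ 0 := by
        rw [Polynomial.map_one]
        have hdom : IsDomain (MvPolynomial (Fin n) ℝ ⧸ J) := Ideal.Quotient.isDomain J
        exact one_ne_zero
      obtain ⟨S, D, d, hD, h⟩ := quo_rad h2 hq h10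
      refine split D hD ?_
      convert (key S D d fun x hx hx' => ⟨(h x hx hx').1, (h x hx hx').2.1,
        (h x hx hx').2.2.2⟩).1 using 1
      ext z
      simp only [mem_ofPred_eq]
      refine and_congr_right fun h3 => ?_
      obtain ⟨φ, -, h5⟩ := map_ev h3.1
      have h6 : (p.map (eval z.1)).eval z.2 = 0 := by
        rw [← h5, hp, Polynomial.map_zero, Polynomial.eval_zero]
      have h7 := (h z.1 h3.1 h3.2).2.2.1 z.2
      simp only [Polynomial.IsRoot, Polynomial.map_one, Polynomial.eval_one, one_ne_zero,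
        not_false_eq_true, and_true] at h7
      exact ⟨fun h => (not_congr h7).1 h.2, fun h => ⟨h6, (not_congr h7).2 h⟩⟩
    · obtain ⟨S, D, d, hD, h⟩ := quo_rad h2 hp hq
      refine split D hD ?_
      convert (key S D d fun x hx hx' => ⟨(h x hx hx').1, (h x hx hx').2.1,
        (h x hx hx').2.2.2⟩).2 using 1
      ext z
      simp only [mem_ofPred_eq]
      exact and_congr_right fun h3 => (h z.1 h3.1 h3.2).2.2.1 z.2
  · rw [Ideal.isPrime_iff] at h2
    push Not at h2
    obtain ⟨a, b, hab, ha, hb⟩ := h2 h1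
    convert (hJ _ (lt_sup_of ha)).union (hJ _ (lt_sup_of hb)) using 1
    ext z
    simp only [mem_union, mem_ofPred_eq, mem_VJ_sup]
    constructor
    · rintro ⟨h3, h4⟩
      have h5 := h3 _ hab
      rw [map_mul, mul_eq_zero] at h5
      rcases h5 with h5 | h5
      · exact Or.inl ⟨⟨h3, h5⟩, h4⟩
      · exact Or.inr ⟨⟨h3, h5⟩, h4⟩
    · rintro (h | h)
      · exact ⟨h.1.1, h.2⟩
      · exact ⟨h.1.1, h.2⟩

theorem fc_alg {n : ℕ} (P Q : MvPolynomial (Fin n) ℝ) :
    FC {x : Fin n → ℝ | eval x P = 0 ∧ eval x Q ≠ 0} := by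
  induction n with
  | zero => exact FC.of_preconnected (Set.subsingleton_of_subsingleton.isPreconnected)
  | succ n ih =>
    have h := step ih (finSuccEquiv ℝ n P) (finSuccEquiv ℝ n Q) ⊥
    have hcont : Continuous (fun z : (Fin n → ℝ) × ℝ => (Fin.cons z.2 z.1 : Fin (n + 1) → ℝ)) := by
      refine continuous_pi fun i => ?_
      refine Fin.cases ?_ (fun j => ?_) i
      · simp only [Fin.cons_zero]
        exact continuous_snd
      · simp only [Fin.cons_succ]
        exact (continuous_apply j).comp continuous_fst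
    convert h.image (f := fun z : (Fin n → ℝ) × ℝ => (Fin.cons z.2 z.1 : Fin (n + 1) → ℝ))
      hcont.continuousOn using 1
    ext x
    simp only [mem_ofPred_eq, mem_image, Prod.exists]
    constructor
    · rintro ⟨h1, h2⟩
      refine ⟨Fin.tail x, x 0, ⟨?_, ?_, ?_⟩, Fin.cons_self_tail x⟩
      · intro f hf
        rw [Ideal.mem_bot.1 hf, map_zero]
      · rw [← eval_eq_eval_mv_eval', Fin.cons_self_tail]; exact h1
      · rw [← eval_eq_eval_mv_eval', Fin.cons_self_tail]; exact h2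
    · rintro ⟨y, t, ⟨-, h1, h2⟩, rfl⟩
      rw [eval_eq_eval_mv_eval', eval_eq_eval_mv_eval']
      exact ⟨h1, h2⟩

theorem fc_alg' {σ : Type*} [Finite σ] (P Q : MvPolynomial σ ℝ) :
    FC {x : σ → ℝ | eval x P = 0 ∧ eval x Q ≠ 0} := by
  obtain ⟨n, ⟨e⟩⟩ := Finite.exists_equiv_fin σ
  have h := fc_alg (rename e P) (rename e Q)
  have hcont : Continuous (fun y : Fin n → ℝ => (fun i => y (e i) : σ → ℝ)) :=
    continuous_pi fun i => continuous_apply (e i)
  convert h.image hcont.continuousOn using 1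
  ext x
  simp only [mem_ofPred_eq, mem_image, eval_rename]
  constructor
  · rintro ⟨h1, h2⟩
    refine ⟨fun i => x (e.symm i), ⟨?_, ?_⟩, ?_⟩
    · have : (fun i => x (e.symm i)) ∘ e = x := by
        funext i; simp
      rw [this]; exact h1
    · have : (fun i => x (e.symm i)) ∘ e = x := by
        funext i; simp
      rw [this]; exact h2
    · funext i; simp
  · rintro ⟨y, h1, rfl⟩
    exact h1

end Pool.Agent.QTW
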