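import Pool.Agent.QS.Tsec
import Pool.Agent.QTW.Tw

/-!
# Project QTW: bad points lie in finitely many square classes

`SecP B`: as `QS.Qrt.Sec`, for an arbitrary set of real points with `F > 0`.
`exists_secP` (as `QS.Qrt.exists_sec_cover`): every set of points with `F > 0` and without good sheets is a finite union of
irreducible sets with `SecP`.
`bad_pos`: apply this to the set of all rational points with `F > 0` whose sheet is bad. On a piece `B i` with a point `b` we have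
`c4 b y p = 0`, i.e. `F b ^ 3 * F p = w ^ 2` with `w = 3 F b * T b b p p - 2 (T b b b p) ^ 2` rational, so `F p` is in the class of
`F b`. `bad_classes`: also for `- F`.
-/

set_option autoImplicit false

open Set Topology Filter MvPolynomial
open Pool.Agent.MZ

namespace Pool.Agent.QS

namespace Qrt

variable {m : ℕ} {C : Qrt m}

/-- all secants of `B` are squares -/
def SecP (C : Qrt m) (B : Set (V m)) : Prop :=
  (∀ a ∈ B, 0 < C.F a) ∧ ∀ a ∈ B, ∀ b ∈ B, ∀ y, C.Sh a y → C.c3 a y b = 0 ∧ C.c4 a y b = 0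

private theorem tb_sh_eq {p : V m} {y y' : ℝ} (h : C.Sh p y) (h' : C.Sh p y') :
    y' = y ∨ y' = -y := sq_eq_sq_iff_eq_or_eq_neg.1 (by rw [← h'.2, ← h.2])

theorem tb_c4_eq {a b : V m} {y : ℝ} (h : C.Sh a y) :
    (C.F a) ^ 3 * C.c4 a y b =
      (C.F a) ^ 3 * C.F b - (3 * C.F a * C.T a a b b - 2 * (C.T a a a b) ^ 2) ^ 2 := by
  have hy : y ≠ 0 := h.1
  unfold c4 q
  rw [h.2]
  field_simp

theorem secP_one {B : Set (V m)} (hI : Irr B) (hS : ∀ a ∈ B, 0 < C.F a)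
    (h : ∀ a ∈ B, ∀ y, C.Sh a y → ∀ x, C.c3 a y x = 0) : C.SecP B := by
  refine ⟨hS, ?_⟩
  have hcst : ∀ a : V m, ∀ i, PolyR m fun _ => a i := fun a i => PolyR.const _
  have hcrd : ∀ i, PolyR m fun x : V m => x i := fun i => PolyR.coord i
  have hf1 : ∀ b, PolyR m fun a => (C.F a) ^ 3 * C.F b -
      (3 * C.F a * C.T a a b b - 2 * (C.T a a a b) ^ 2) ^ 2 := by
    intro b
    have h1 : PolyR m fun a => 3 * C.F a * C.T a a b b - 2 * (C.T a a a b * C.T a a a b) :=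
      (((PolyR.const 3).mul C.polyR_F).mul (C.polyR_T hcrd hcrd (hcst b) (hcst b))).sub
        ((PolyR.const 2).mul ((C.polyR_T hcrd hcrd hcrd (hcst b)).mul
          (C.polyR_T hcrd hcrd hcrd (hcst b))))
    have h2 := (((C.polyR_F.mul C.polyR_F).mul C.polyR_F).mul (PolyR.const (C.F b))).sub
      (h1.mul h1)
    have e : (fun a => (C.F a) ^ 3 * C.F b -
        (3 * C.F a * C.T a a b b - 2 * (C.T a a a b) ^ 2) ^ 2) =
        fun a => C.F a * C.F a * C.F a * C.F b -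
          (3 * C.F a * C.T a a b b - 2 * (C.T a a a b * C.T a a a b)) *
          (3 * C.F a * C.T a a b b - 2 * (C.T a a a b * C.T a a a b)) := by
      funext a
      ring
    rw [e]
    exact h2
  have hf2 : ∀ a, PolyR m fun b => (C.F a) ^ 3 * C.F b -
      (3 * C.F a * C.T a a b b - 2 * (C.T a a a b) ^ 2) ^ 2 := by
    intro a
    have h1 : PolyR m fun b => 3 * C.F a * C.T a a b b - 2 * (C.T a a a b * C.T a a a b) :=
      ((PolyR.const (3 * C.F a)).mul (C.polyR_T (hcst a) (hcst a) hcrd hcrd)).sub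
        ((PolyR.const 2).mul ((C.polyR_T (hcst a) (hcst a) (hcst a) hcrd).mul
          (C.polyR_T (hcst a) (hcst a) (hcst a) hcrd)))
    have h2 := ((PolyR.const ((C.F a) ^ 3)).mul C.polyR_F).sub (h1.mul h1)
    have e : (fun b => (C.F a) ^ 3 * C.F b -
        (3 * C.F a * C.T a a b b - 2 * (C.T a a a b) ^ 2) ^ 2) =
        fun b => (C.F a) ^ 3 * C.F b -
          (3 * C.F a * C.T a a b b - 2 * (C.T a a a b * C.T a a a b)) *
          (3 * C.F a * C.T a a b b - 2 * (C.T a a a b * C.T a a a b)) := by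
      funext b
      ring
    rw [e]
    exact h2
  have hg1 : ∀ b, PolyR m fun a => C.T a a a b * (2 * C.T a a a b * C.T a b b b -
      C.F a * C.F b) := by
    intro b
    exact (C.polyR_T hcrd hcrd hcrd (hcst b)).mul
      ((((PolyR.const 2).mul (C.polyR_T hcrd hcrd hcrd (hcst b))).mul
        (C.polyR_T hcrd (hcst b) (hcst b) (hcst b))).sub (C.polyR_F.mul (PolyR.const (C.F b))))
  have hg2 : ∀ a, PolyR m fun b => C.T a a a b * (2 * C.T a a a b * C.T a b b b -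
      C.F a * C.F b) := by
    intro a
    exact (C.polyR_T (hcst a) (hcst a) (hcst a) hcrd).mul
      ((((PolyR.const 2).mul (C.polyR_T (hcst a) (hcst a) (hcst a) hcrd)).mul
        (C.polyR_T (hcst a) hcrd hcrd hcrd)).sub ((PolyR.const (C.F a)).mul C.polyR_F))
  have hprod : ∀ a ∈ B, ∀ b ∈ B, ((C.F a) ^ 3 * C.F b -
      (3 * C.F a * C.T a a b b - 2 * (C.T a a a b) ^ 2) ^ 2) *
      (C.T a a a b * (2 * C.T a a a b * C.T a b b b - C.F a * C.F b)) = 0 := by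
    intro a ha b hb
    have hya := exists_Sh (hS a ha)
    have hyb := exists_Sh (hS b hb)
    rw [← tb_c4_eq (b := b) hya]
    rcases pair1 hya hyb (h a ha _ hya) (h b hb _ hyb) with h1 | h1 | h1
    · rw [h1]
      ring
    · rw [h1]
      ring
    · rw [h1]
      ring
  rcases hI.pair hf1 hf2 hg1 hg2 hprod with h1 | h1
  · intro a ha b hb y hy
    refine ⟨h a ha y hy b, ?_⟩
    have h2 := tb_c4_eq (b := b) hy
    rw [h1 a ha b hb] at h2
    have h3 : (C.F a) ^ 3 ≠ 0 := pow_ne_zero 3 (hS a ha).ne'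
    exact (mul_eq_zero.1 h2).resolve_left h3
  · exfalso
    obtain ⟨a, ha⟩ := hI.1
    have h2 := h1 a ha a ha
    have h3 := hS a ha
    have h4 : C.T a a a a = C.F a := rfl
    rw [h4] at h2
    have h5 : C.F a * (2 * C.F a * C.F a - C.F a * C.F a) = (C.F a) ^ 3 := by ring
    rw [h5] at h2
    exact pow_ne_zero 3 h3.ne' h2

theorem secP_two {B : Set (V m)} (hS : ∀ a ∈ B, 0 < C.F a) {a₀ : V m →ₗ[ℝ] ℝ}
    (hB : ∀ a ∈ B, a₀ a ≠ 0 ∧ ∃ y, C.Sh a y ∧
      (∀ x, a₀ a * C.c4 a y x = 4 * C.c3 a y x * a₀ x) ∧ ∀ x, a₀ x = 0 → C.q a y x x = 0) :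
    C.SecP B := by
  refine ⟨hS, ?_⟩
  intro a ha b hb y hy
  obtain ⟨ha0, ya, hya, hya4, hyaq⟩ := hB a ha
  obtain ⟨hb0, yb, hyb, hyb4, hybq⟩ := hB b hb
  have h1 : C.c3 a ya b = 0 := pair2 hya hyb ha0 hb0 hya4 hyb4 hyaq hybq
  have h2 : C.c4 a ya b = 0 := by
    have h3 := hya4 b
    rw [h1, mul_zero, zero_mul] at h3
    exact (mul_eq_zero.1 h3).resolve_left ha0
  rcases tb_sh_eq hya hy with h3 | h3
  · rw [h3]
    exact ⟨h1, h2⟩
  · rw [h3, c3_neg_y, c4_neg_y]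
    exact ⟨h1, h2⟩

private theorem tb_glue {ι : Type*} [Finite ι] {S : Set (V m)} (A : ι → Set (V m))
    (hA : ∀ i, ∀ B : Set (V m), Irr B → B ⊆ A i → C.SecP B) (hS : S = ⋃ i, A i) :
    ∃ (k : ℕ) (B : Fin k → Set (V m)), (∀ i, Irr (B i)) ∧ (∀ i, C.SecP (B i)) ∧
      S = ⋃ i, B i := by
  choose k B hB hAB using fun i => exists_irr_cover (A i)
  obtain ⟨n, ⟨e⟩⟩ := Finite.exists_equiv_fin (Σ i : ι, Fin (k i))
  refine ⟨n, fun j => B (e.symm j).1 (e.symm j).2, fun j => hB _ _, fun j => ?_, ?_⟩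
  · refine hA (e.symm j).1 _ (hB _ _) ?_
    rw [hAB (e.symm j).1]
    exact subset_iUnion (B (e.symm j).1) (e.symm j).2
  · ext x
    rw [hS, mem_iUnion, mem_iUnion]
    constructor
    · rintro ⟨i, hi⟩
      rw [hAB i, mem_iUnion] at hi
      obtain ⟨j, hj⟩ := hi
      refine ⟨e ⟨i, j⟩, ?_⟩
      rw [e.symm_apply_apply]
      exact hj
    · rintro ⟨j, hj⟩
      refine ⟨(e.symm j).1, ?_⟩
      rw [hAB (e.symm j).1, mem_iUnion]
      exact ⟨_, hj⟩

theorem exists_secP {S : Set (V m)}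
    (hbad : ∀ p ∈ S, 0 < C.F p ∧ ¬ C.Good p (Real.sqrt (C.F p))) :
    ∃ (k : ℕ) (B : Fin k → Set (V m)), (∀ i, Irr (B i)) ∧ (∀ i, C.SecP (B i)) ∧
      S = ⋃ i, B i := by
  rcases S.eq_empty_or_nonempty with hem | ⟨e, he⟩
  · refine ⟨0, fun _ => ∅, fun i => i.elim0, fun i => i.elim0, ?_⟩
    rw [hem, iUnion_of_empty]
  have heF : C.F e ≠ 0 := (hbad e he).1.ne'
  have hfin := finite_lin (C := C) heF
  have : Finite {b : V m →ₗ[ℝ] ℝ | b e = 1 ∧ ∀ x, b x = 0 → C.F x = 0} := hfin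
  refine tb_glue (ι := Option {b : V m →ₗ[ℝ] ℝ | b e = 1 ∧ ∀ x, b x = 0 → C.F x = 0})
    (fun i => Option.elim i {p | p ∈ S ∧ ∀ y, C.Sh p y → ∀ x, C.c3 p y x = 0}
      fun b => {p | p ∈ S ∧ b.1 p ≠ 0 ∧ ∃ y, C.Sh p y ∧
        (∀ x, b.1 p * C.c4 p y x = 4 * C.c3 p y x * b.1 x) ∧
        ∀ x, b.1 x = 0 → C.q p y x x = 0}) ?_ ?_
  · intro i B hI hB
    cases i with
    | none => exact secP_one hI (fun a ha => (hbad a (hB ha).1).1) fun a ha => (hB ha).2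
    | some b => exact secP_two (fun a ha => (hbad a (hB ha).1).1) (a₀ := b.1) fun a ha => (hB ha).2
  · ext p
    rw [mem_iUnion]
    constructor
    · intro hp
      obtain ⟨hpos, hg⟩ := hbad p hp
      have hSh : C.Sh p (Real.sqrt (C.F p)) := exists_Sh hpos
      by_cases h3 : ∀ x, C.c3 p (Real.sqrt (C.F p)) x = 0
      · refine ⟨none, hp, ?_⟩
        intro y' hy' x
        rcases tb_sh_eq hSh hy' with h4 | h4
        · rw [h4]
          exact h3 x
        · rw [h4, c3_neg_y]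
          exact h3 x
      · have hq := (not_good hg).resolve_left h3
        push Not at h3
        obtain ⟨b, hb1, hb2, hb3⟩ := type2 hSh h3 hq
        have hbe : b e ≠ 0 := fun h5 => heF (hb3 e h5).2
        have hz : ∀ x, ((b e)⁻¹ • b) x = 0 → b x = 0 := by
          intro x hx
          rw [LinearMap.smul_apply, smul_eq_mul] at hx
          exact (mul_eq_zero.1 hx).resolve_left (inv_ne_zero hbe)
        refine ⟨some ⟨(b e)⁻¹ • b, ?_, fun x hx => (hb3 x (hz x hx)).2⟩, hp, ?_, _, hSh, ?_, ?_⟩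
        · rw [LinearMap.smul_apply, smul_eq_mul, inv_mul_cancel₀ hbe]
        · show ((b e)⁻¹ • b) p ≠ 0
          rw [LinearMap.smul_apply, smul_eq_mul, hb1, mul_one]
          exact inv_ne_zero hbe
        · intro x
          show ((b e)⁻¹ • b) p * C.c4 p _ x = 4 * C.c3 p _ x * ((b e)⁻¹ • b) x
          rw [LinearMap.smul_apply, LinearMap.smul_apply, smul_eq_mul, smul_eq_mul, hb1, hb2 x]
          ring
        · intro x hx
          exact (hb3 x (hz x hx)).1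
    · rintro ⟨i, hi⟩
      cases i with
      | none => exact hi.1
      | some b => exact hi.1

theorem bad_pos (C : Qrt m) : ∃ E : Finset ℚ, (∀ e ∈ E, e ≠ 0) ∧ ∀ a : ℚ, 0 < a →
    ∀ z ∈ (C.tw a).Sr, ¬ (C.tw a).Good z.1 z.2 → ∃ e ∈ E, ∃ r : ℚ, r ≠ 0 ∧ a = e * r ^ 2 := by
  classical
  obtain ⟨k, B, hI, hB, hU⟩ := exists_secP (C := C)
    (S := {p | IsRat p ∧ 0 < C.F p ∧ ¬ C.Good p (Real.sqrt (C.F p))}) fun p hp => hp.2
  have hBs : ∀ i, ∀ p ∈ B i, IsRat p ∧ 0 < C.F p := by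
    intro i p hp
    have h1 : p ∈ {p | IsRat p ∧ 0 < C.F p ∧ ¬ C.Good p (Real.sqrt (C.F p))} := by
      rw [hU]
      exact mem_iUnion.2 ⟨i, hp⟩
    exact ⟨h1.1, h1.2.1⟩
  choose b hb using fun i => (hI i).1
  have he : ∀ i, ∃ e : ℚ, e ≠ 0 ∧ C.F (b i) = e := by
    intro i
    obtain ⟨e, he⟩ := isQ_F (C := C) (hBs i _ (hb i)).1
    refine ⟨e, ?_, he⟩
    rintro rfl
    have h1 := (hBs i _ (hb i)).2
    rw [he] at h1
    norm_num at h1
  choose e he0 he using he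
  refine ⟨Finset.univ.image e, ?_, ?_⟩
  · intro x hx
    obtain ⟨i, -, rfl⟩ := Finset.mem_image.1 hx
    exact he0 i
  rintro a ha ⟨p, y⟩ ⟨hp, ⟨y', hy'⟩, hSh⟩ hg
  have hp : IsRat p := hp
  have hy' : y = (y' : ℝ) := hy'
  subst hy'
  have hSh : (C.tw a).Sh p y' := hSh
  have hg : ¬ (C.tw a).Good p y' := hg
  have haR : (0 : ℝ) < a := by exact_mod_cast ha
  have hc : (Real.sqrt a) ^ 2 = a := Real.sq_sqrt haR.le
  rw [Sh_tw ha.ne' hc] at hSh
  rw [good_tw ha.ne' hc] at hg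
  have hpos : 0 < C.F p := hSh.pos
  have hgs : ¬ C.Good p (Real.sqrt (C.F p)) := by
    rcases tb_sh_eq hSh (exists_Sh hpos) with h1 | h1
    · rwa [h1]
    · rwa [h1, good_neg_y]
  have hpU : p ∈ {p | IsRat p ∧ 0 < C.F p ∧ ¬ C.Good p (Real.sqrt (C.F p))} := ⟨hp, hpos, hgs⟩
  rw [hU, mem_iUnion] at hpU
  obtain ⟨i, hi⟩ := hpU
  refine ⟨e i, Finset.mem_image.2 ⟨i, Finset.mem_univ i, rfl⟩, ?_⟩
  have hyb := exists_Sh (hBs i _ (hb i)).2
  have h1 := ((hB i).2 _ (hb i) _ hi _ hyb).2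
  have h2 := tb_c4_eq (b := p) hyb
  rw [h1, mul_zero] at h2
  have hbr := (hBs i _ (hb i)).1
  obtain ⟨t1, ht1⟩ := C.rat _ _ _ _ hbr hbr hp hp
  obtain ⟨t2, ht2⟩ := C.rat _ _ _ _ hbr hbr hbr hp
  have hFp : C.F p = (a : ℝ) * (y' : ℝ) ^ 2 := by
    rw [hSh.2, mul_pow, hc]
  rw [ht1, ht2, he i, hFp] at h2
  have h3 : (e i) ^ 3 * (a * y' ^ 2) = (3 * e i * t1 - 2 * t2 ^ 2) ^ 2 := by
    have h4 : ((e i : ℝ)) ^ 3 * ((a : ℝ) * (y' : ℝ) ^ 2) =
        (3 * (e i : ℝ) * t1 - 2 * (t2 : ℝ) ^ 2) ^ 2 := by linarith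
    exact_mod_cast h4
  have hy0 : y' ≠ 0 := by
    rintro rfl
    have := hSh.1
    simp at this
  have hw : 3 * e i * t1 - 2 * t2 ^ 2 ≠ 0 := by
    intro h5
    rw [h5] at h3
    have h6 : (e i) ^ 3 * (a * y' ^ 2) ≠ 0 :=
      mul_ne_zero (pow_ne_zero 3 (he0 i)) (mul_ne_zero ha.ne' (pow_ne_zero 2 hy0))
    exact h6 (by rw [h3]; norm_num)
  refine ⟨(3 * e i * t1 - 2 * t2 ^ 2) / (y' * e i ^ 2),
    div_ne_zero hw (mul_ne_zero hy0 (pow_ne_zero 2 (he0 i))), ?_⟩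
  have h0 := he0 i
  rw [div_pow, ← h3]
  field_simp

/-- bad points lie in finitely many classes -/
theorem bad_classes (C : Qrt m) : ∃ E : Finset ℚ, (∀ e ∈ E, e ≠ 0) ∧ ∀ a : ℚ, a ≠ 0 →
    ∀ z ∈ (C.tw a).Sr, ¬ (C.tw a).Good z.1 z.2 → ∃ e ∈ E, ∃ r : ℚ, r ≠ 0 ∧ a = e * r ^ 2 := by
  classical
  obtain ⟨E, hE0, hE⟩ := bad_pos C
  obtain ⟨E', hE0', hE'⟩ := bad_pos (C.tw (-1))
  refine ⟨E ∪ E'.image fun e => -e, ?_, ?_⟩
  · intro e he
    rcases Finset.mem_union.1 he with h | h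
    · exact hE0 e h
    · obtain ⟨e', h', rfl⟩ := Finset.mem_image.1 h
      exact neg_ne_zero.2 (hE0' e' h')
  · intro a ha z hz hg
    rcases lt_or_gt_of_ne ha with h | h
    · have h1 : (C.tw (-1)).tw (-a) = C.tw a := by
        rw [tw_tw]
        congr 1
        ring
      obtain ⟨e, he, r, hr, hr'⟩ := hE' (-a) (neg_pos.2 h) z (by rwa [h1]) (by rwa [h1])
      refine ⟨-e, Finset.mem_union_right _ (Finset.mem_image.2 ⟨e, he, rfl⟩), r, hr, ?_⟩
      linarith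
    · obtain ⟨e, he, r, hr, hr'⟩ := hE a h z hz hg
      exact ⟨e, Finset.mem_union_left _ he, r, hr, hr'⟩

end Qrt

end Pool.Agent.QS
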