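import Pool.Agent.QS.Dich
import Pool.Agent.QTW.Tb
import Pool.Agent.QTW.Bqg

/-!
# Project QTW: the uniform dichotomy

`uni`: for every quartic form `F` with rational coefficients there is a finite set `E` of nonzero rational numbers such that for every
`a ≠ 0` outside the square classes of `E` either `F` represents no number of the class of `a`, or the closure of the set of the
rational points where it does is a neighbourhood of each of its points with `F / a > 0`.
PROOF. We may assume `F p₀ = a₀ ≠ 0`, `p₀` rational. If `F / a₀` is the square of a real quadratic form then it is the square of a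
rational one, and `E = {a₀}`. Otherwise no `F / a` is. If `F` depends on two linear forms: `bin_uni`. Otherwise `bad_classes`: outside
finitely many classes every rational sheet is good, and `bin_of_good` shows that `Z` has an interior point with `F / a > 0`.
-/

set_option autoImplicit false

open Set Topology Filter MvPolynomial
open Pool.Agent.MZ

namespace Pool.Agent.QS

namespace Qrt

variable {m : ℕ} (C : Qrt m)

theorem uni : ∃ E : Finset ℚ, (∀ e ∈ E, e ≠ 0) ∧
    ∀ a : ℚ, a ≠ 0 → (∃ e ∈ E, ∃ r : ℚ, r ≠ 0 ∧ a = e * r ^ 2) ∨ (C.tw a).S = ∅ ∨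
      (C.tw a).Opn := by
  by_cases h0 : ∀ x, IsRat x → C.F x = 0
  · refine ⟨∅, fun e he => absurd he (Finset.notMem_empty e), fun a ha => Or.inr (Or.inl ?_)⟩
    rw [eq_empty_iff_forall_notMem]
    intro x hx
    obtain ⟨hxr, r, hr, hF⟩ := (mem_S_tw' ha).1 hx
    rw [h0 x hxr] at hF
    have haR : (a : ℝ) ≠ 0 := by exact_mod_cast ha
    have hrR : (r : ℝ) ≠ 0 := by exact_mod_cast hr
    exact mul_ne_zero haR (pow_ne_zero 2 hrR) hF.symm
  push Not at h0
  obtain ⟨p₀, hp, hp0⟩ := h0
  obtain ⟨a₀, hF⟩ := isQ_F (C := C) hp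
  have ha₀ : a₀ ≠ 0 := by
    rintro rfl
    apply hp0
    rw [hF]
    norm_num
  by_cases hsq : (C.tw a₀).Sq
  · refine ⟨{a₀}, fun e he => by rw [Finset.mem_singleton.1 he]; exact ha₀, fun a ha => ?_⟩
    rcases (C.tw a).S.eq_empty_or_nonempty with hS | ⟨z, hz⟩
    · exact Or.inr (Or.inl hS)
    left
    obtain ⟨y, hyr, hy, hsh⟩ := exists_Sr (mem_S_self hp ha₀ hF)
    have hyr' : IsRat p₀ := hyr
    have hy' : IsQ y := hy
    have hsh' : (C.tw a₀).Sh p₀ y := hsh
    have hq : ∀ x, (C.tw a₀).F x = ((C.tw a₀).q p₀ y x x) ^ 2 := by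
      intro x
      have h1 := (of_sq hsq hsh' x).1
      unfold c4 at h1
      linarith
    obtain ⟨hzr, r, hr, hFz⟩ := (mem_S_tw' ha).1 hz
    have hFz0 : (C.tw a₀).F z ≠ 0 := by
      rw [C.tw_F, hFz]
      have haR : (a : ℝ) ≠ 0 := by exact_mod_cast ha
      have hrR : (r : ℝ) ≠ 0 := by exact_mod_cast hr
      have ha₀R : (a₀ : ℝ) ≠ 0 := by exact_mod_cast ha₀
      exact mul_ne_zero (inv_ne_zero ha₀R) (mul_ne_zero haR (pow_ne_zero 2 hrR))
    have hz₀ : z ∈ (C.tw a₀).S := by
      refine ⟨hzr, (C.tw a₀).q p₀ y z z, isQ_q hyr' hy' hzr hzr, ?_, hq z⟩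
      intro h
      apply hFz0
      rw [hq, h]
      ring
    obtain ⟨s, hs, hs'⟩ := class_eq ha ha₀ hz hz₀
    exact ⟨a₀, Finset.mem_singleton_self _, s, hs, hs'⟩
  by_cases hb : C.Bin
  · obtain ⟨E, hE0, hE⟩ := bin_uni hb hp ha₀ hF hsq
    refine ⟨E, hE0, fun a ha => ?_⟩
    rcases hE a ha with h | h | ⟨o, h1, h2⟩
    · exact Or.inl h
    · exact Or.inr (Or.inl h)
    · exact Or.inr (Or.inr (opn_of_interior (fun h => hsq (sq_tw_of ha ha₀ hF h)) h1 h2))
  · obtain ⟨E, hE0, hE⟩ := bad_classes C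
    refine ⟨E, hE0, fun a ha => ?_⟩
    by_cases hcl : ∃ e ∈ E, ∃ r : ℚ, r ≠ 0 ∧ a = e * r ^ 2
    · exact Or.inl hcl
    rcases (C.tw a).S.eq_empty_or_nonempty with hS | ⟨z, hz⟩
    · exact Or.inr (Or.inl hS)
    right; right
    have hns : ¬ (C.tw a).Sq := fun h => hsq (sq_tw_of ha ha₀ hF h)
    obtain ⟨y, hy⟩ := exists_Sr hz
    have hg : (C.tw a).Good z y := by
      by_contra hg
      exact hcl (hE a ha (z, y) hy hg)
    by_contra hop
    have hT : (C.tw a).Thin := fun x hx hZ => hop (opn_of_interior hns hx hZ)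
    exact hb ((bin_tw ha).1 (bin_of_good hT hns hy.2.2 (subset_closure hz) hg))

end Qrt

end Pool.Agent.QS
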